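import Mathlib

/-!
# Homogeneous hereditarily decomposable continua (project HDC, problem MP_45a7b9_gt): definitions

Everything lives in a compact metric space `X`. A continuum in `X` is a closed connected (nonempty)
subset.
-/

set_option autoImplicit false

open Set Topology Filter Metric

namespace Pool.Agent.HDC

/-- homogeneous space -/
def Hom (X : Type*) [TopologicalSpace X] : Prop := ∀ x y : X, ∃ h : X ≃ₜ X, h x = y

variable {X : Type*} [MetricSpace X]

/-- a continuum: closed and connected (hence nonempty) -/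
def Ctm (K : Set X) : Prop := IsClosed K ∧ IsConnected K

/-- the homeomorphism `h` moves every point by less than `ε` -/
def Sm (h : X ≃ₜ X) (ε : ℝ) : Prop := ∀ x, dist (h x) x < ε

/-- `Y` is not the union of two proper subcontinua -/
def Indec (Y : Set X) : Prop := ∀ E F : Set X, Ctm E → Ctm F → E ∪ F = Y → E = Y ∨ F = Y

/-- finite union of continua of diameter `< r` -/
def FinLt (r : ℝ) (B : Set X) : Prop :=
  ∃ (n : ℕ) (K : Fin n → Set X), (∀ i, Ctm (K i) ∧ diam (K i) < r) ∧ B = ⋃ i, K i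

/-- finite union of continua of diameter `≤ r` -/
def FinLe (r : ℝ) (B : Set X) : Prop :=
  ∃ (n : ℕ) (K : Fin n → Set X), (∀ i, Ctm (K i) ∧ diam (K i) ≤ r) ∧ B = ⋃ i, K i

/-- every continuum in `P` that meets `D` and `Z` comes `ρ`-close to every point of `L` -/
def Full (ρ : ℝ) (L P D Z : Set X) : Prop :=
  ∀ K : Set X, Ctm K → K ⊆ P → (K ∩ D).Nonempty → (K ∩ Z).Nonempty → L ⊆ thickening ρ K

/-- `L` is a continuum irreducible between the sets `A` and `H` -/
def Irr (L A H : Set X) : Prop :=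
  Ctm L ∧ (L ∩ A).Nonempty ∧ (L ∩ H).Nonempty ∧
    ∀ K : Set X, Ctm K → K ⊆ L → (K ∩ A).Nonempty → (K ∩ H).Nonempty → K = L

/-- the points that can be joined to `x` by a connected finite union of continua of
diameter `≤ r` -/
def Cls (r : ℝ) (x : X) : Set X := {y | ∃ B : Set X, FinLe r B ∧ IsConnected B ∧ x ∈ B ∧ y ∈ B}

/-- the data of one doubling step from the continuum `L` (inside `W`) to the continuum `L'`
(inside `W'`), with precision `ε` -/
def Step (ε : ℝ) (L W L' W' : Set X) : Prop :=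
  ∃ P₁ P₂ Z D₁ D₂ : Set X, IsClosed P₁ ∧ IsClosed P₂ ∧ IsClosed Z ∧ IsClosed D₁ ∧ IsClosed D₂ ∧
    W' ⊆ P₁ ∪ Z ∪ P₂ ∧ W' ⊆ thickening ε W ∧ Disjoint P₁ P₂ ∧
    (L' ∩ (P₁ ∩ D₁)).Nonempty ∧ (L' ∩ (P₂ ∩ D₂)).Nonempty ∧
    Full ε L P₁ D₁ Z ∧ Full ε L P₂ D₂ Z

/-- hub property of the set `H` for the class `Q` -/
def Hub (Q : Set X → Prop) (H : Set X) : Prop :=
  ∀ ε > 0, ∃ δ > 0, ∀ h : X ≃ₜ X, Sm h δ →
    ∃ T : Set X, Q T ∧ Ctm T ∧ T ⊆ thickening ε H ∧ (T ∩ H).Nonempty ∧ (T ∩ h '' H).Nonempty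

end Pool.Agent.HDC
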