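import Mathlib
import Pool.Agent.HDC.Defs

/-!
# Elementary lemmas on the definitions of project HDC
-/

set_option autoImplicit false

open Set Topology Filter Metric

namespace Pool.Agent.HDC

variable {X : Type*} [MetricSpace X]

theorem Sm.mono {h : X ≃ₜ X} {ε δ : ℝ} (hh : Sm h ε) (hle : ε ≤ δ) : Sm h δ :=
  fun x => (hh x).trans_le hle

theorem Sm.symm {h : X ≃ₜ X} {ε : ℝ} (hh : Sm h ε) : Sm h.symm ε := by
  intro x
  have := hh (h.symm x)
  rwa [h.apply_symm_apply, dist_comm] at this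

theorem Sm.trans {h g : X ≃ₜ X} {ε δ : ℝ} (hh : Sm h ε) (hg : Sm g δ) :
    Sm (h.trans g) (ε + δ) := by
  intro x
  calc dist ((h.trans g) x) x ≤ dist (g (h x)) (h x) + dist (h x) x := dist_triangle _ _ _
    _ < ε + δ := by linarith [hh x, hg (h x)]

theorem Sm.refl {ε : ℝ} (hε : 0 < ε) : Sm (Homeomorph.refl X) ε := by
  intro x
  simpa using hε

theorem Ctm.image {K : Set X} (hK : Ctm K) (h : X ≃ₜ X) : Ctm (h '' K) :=
  ⟨h.isClosed_image.2 hK.1, hK.2.image h h.continuous.continuousOn⟩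

theorem ctm_singleton (x : X) : Ctm ({x} : Set X) := ⟨isClosed_singleton, isConnected_singleton⟩

theorem Ctm.nonempty {K : Set X} (hK : Ctm K) : K.Nonempty := hK.2.nonempty

theorem Ctm.union {K L : Set X} (hK : Ctm K) (hL : Ctm L) (h : (K ∩ L).Nonempty) :
    Ctm (K ∪ L) := ⟨hK.1.union hL.1, hK.2.union h hL.2⟩

theorem Sm.image_subset {h : X ≃ₜ X} {ε : ℝ} (hh : Sm h ε) (K : Set X) :
    h '' K ⊆ thickening ε K := by
  rintro _ ⟨x, hx, rfl⟩
  rw [mem_thickening_iff]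
  exact ⟨x, hx, hh x⟩

theorem Sm.subset_image {h : X ≃ₜ X} {ε : ℝ} (hh : Sm h ε) (K : Set X) :
    K ⊆ thickening ε (h '' K) := by
  intro x hx
  rw [mem_thickening_iff]
  refine ⟨h x, mem_image_of_mem h hx, ?_⟩
  rw [dist_comm]
  exact hh x

theorem FinLt.isClosed {r : ℝ} {B : Set X} (hB : FinLt r B) : IsClosed B := by
  obtain ⟨n, K, hK, rfl⟩ := hB
  exact isClosed_iUnion_of_finite fun i => (hK i).1.1

theorem FinLe.isClosed {r : ℝ} {B : Set X} (hB : FinLe r B) : IsClosed B := by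
  obtain ⟨n, K, hK, rfl⟩ := hB
  exact isClosed_iUnion_of_finite fun i => (hK i).1.1

theorem FinLe.finLt {r r' : ℝ} (h : r < r') {B : Set X} (hB : FinLe r B) : FinLt r' B := by
  obtain ⟨n, K, hK, rfl⟩ := hB
  exact ⟨n, K, fun i => ⟨(hK i).1, (hK i).2.trans_lt h⟩, rfl⟩

theorem FinLt.union {r : ℝ} {B B' : Set X} (hB : FinLt r B) (hB' : FinLt r B') :
    FinLt r (B ∪ B') := by
  obtain ⟨n, K, hK, rfl⟩ := hB
  obtain ⟨m, L, hL, rfl⟩ := hB'
  refine ⟨n + m, Fin.append K L, ?_, ?_⟩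
  · intro i
    refine Fin.addCases (fun j => ?_) (fun j => ?_) i
    · rw [Fin.append_left]; exact hK j
    · rw [Fin.append_right]; exact hL j
  · apply Subset.antisymm
    · rintro x (hx | hx)
      · obtain ⟨i, hi⟩ := mem_iUnion.1 hx
        exact mem_iUnion.2 ⟨Fin.castAdd m i, by rwa [Fin.append_left]⟩
      · obtain ⟨i, hi⟩ := mem_iUnion.1 hx
        exact mem_iUnion.2 ⟨Fin.natAdd n i, by rwa [Fin.append_right]⟩
    · intro x hx
      obtain ⟨i, hi⟩ := mem_iUnion.1 hx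
      revert hi
      refine Fin.addCases (fun j => ?_) (fun j => ?_) i
      · rw [Fin.append_left]; exact fun h => Or.inl (mem_iUnion.2 ⟨j, h⟩)
      · rw [Fin.append_right]; exact fun h => Or.inr (mem_iUnion.2 ⟨j, h⟩)

theorem Sm.diam_image_le [CompactSpace X] {h : X ≃ₜ X} {ε : ℝ} (hh : Sm h ε) (hε : 0 < ε)
    (K : Set X) : diam (h '' K) ≤ diam K + 2 * ε := by
  apply diam_le_of_forall_dist_le (by have := diam_nonneg (s := K); linarith)
  rintro _ ⟨x, hx, rfl⟩ _ ⟨y, hy, rfl⟩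
  have h1 : dist x y ≤ diam K := dist_le_diam_of_mem (isCompact_univ.isBounded.subset
    (subset_univ K)) hx hy
  calc dist (h x) (h y) ≤ dist (h x) x + dist x y + dist y (h y) := dist_triangle4 _ _ _ _
    _ ≤ diam K + 2 * ε := by
        have h2 := hh x
        have h3 := hh y
        rw [dist_comm] at h3
        linarith

theorem FinLt.exists_small [CompactSpace X] {r : ℝ} {B : Set X} (hB : FinLt r B) :
    ∃ δ > 0, ∀ h : X ≃ₜ X, Sm h δ → FinLt r (h '' B) := by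
  obtain ⟨n, K, hK, rfl⟩ := hB
  obtain ⟨δ, hδ, hδK⟩ : ∃ δ > 0, ∀ i, diam (K i) + 2 * δ < r := by
    rcases Nat.eq_zero_or_pos n with hn | hn
    · subst hn
      exact ⟨1, one_pos, fun i => i.elim0⟩
    · haveI : Nonempty (Fin n) := ⟨⟨0, hn⟩⟩
      obtain ⟨i₀, hi₀⟩ := Finite.exists_max fun i => diam (K i)
      refine ⟨(r - diam (K i₀)) / 4, by have := (hK i₀).2; linarith, fun i => ?_⟩
      have h1 := hi₀ i
      have h2 := (hK i₀).2
      linarith
  refine ⟨δ, hδ, fun h hh => ⟨n, fun i => h '' K i, fun i => ⟨(hK i).1.image h, ?_⟩, ?_⟩⟩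
  · exact (hh.diam_image_le hδ _).trans_lt (hδK i)
  · rw [image_iUnion]

theorem Full.mono {ρ ρ' : ℝ} {L P D Z P' D' Z' : Set X} (h : Full ρ L P D Z) (hρ : ρ ≤ ρ')
    (hP : P' ⊆ P) (hD : D' ⊆ D) (hZ : Z' ⊆ Z) : Full ρ' L P' D' Z' := by
  intro K hK h1 h2 h3
  exact (h K hK (h1.trans hP) (h2.mono (inter_subset_inter_right _ hD))
    (h3.mono (inter_subset_inter_right _ hZ))).trans (thickening_mono hρ K)

theorem Irr.full {L A H : Set X} (h : Irr L A H) {ρ : ℝ} (hρ : 0 < ρ) : Full ρ L L A H := by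
  intro K hK h1 h2 h3
  rw [h.2.2.2 K hK h1 h2 h3]
  exact self_subset_thickening hρ L

theorem isMeagre_mono_cls {r r' : ℝ} (h : r ≤ r') (x : X) : Cls r x ⊆ Cls r' x := by
  rintro y ⟨B, ⟨n, K, hK, rfl⟩, h1, h2, h3⟩
  exact ⟨_, ⟨n, K, fun i => ⟨(hK i).1, (hK i).2.trans h⟩, rfl⟩, h1, h2, h3⟩

end Pool.Agent.HDC
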