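import Mathlib
import Pool.Agent.HDC.Defs

/-!
# HDC module HYPER: every sequence of continua has a subsequence converging to a continuum

PROOF. `TopologicalSpace.NonemptyCompacts X` is a compact metric space (Hausdorff metric; see
Mathlib `Topology/MetricSpace/Closeds`). Take a convergent subsequence of the compact sets `K n`;
its limit `K'` is a nonempty compact set and for every `ε > 0` eventually the Hausdorff distance is
`< ε`, which gives both inclusions. `K'` is connected: otherwise `K' = E ∪ F` with disjoint nonempty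
compact `E, F`; let `ε > 0` be smaller than a third of their distance; for large `n`,
`K (φ n) ⊆ thickening ε E ∪ thickening ε F` (disjoint open sets) and meets both
since `K' ⊆ thickening ε (K (φ n))`: contradiction. About 70 lines.
-/

set_option autoImplicit false

open Set Topology Filter Metric

namespace Pool.Agent.HDC

private theorem hy_conn {X : Type*} [MetricSpace X] [CompactSpace X] (K : ℕ → Set X)
    (hK : ∀ n, Ctm (K n)) {K' : Set X} (hc : IsClosed K')
    (h : ∀ ε > 0, ∀ᶠ n in atTop, K n ⊆ thickening ε K' ∧ K' ⊆ thickening ε (K n)) :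
    IsPreconnected K' := by
  rw [isPreconnected_iff_subset_of_disjoint_closed]
  intro u v hu hv huv hd
  by_contra hcon
  rw [not_or] at hcon
  obtain ⟨hnu, hnv⟩ := hcon
  obtain ⟨a, ha, hau⟩ := not_subset.mp hnu
  obtain ⟨b, hb, hbv⟩ := not_subset.mp hnv
  have hav : a ∈ v := (huv ha).resolve_left hau
  have hbu : b ∈ u := (huv hb).resolve_right hbv
  have hdisj : Disjoint (K' ∩ u) (K' ∩ v) := by
    rw [Set.disjoint_left]
    rintro z ⟨hz, hzu⟩ ⟨_, hzv⟩
    have : z ∈ K' ∩ (u ∩ v) := ⟨hz, hzu, hzv⟩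
    rw [hd] at this
    exact this
  obtain ⟨ε, hε, hεd⟩ := hdisj.exists_thickenings (hc.inter hu).isCompact (hc.inter hv)
  obtain ⟨n, hn1, hn2⟩ := (h ε hε).exists
  have hcov : K n ⊆ thickening ε (K' ∩ u) ∪ thickening ε (K' ∩ v) := by
    intro z hz
    obtain ⟨w, hw, hzw⟩ := mem_thickening_iff.mp (hn1 hz)
    rcases huv hw with h1 | h1
    · exact Or.inl (mem_thickening_iff.mpr ⟨w, ⟨hw, h1⟩, hzw⟩)
    · exact Or.inr (mem_thickening_iff.mpr ⟨w, ⟨hw, h1⟩, hzw⟩)
  obtain ⟨a', ha', haa⟩ := mem_thickening_iff.mp (hn2 ha)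
  obtain ⟨b', hb', hbb⟩ := mem_thickening_iff.mp (hn2 hb)
  have ha2 : a' ∈ thickening ε (K' ∩ v) :=
    mem_thickening_iff.mpr ⟨a, ⟨ha, hav⟩, by rw [dist_comm]; exact haa⟩
  have hb2 : b' ∈ thickening ε (K' ∩ u) :=
    mem_thickening_iff.mpr ⟨b, ⟨hb, hbu⟩, by rw [dist_comm]; exact hbb⟩
  rcases (hK n).2.isPreconnected.subset_or_subset isOpen_thickening isOpen_thickening hεd hcov
    with h1 | h1
  · exact Set.disjoint_left.mp hεd (h1 ha') ha2
  · exact Set.disjoint_left.mp hεd hb2 (h1 hb')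

theorem exists_limit {X : Type*} [MetricSpace X] [CompactSpace X] (K : ℕ → Set X)
    (hK : ∀ n, Ctm (K n)) :
    ∃ (K' : Set X) (φ : ℕ → ℕ), Ctm K' ∧ StrictMono φ ∧
      ∀ ε > 0, ∀ᶠ n in atTop, K (φ n) ⊆ thickening ε K' ∧ K' ⊆ thickening ε (K (φ n)) := by
  let k : ℕ → TopologicalSpace.NonemptyCompacts X := fun n =>
    ⟨⟨K n, (hK n).1.isCompact⟩, (hK n).2.nonempty⟩
  obtain ⟨a, φ, hφ, hlim⟩ := CompactSpace.tendsto_subseq k
  have hfin : ∀ s t : TopologicalSpace.NonemptyCompacts X,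
      hausdorffEDist (s : Set X) t ≠ ⊤ := fun s t =>
    hausdorffEDist_ne_top_of_nonempty_of_bounded s.nonempty t.nonempty s.isCompact.isBounded
      t.isCompact.isBounded
  have hprop : ∀ ε > 0, ∀ᶠ n in atTop, K (φ n) ⊆ thickening ε (a : Set X) ∧
      (a : Set X) ⊆ thickening ε (K (φ n)) := by
    intro ε hε
    filter_upwards [Metric.tendsto_nhds.mp hlim ε hε] with n hn
    have hn' : hausdorffDist (K (φ n)) (a : Set X) < ε := hn
    constructor
    · intro z hz
      obtain ⟨w, hw, hzw⟩ := exists_dist_lt_of_hausdorffDist_lt hz hn' (hfin (k (φ n)) a)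
      exact mem_thickening_iff.mpr ⟨w, hw, hzw⟩
    · intro z hz
      rw [hausdorffDist_comm] at hn'
      obtain ⟨w, hw, hzw⟩ := exists_dist_lt_of_hausdorffDist_lt hz hn' (hfin a (k (φ n)))
      exact mem_thickening_iff.mpr ⟨w, hw, hzw⟩
  exact ⟨(a : Set X), φ, ⟨a.isCompact.isClosed, a.nonempty,
    hy_conn (fun n => K (φ n)) (fun n => hK (φ n)) a.isCompact.isClosed hprop⟩, hφ, hprop⟩

end Pool.Agent.HDC
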