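import Mathlib
import Pool.Agent.HDC.Basic
import Pool.Agent.HDC.Hyper

/-!
# HDC module FULLSTAB: the property `Full` is stable under small enlargements

(uses the stub `exists_limit`)

PROOF. Suppose not. For every `n` there is (take `η = 1/(n+1)`) a continuum
`K n ⊆ cthickening η P` meeting `cthickening η D` and `cthickening η Z` such that
`¬ L ⊆ thickening ρ' (K n)`. Take `K'`, `φ` from `exists_limit`. `K'` is a continuum; `K' ⊆ P`:
a point `y ∈ K'` is within `ε` of `K (φ n)`, hence within `2 ε + 1/(φ n + 1)` of `P`, for all `ε`;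
`P` is closed. `K'` meets `D`: choose points `y_n ∈ K (φ n) ∩ cthickening _ D`, a convergent
subsequence with limit `y`; `y` is in `K'` (closed, as `K (φ n) ⊆ thickening ε K'`) and in `D`.
In the same way `K'` meets `Z`. By `hf`, `L ⊆ thickening ρ K'`. For large `n`,
`K' ⊆ thickening (ρ' - ρ) (K (φ n))`, so `L ⊆ thickening ρ' (K (φ n))`: contradiction.
About 80 lines. (`thickening_thickening_subset` may help.)
-/

set_option autoImplicit false

open Set Topology Filter Metric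

namespace Pool.Agent.HDC

private theorem fs_lim {X : Type*} [MetricSpace X] {A : Set X} (hA : IsClosed A) {y : ℕ → X}
    {z : X} (hy : Tendsto y atTop (𝓝 z)) (h : ∀ ε > 0, ∀ᶠ n in atTop, y n ∈ thickening ε A) :
    z ∈ A := by
  rw [← hA.closure_eq, Metric.mem_closure_iff]
  intro ε hε
  obtain ⟨n, hn1, hn2⟩ := ((h (ε / 2) (by linarith)).and
    (Metric.tendsto_nhds.mp hy (ε / 2) (by linarith))).exists
  obtain ⟨b, hb, hbn⟩ := mem_thickening_iff.mp hn1
  refine ⟨b, hb, ?_⟩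
  calc dist z b ≤ dist z (y n) + dist (y n) b := dist_triangle _ _ _
    _ < ε := by rw [dist_comm z]; linarith

private theorem fs_meet {X : Type*} [MetricSpace X] [CompactSpace X] {K : ℕ → Set X}
    {K' A : Set X} (hK' : IsClosed K') (hA : IsClosed A) {η : ℕ → ℝ}
    (hη : Tendsto η atTop (𝓝 0))
    (h1 : ∀ ε > 0, ∀ᶠ n in atTop, K n ⊆ thickening ε K')
    (h2 : ∀ n, (K n ∩ cthickening (η n) A).Nonempty) : (K' ∩ A).Nonempty := by
  choose y hyK hyA using h2
  obtain ⟨z, φ, hφ, hz⟩ := CompactSpace.tendsto_subseq y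
  refine ⟨z, fs_lim hK' hz fun ε hε => ?_, fs_lim hA hz fun ε hε => ?_⟩
  · filter_upwards [hφ.tendsto_atTop.eventually (h1 ε hε)] with n hn
    exact hn (hyK (φ n))
  · have h3 : ∀ᶠ n in atTop, η n < ε := hη.eventually (gt_mem_nhds hε)
    filter_upwards [hφ.tendsto_atTop.eventually h3] with n hn
    exact cthickening_subset_thickening' hε hn A (hyA (φ n))

theorem full_stable {X : Type*} [MetricSpace X] [CompactSpace X] {L P D Z : Set X}
    (hP : IsClosed P) (hD : IsClosed D) (hZ : IsClosed Z) {ρ ρ' : ℝ} (hρ : 0 < ρ) (hρρ : ρ < ρ')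
    (hf : Full ρ L P D Z) :
    ∃ η > 0, Full ρ' L (cthickening η P) (cthickening η D) (cthickening η Z) := by
  by_contra hcon
  have hcon' : ∀ n : ℕ, ∃ K : Set X, Ctm K ∧ K ⊆ cthickening (1 / ((n : ℝ) + 1)) P ∧
      (K ∩ cthickening (1 / ((n : ℝ) + 1)) D).Nonempty ∧
      (K ∩ cthickening (1 / ((n : ℝ) + 1)) Z).Nonempty ∧ ¬ L ⊆ thickening ρ' K := by
    intro n
    by_contra h
    apply hcon
    refine ⟨1 / ((n : ℝ) + 1), Nat.one_div_pos_of_nat, ?_⟩
    intro K hK h1 h2 h3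
    by_contra h4
    exact h ⟨K, hK, h1, h2, h3, h4⟩
  choose K hK hKP hKD hKZ hKL using hcon'
  obtain ⟨K', φ, hK', hφ, hlim⟩ := exists_limit K hK
  have hη : Tendsto (fun n : ℕ => 1 / ((φ n : ℝ) + 1)) atTop (𝓝 0) :=
    tendsto_one_div_add_atTop_nhds_zero_nat.comp hφ.tendsto_atTop
  have hlim1 : ∀ ε > 0, ∀ᶠ n in atTop, K (φ n) ⊆ thickening ε K' :=
    fun ε hε => (hlim ε hε).mono fun n hn => hn.1
  have hKP' : K' ⊆ P := by
    intro y hy
    rw [← hP.closure_eq, Metric.mem_closure_iff]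
    intro ε hε
    have h3 : ∀ᶠ n in atTop, 1 / ((φ n : ℝ) + 1) < ε / 2 :=
      hη.eventually (gt_mem_nhds (by linarith))
    obtain ⟨n, hn1, hn2⟩ := ((hlim (ε / 2) (by linarith)).and h3).exists
    obtain ⟨w, hw, hyw⟩ := mem_thickening_iff.mp (hn1.2 hy)
    obtain ⟨b, hb, hwb⟩ := mem_thickening_iff.mp
      (cthickening_subset_thickening' (by linarith) hn2 P (hKP (φ n) hw))
    refine ⟨b, hb, ?_⟩
    calc dist y b ≤ dist y w + dist w b := dist_triangle _ _ _
      _ < ε := by linarith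
  have hmD : (K' ∩ D).Nonempty := fs_meet hK'.1 hD hη hlim1 fun n => hKD (φ n)
  have hmZ : (K' ∩ Z).Nonempty := fs_meet hK'.1 hZ hη hlim1 fun n => hKZ (φ n)
  have hL : L ⊆ thickening ρ K' := hf K' hK' hKP' hmD hmZ
  obtain ⟨n, hn⟩ := (hlim (ρ' - ρ) (by linarith)).exists
  apply hKL (φ n)
  intro y hy
  obtain ⟨w, hw, hyw⟩ := mem_thickening_iff.mp (hL hy)
  obtain ⟨b, hb, hwb⟩ := mem_thickening_iff.mp (hn.2 hw)
  refine mem_thickening_iff.mpr ⟨b, hb, ?_⟩
  calc dist y b ≤ dist y w + dist w b := dist_triangle _ _ _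
    _ < ρ' := by linarith

end Pool.Agent.HDC
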