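import Mathlib

/-!
# HDC module CHAIN (Mathlib only, combinatorics): minimal chains of labelled intervals

PROOF. Call `(n, s, u, c)` a weak chain up to `t` if `E (s i) (u i) (c i)` for `i ≤ n`, `s 0 < α`,
`t < u n` and `s (i+1) < u i` for `i < n`.
(a) There is a weak chain up to `β`: let `T` be the set of `t ∈ [α, β]` such that there is a weak
chain up to `t`. `α ∈ T` (`n = 0`, `hcov α`). `T` is an initial segment. Let `t₀ = sSup T`; take an
interval `s < t₀ < u` from `hcov t₀`; there is `t ∈ T` with `s < t`; take a weak chain up to `t` and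
append `(s,u)` (`s < t < u n`): a weak chain up to every `t' < u`, in particular up to
`min β u'` for some `u' > t₀`. So `t₀ = β` and `β ∈ T`.
(b) Take a weak chain up to `β` with `n` minimal (`Nat.find`). It has the required properties,
because otherwise one gets a weak chain up to `β` with fewer members:
- `s i < s (i+1)`: if `s (i+1) ≤ s i`, omit the member `i` (for `i = 0`: `s 1 ≤ s 0 < α`; for
  `i > 0`: `s (i+1) ≤ s i < u (i-1)`).
- `u i < u (i+1)`: if `u (i+1) ≤ u i`, omit the member `i+1` (`i + 1 = n`: `β < u n ≤ u (n-1)`;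
  otherwise `s (i+2) < u (i+1) ≤ u i`).
- `u i ≤ s (i+2)`: if `s (i+2) < u i`, omit the member `i+1`.
- labels: if `c i = c j`, `i < j`, then `s i < s j < u j` (by the first property and `hE`), so
  `E (s i) (u j) (c j)` by `hm`; replace the members `i, ..., j` by this single one
  (`s i < u (i-1)`, `s (j+1) < u j`).
It may be convenient to represent chains by functions `ℕ → ℝ` as in the statement and to reindex
with `fun k => if k < i then s k else s (k+1)` etc.; or to use lists. About 150 lines.
-/

set_option autoImplicit false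

open Set Topology Filter

namespace Pool.Agent.HDC

/-- a weak chain with `n + 1` members from `α` up to `t` -/
private def ChW {ι : Type*} (E : ℝ → ℝ → ι → Prop) (α t : ℝ) (n : ℕ) (s u : ℕ → ℝ) (c : ℕ → ι) :
    Prop :=
  (∀ i ≤ n, E (s i) (u i) (c i)) ∧ s 0 < α ∧ t < u n ∧ ∀ i < n, s (i + 1) < u i

private theorem ch_exists {ι : Type*} (E : ℝ → ℝ → ι → Prop) {α β : ℝ} (hαβ : α ≤ β)
    (hcov : ∀ t ∈ Icc α β, ∃ s u c, E s u c ∧ s < t ∧ t < u) :
    ∃ n s u c, ChW E α β n s u c := by
  set T : Set ℝ := {t | t ∈ Icc α β ∧ ∃ n s u c, ChW E α t n s u c} with hT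
  have hαT : α ∈ T := by
    obtain ⟨s, u, c, h1, h2, h3⟩ := hcov α ⟨le_rfl, hαβ⟩
    exact ⟨⟨le_rfl, hαβ⟩, 0, fun _ => s, fun _ => u, fun _ => c, fun _ _ => h1, h2, h3,
      fun i hi => absurd hi (Nat.not_lt_zero i)⟩
  have hbdd : BddAbove T := ⟨β, fun t ht => ht.1.2⟩
  set t₀ := sSup T with ht₀
  have h1 : α ≤ t₀ := le_csSup hbdd hαT
  have h2 : t₀ ≤ β := csSup_le ⟨α, hαT⟩ fun t ht => ht.1.2
  obtain ⟨s', u', c', hE', hs', hu'⟩ := hcov t₀ ⟨h1, h2⟩
  obtain ⟨t, htT, hst⟩ := exists_lt_of_lt_csSup ⟨α, hαT⟩ hs'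
  obtain ⟨-, n, s, u, c, hc1, hc2, hc3, hc4⟩ := htT
  have happ : ∀ r, r < u' → ChW E α r (n + 1) (fun i => if i ≤ n then s i else s')
      (fun i => if i ≤ n then u i else u') (fun i => if i ≤ n then c i else c') := by
    intro r hr
    refine ⟨fun i hi => ?_, ?_, ?_, fun i hi => ?_⟩
    · by_cases h : i ≤ n
      · simp only [if_pos h]; exact hc1 i h
      · simp only [if_neg h]; exact hE'
    · simp only [if_pos (Nat.zero_le n)]; exact hc2
    · simp only [if_neg (show ¬ n + 1 ≤ n by omega)]; exact hr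
    · by_cases h : i + 1 ≤ n
      · simp only [if_pos h, if_pos (show i ≤ n by omega)]; exact hc4 i (by omega)
      · have hin : i = n := by omega
        subst hin
        simp only [if_neg h, if_pos le_rfl]
        linarith
  have h3 : t₀ = β := by
    by_contra hne
    have hlt : t₀ < β := lt_of_le_of_ne h2 hne
    have h4 : min β ((t₀ + u') / 2) ∈ T := by
      refine ⟨⟨le_min hαβ (by linarith), min_le_left _ _⟩, n + 1, _, _, _, happ _ ?_⟩
      exact (min_le_right _ _).trans_lt (by linarith)
    have h5 : min β ((t₀ + u') / 2) ≤ t₀ := le_csSup hbdd h4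
    have h6 : t₀ < min β ((t₀ + u') / 2) := lt_min hlt (by linarith)
    linarith
  exact ⟨n + 1, _, _, _, happ β (by rw [← h3]; exact hu')⟩

/-- omitting the member `j` -/
private theorem ch_omit {ι : Type*} {E : ℝ → ℝ → ι → Prop} {α β : ℝ} {n : ℕ} {s u : ℕ → ℝ}
    {c : ℕ → ι} (h : ChW E α β (n + 1) s u c) {j : ℕ} (hj : j ≤ n + 1) (h0 : j = 0 → s 1 < α)
    (h1 : j = n + 1 → β < u n) (h2 : ∀ k, j = k + 1 → j < n + 1 → s (j + 1) < u k) :
    ∃ s u c, ChW E α β n s u c := by
  obtain ⟨hc1, hc2, hc3, hc4⟩ := h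
  refine ⟨fun k => if k < j then s k else s (k + 1), fun k => if k < j then u k else u (k + 1),
    fun k => if k < j then c k else c (k + 1), fun i hi => ?_, ?_, ?_, fun i hi => ?_⟩
  · by_cases h : i < j
    · simp only [if_pos h]; exact hc1 i (by omega)
    · simp only [if_neg h]; exact hc1 (i + 1) (by omega)
  · by_cases h : 0 < j
    · simp only [if_pos h]; exact hc2
    · simp only [if_neg h]; exact h0 (by omega)
  · by_cases h : n < j
    · simp only [if_pos h]; exact h1 (by omega)
    · simp only [if_neg h]; exact hc3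
  · by_cases h : i + 1 < j
    · simp only [if_pos h, if_pos (show i < j by omega)]; exact hc4 i (by omega)
    · by_cases h' : i < j
      · simp only [if_neg h, if_pos h']
        have hji : j = i + 1 := by omega
        have := h2 i hji (by omega)
        rw [hji] at this
        exact this
      · simp only [if_neg h, if_neg h']; exact hc4 (i + 1) (by omega)

theorem exists_chain {ι : Type*} (E : ℝ → ℝ → ι → Prop) (hE : ∀ s u c, E s u c → s < u)
    (hm : ∀ s u s' u' c, E s u c → E s' u' c → s < u' → E s u' c) {α β : ℝ} (hαβ : α ≤ β)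
    (hcov : ∀ t ∈ Icc α β, ∃ s u c, E s u c ∧ s < t ∧ t < u) :
    ∃ (n : ℕ) (s u : ℕ → ℝ) (c : ℕ → ι), (∀ i ≤ n, E (s i) (u i) (c i)) ∧ s 0 < α ∧ β < u n ∧
      (∀ i < n, s i < s (i + 1) ∧ s (i + 1) < u i ∧ u i < u (i + 1)) ∧
      (∀ i, i + 2 ≤ n → u i ≤ s (i + 2)) ∧ ∀ i j, i < j → j ≤ n → c i ≠ c j := by
  classical
  have hex := ch_exists E hαβ hcov
  obtain ⟨s, u, c, hw⟩ := Nat.find_spec hex
  have hmin : ∀ m < Nat.find hex, ¬ ∃ s u c, ChW E α β m s u c := fun m hm =>
    Nat.find_min hex hm
  set n := Nat.find hex with hn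
  clear_value n
  obtain ⟨hc1, hc2, hc3, hc4⟩ := id hw
  have p1 : ∀ i < n, s i < s (i + 1) := by
    intro i hi
    by_contra hcon
    push Not at hcon
    obtain ⟨n', rfl⟩ : ∃ n', n = n' + 1 := ⟨n - 1, by omega⟩
    refine hmin n' (by omega) (ch_omit hw (j := i) (by omega) ?_ (by omega) ?_)
    · rintro rfl
      exact hcon.trans_lt hc2
    · rintro k rfl _
      exact hcon.trans_lt (hc4 k (by omega))
  have p3 : ∀ i < n, u i < u (i + 1) := by
    intro i hi
    by_contra hcon
    push Not at hcon
    obtain ⟨n', rfl⟩ : ∃ n', n = n' + 1 := ⟨n - 1, by omega⟩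
    refine hmin n' (by omega) (ch_omit hw (j := i + 1) (by omega) (by omega) ?_ ?_)
    · intro h
      have hin : i = n' := by omega
      subst hin
      exact hc3.trans_le hcon
    · intro k hk hkn
      have hki : k = i := by omega
      subst hki
      exact (hc4 (k + 1) hkn).trans_le hcon
  have p4 : ∀ i, i + 2 ≤ n → u i ≤ s (i + 2) := by
    intro i hi
    by_contra hcon
    push Not at hcon
    obtain ⟨n', rfl⟩ : ∃ n', n = n' + 1 := ⟨n - 1, by omega⟩
    refine hmin n' (by omega) (ch_omit hw (j := i + 1) (by omega) (by omega) (by omega) ?_)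
    intro k hk hkn
    have hki : k = i := by omega
    subst hki
    exact hcon
  have pmono : ∀ i j, i < j → j ≤ n → s i < s j := by
    intro i j hij hj
    induction j, hij using Nat.le_induction with
    | base => exact p1 i (by omega)
    | succ j hj' ih => exact (ih (by omega)).trans (p1 j (by omega))
  refine ⟨n, s, u, c, hc1, hc2, hc3, fun i hi => ⟨p1 i hi, hc4 i hi, p3 i hi⟩, p4, ?_⟩
  intro i j hij hj hcc
  obtain ⟨m, rfl⟩ : ∃ m, j = i + m := ⟨j - i, by omega⟩
  have hEij : E (s i) (u (i + m)) (c (i + m)) := by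
    have h1 := hc1 i (by omega)
    have h2 := hc1 (i + m) hj
    rw [hcc] at h1
    exact hm _ _ _ _ _ h1 h2 ((pmono i (i + m) hij hj).trans (hE _ _ _ h2))
  refine hmin (n - m) (by omega) ⟨fun k => if k ≤ i then s k else s (k + m),
    fun k => if k < i then u k else u (k + m), fun k => if k < i then c k else c (k + m),
    fun k hk => ?_, ?_, ?_, fun k hk => ?_⟩
  · rcases lt_trichotomy k i with h | h | h
    · simp only [if_pos h, if_pos h.le]; exact hc1 k (by omega)
    · subst h
      simp only [if_neg (lt_irrefl k), if_pos le_rfl]; exact hEij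
    · simp only [if_neg (show ¬ k ≤ i by omega), if_neg (show ¬ k < i by omega)]
      exact hc1 (k + m) (by omega)
  · simp only [if_pos (Nat.zero_le i)]; exact hc2
  · simp only [if_neg (show ¬ n - m < i by omega)]
    rw [show n - m + m = n by omega]
    exact hc3
  · by_cases h : k + 1 ≤ i
    · simp only [if_pos h, if_pos (show k < i by omega)]; exact hc4 k (by omega)
    · simp only [if_neg h, if_neg (show ¬ k < i by omega)]
      have h1 := hc4 (k + m) (by omega)
      rw [show k + 1 + m = k + m + 1 by omega]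
      exact h1

end Pool.Agent.HDC
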