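import Mathlib

/-!
# HDC module EAR (Mathlib only): ears of an arc in an open set without cut points

`A = f '' Icc 0 1` is an arc in `U` (`f` continuous and injective on `[0,1]`). An ear `EarRel f U s u C` consists
of `0 ≤ s < u ≤ 1` and a path component `C` of `U \ A` accessible from `f s` and from `f u`.

PROOF of `exists_ear`. `U \ {f t}` is open and preconnected, and contains `f 0`, `f 1` (`f` is
injective), so it is path connected (`IsOpen.isConnected_iff_isPathConnected`); let `γ` be a path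
in it from `f 0` to `f 1` (as a continuous function on `ℝ` or on `[0,1]`). `F₁ = f '' Icc 0 t`
and `F₂ = f '' Icc t 1` are compact and `F₁ ∩ F₂ = {f t}` (injectivity). Let `τ₁` be the first time
with `γ τ₁ ∈ F₂` (exists: `γ 1 = f 1`), `τ₀` the last time `≤ τ₁` with `γ τ₀ ∈ F₁` (exists:
`γ 0 = f 0`). `τ₀ < τ₁` because `γ` avoids `f t`. On `(τ₀, τ₁)` the path avoids `A`. Put
`f s = γ τ₀`, `f u = γ τ₁`, so `s < t < u`; `C` is the path component in `U \ A` of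
`γ ((τ₀ + τ₁)/2)`; all `γ τ`, `τ₀ < τ < τ₁`, are in `C`; reparametrise `γ` on `[τ₀, (τ₀+τ₁)/2]` and
(backwards) on `[(τ₀+τ₁)/2, τ₁]` to get the two accessibility paths.

PROOF of `EarRel.exists_joint`. Let `γ₁`, `γ₂` be the accessibility paths for `f s`, `f u`, and `δ` a
path in `C` from `γ₁ 1` to `γ₂ 1` (`isPathConnected_pathComponentIn`). `J` is the union of the three
images: compact, path connected (`IsPathConnected.union`), contained in `C ∪ {f s, f u}`.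
About 150 lines in total.
-/

set_option autoImplicit false

open Set Topology Filter

namespace Pool.Agent.HDC

/-- the set `C` is accessible from the point `x` -/
def AccPt {X : Type*} [TopologicalSpace X] (x : X) (C : Set X) : Prop :=
  ∃ γ : ℝ → X, ContinuousOn γ (Icc 0 1) ∧ γ 0 = x ∧ ∀ t ∈ Ioc (0:ℝ) 1, γ t ∈ C

/-- ear of the arc `f` in `U` with feet `f s`, `f u`, in the path component `C` of the
complement -/
def EarRel {X : Type*} [TopologicalSpace X] (f : ℝ → X) (U : Set X) (s u : ℝ) (C : Set X) : Prop :=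
  0 ≤ s ∧ s < u ∧ u ≤ 1 ∧ (∃ x ∈ U \ f '' Icc 0 1, C = pathComponentIn (U \ f '' Icc 0 1) x) ∧
    AccPt (f s) C ∧ AccPt (f u) C

theorem EarRel.merge {X : Type*} [TopologicalSpace X] {f : ℝ → X} {U : Set X} {s u s' u' : ℝ}
    {C : Set X} (h : EarRel f U s u C) (h' : EarRel f U s' u' C) (hlt : s < u') :
    EarRel f U s u' C :=
  ⟨h.1, hlt, h'.2.2.1, h.2.2.2.1, h.2.2.2.2.1, h'.2.2.2.2.2⟩

theorem EarRel.subset {X : Type*} [TopologicalSpace X] {f : ℝ → X} {U : Set X} {s u : ℝ}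
    {C : Set X} (h : EarRel f U s u C) : C ⊆ U \ f '' Icc 0 1 := by
  obtain ⟨x, -, rfl⟩ := h.2.2.2.1
  exact pathComponentIn_subset

theorem EarRel.disjoint {X : Type*} [TopologicalSpace X] {f : ℝ → X} {U : Set X} {s u s' u' : ℝ}
    {C C' : Set X} (h : EarRel f U s u C) (h' : EarRel f U s' u' C') (hne : C ≠ C') :
    Disjoint C C' := by
  obtain ⟨x, -, rfl⟩ := h.2.2.2.1
  obtain ⟨x', -, rfl⟩ := h'.2.2.2.1
  rw [disjoint_left]
  intro z hz hz'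
  exact hne ((pathComponentIn_congr hz).symm.trans (pathComponentIn_congr hz'))

theorem exists_ear {X : Type*} [TopologicalSpace X] [T2Space X] [LocallyPathConnectedSpace X]
    {U : Set X} (hU : IsOpen U) (hcut : ∀ y ∈ U, IsPreconnected (U \ {y})) {f : ℝ → X}
    (hf : ContinuousOn f (Icc 0 1)) (hi : InjOn f (Icc 0 1)) (hfU : MapsTo f (Icc 0 1) U) {t : ℝ}
    (ht : t ∈ Ioo (0:ℝ) 1) : ∃ s u C, EarRel f U s u C ∧ s < t ∧ t < u := by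
  have h0 : (0:ℝ) ∈ Icc (0:ℝ) 1 := ⟨le_rfl, zero_le_one⟩
  have h1 : (1:ℝ) ∈ Icc (0:ℝ) 1 := ⟨zero_le_one, le_rfl⟩
  have htI : t ∈ Icc (0:ℝ) 1 := ⟨ht.1.le, ht.2.le⟩
  have hUo : IsOpen (U \ {f t}) := hU.sdiff isClosed_singleton
  have h0m : f 0 ∈ U \ {f t} :=
    ⟨hfU h0, fun h => ht.1.ne (hi h0 htI (mem_singleton_iff.1 h))⟩
  have h1m : f 1 ∈ U \ {f t} :=
    ⟨hfU h1, fun h => ht.2.ne (hi h1 htI (mem_singleton_iff.1 h)).symm⟩
  have hconn : IsConnected (U \ {f t}) := ⟨⟨_, h0m⟩, hcut (f t) (hfU htI)⟩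
  have hP : IsPathConnected (U \ {f t}) := (hUo.isConnected_iff_isPathConnected).1 hconn
  obtain ⟨γ, hγ⟩ := hP.joinedIn (f 0) h0m (f 1) h1m
  obtain ⟨g, hg, hg0, hg1, hgU⟩ : ∃ g : ℝ → X, Continuous g ∧ g 0 = f 0 ∧ g 1 = f 1 ∧
      ∀ τ, g τ ∈ U \ {f t} :=
    ⟨γ.extend, γ.continuous_extend, γ.extend_zero, γ.extend_one, fun τ => hγ _⟩
  have hF1 : IsClosed (f '' Icc 0 t) :=
    (isCompact_Icc.image_of_continuousOn
      (hf.mono (Icc_subset_Icc le_rfl ht.2.le))).isClosed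
  have hF2 : IsClosed (f '' Icc t 1) :=
    (isCompact_Icc.image_of_continuousOn
      (hf.mono (Icc_subset_Icc ht.1.le le_rfl))).isClosed
  -- first time in `F₂`
  obtain ⟨τ₁, hτ₁, hτ₁F, hmin⟩ : ∃ τ₁ ∈ Icc (0:ℝ) 1, g τ₁ ∈ f '' Icc t 1 ∧
      ∀ τ ∈ Icc (0:ℝ) 1, τ < τ₁ → g τ ∉ f '' Icc t 1 := by
    have hc : IsCompact (Icc (0:ℝ) 1 ∩ g ⁻¹' (f '' Icc t 1)) :=
      isCompact_Icc.inter_right (hF2.preimage hg)
    have hne : (Icc (0:ℝ) 1 ∩ g ⁻¹' (f '' Icc t 1)).Nonempty :=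
      ⟨1, h1, 1, ⟨ht.2.le, le_rfl⟩, hg1.symm⟩
    obtain ⟨τ₁, hτ₁, hle⟩ := hc.exists_isLeast hne
    refine ⟨τ₁, hτ₁.1, hτ₁.2, fun τ hτ hlt hmem => ?_⟩
    exact absurd (hle ⟨hτ, hmem⟩) (not_le.2 hlt)
  obtain ⟨τ₀, hτ₀, hτ₀F, hmax⟩ : ∃ τ₀ ∈ Icc (0:ℝ) τ₁, g τ₀ ∈ f '' Icc 0 t ∧
      ∀ τ ∈ Icc (0:ℝ) τ₁, τ₀ < τ → g τ ∉ f '' Icc 0 t := by
    have hc : IsCompact (Icc (0:ℝ) τ₁ ∩ g ⁻¹' (f '' Icc 0 t)) :=
      isCompact_Icc.inter_right (hF1.preimage hg)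
    have hne : (Icc (0:ℝ) τ₁ ∩ g ⁻¹' (f '' Icc 0 t)).Nonempty :=
      ⟨0, ⟨le_rfl, hτ₁.1⟩, 0, ⟨le_rfl, ht.1.le⟩, hg0.symm⟩
    obtain ⟨τ₀, hτ₀, hge⟩ := hc.exists_isGreatest hne
    refine ⟨τ₀, hτ₀.1, hτ₀.2, fun τ hτ hlt hmem => ?_⟩
    exact absurd (hge ⟨hτ, hmem⟩) (not_le.2 hlt)
  obtain ⟨s, hs, hsg⟩ := hτ₀F
  obtain ⟨u, hu, hug⟩ := hτ₁F
  have hst : s < t := by
    refine lt_of_le_of_ne hs.2 fun h => ?_
    rw [h] at hsg
    exact (hgU τ₀).2 (by rw [← hsg]; rfl)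
  have htu : t < u := by
    refine lt_of_le_of_ne hu.1 fun h => ?_
    rw [← h] at hug
    exact (hgU τ₁).2 (by rw [← hug]; rfl)
  have hlt : τ₀ < τ₁ := by
    refine lt_of_le_of_ne hτ₀.2 fun h => ?_
    have h2 : f s = f u := by rw [hsg, hug, h]
    have h3 := hi ⟨hs.1, hs.2.trans ht.2.le⟩ ⟨ht.1.le.trans hu.1, hu.2⟩ h2
    linarith
  have hout : ∀ τ ∈ Ioo τ₀ τ₁, g τ ∈ U \ f '' Icc 0 1 := by
    intro τ hτ
    refine ⟨(hgU τ).1, ?_⟩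
    rintro ⟨x, hx, hxg⟩
    have hτI : τ ∈ Icc (0:ℝ) 1 := ⟨hτ₀.1.trans hτ.1.le, hτ.2.le.trans hτ₁.2⟩
    rcases le_total x t with h | h
    · exact hmax τ ⟨hτI.1, hτ.2.le⟩ hτ.1 ⟨x, ⟨hx.1, h⟩, hxg⟩
    · exact hmin τ hτI hτ.2 ⟨x, ⟨h, hx.2⟩, hxg⟩
  set mid := (τ₀ + τ₁) / 2 with hmid
  have hmidI : mid ∈ Ioo τ₀ τ₁ := ⟨by rw [hmid]; linarith, by rw [hmid]; linarith⟩
  have hsub : g '' Ioo τ₀ τ₁ ⊆ pathComponentIn (U \ f '' Icc 0 1) (g mid) := by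
    refine IsPathConnected.subset_pathComponentIn ?_ ⟨mid, hmidI, rfl⟩ ?_
    · exact ((convex_Ioo τ₀ τ₁).isPathConnected ⟨mid, hmidI⟩).image hg
    · rintro _ ⟨τ, hτ, rfl⟩
      exact hout τ hτ
  refine ⟨s, u, pathComponentIn (U \ f '' Icc 0 1) (g mid),
    ⟨hs.1, hst.trans htu, hu.2, ⟨g mid, hout mid hmidI, rfl⟩, ?_, ?_⟩, hst, htu⟩
  · refine ⟨fun x => g (τ₀ + x * (mid - τ₀)), (hg.comp (by fun_prop)).continuousOn, ?_, ?_⟩
    · show g (τ₀ + 0 * (mid - τ₀)) = f s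
      rw [zero_mul, add_zero, hsg]
    · intro x hx
      refine hsub ⟨_, ⟨?_, ?_⟩, rfl⟩
      · have : 0 < x * (mid - τ₀) := mul_pos hx.1 (by linarith [hmidI.1])
        linarith
      · have : x * (mid - τ₀) ≤ 1 * (mid - τ₀) :=
          mul_le_mul_of_nonneg_right hx.2 (by linarith [hmidI.1])
        linarith [hmidI.2]
  · refine ⟨fun x => g (τ₁ - x * (τ₁ - mid)), (hg.comp (by fun_prop)).continuousOn, ?_, ?_⟩
    · show g (τ₁ - 0 * (τ₁ - mid)) = f u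
      rw [zero_mul, sub_zero, hug]
    · intro x hx
      refine hsub ⟨_, ⟨?_, ?_⟩, rfl⟩
      · have : x * (τ₁ - mid) ≤ 1 * (τ₁ - mid) :=
          mul_le_mul_of_nonneg_right hx.2 (by linarith [hmidI.2])
        linarith [hmidI.1]
      · have : 0 < x * (τ₁ - mid) := mul_pos hx.1 (by linarith [hmidI.2])
        linarith

theorem EarRel.exists_joint {X : Type*} [TopologicalSpace X] {f : ℝ → X} {U : Set X} {s u : ℝ}
    {C : Set X} (h : EarRel f U s u C) :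
    ∃ J : Set X, IsCompact J ∧ IsPathConnected J ∧ f s ∈ J ∧ f u ∈ J ∧ J ⊆ C ∪ {f s, f u} := by
  obtain ⟨-, -, -, ⟨x, hx, hC⟩, ⟨γ₁, c1, e1, m1⟩, γ₂, c2, e2, m2⟩ := h
  have h0 : (0:ℝ) ∈ Icc (0:ℝ) 1 := ⟨le_rfl, zero_le_one⟩
  have h1 : (1:ℝ) ∈ Icc (0:ℝ) 1 := ⟨zero_le_one, le_rfl⟩
  have h1' : (1:ℝ) ∈ Ioc (0:ℝ) 1 := ⟨zero_lt_one, le_rfl⟩
  have hCp : IsPathConnected C := by
    rw [hC]
    exact isPathConnected_pathComponentIn hx
  obtain ⟨δ, hδ⟩ := hCp.joinedIn (γ₁ 1) (m1 1 h1') (γ₂ 1) (m2 1 h1')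
  have hI : IsPathConnected (Icc (0:ℝ) 1) := (convex_Icc (0:ℝ) 1).isPathConnected ⟨0, h0⟩
  have p1 : IsPathConnected (γ₁ '' Icc 0 1) := hI.image' c1
  have p2 : IsPathConnected (γ₂ '' Icc 0 1) := hI.image' c2
  have : PathConnectedSpace unitInterval := isPathConnected_iff_pathConnectedSpace.1 hI
  have p3 : IsPathConnected (range δ) := isPathConnected_range δ.continuous
  have p4 : IsPathConnected (γ₁ '' Icc 0 1 ∪ range δ) :=
    p1.union p3 ⟨γ₁ 1, ⟨1, h1, rfl⟩, 0, δ.source⟩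
  have p5 : IsPathConnected (γ₁ '' Icc 0 1 ∪ range δ ∪ γ₂ '' Icc 0 1) :=
    p4.union p2 ⟨γ₂ 1, Or.inr ⟨1, δ.target⟩, 1, h1, rfl⟩
  refine ⟨γ₁ '' Icc 0 1 ∪ range δ ∪ γ₂ '' Icc 0 1, ?_, p5, ?_, ?_, ?_⟩
  · exact ((isCompact_Icc.image_of_continuousOn c1).union
      (isCompact_range δ.continuous)).union (isCompact_Icc.image_of_continuousOn c2)
  · exact Or.inl (Or.inl ⟨0, h0, e1⟩)
  · exact Or.inr ⟨0, h0, e2⟩
  · have key : ∀ (γ : ℝ → X) (y : X), γ 0 = y → (∀ t ∈ Ioc (0:ℝ) 1, γ t ∈ C) →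
        γ '' Icc 0 1 ⊆ C ∪ {y} := by
      rintro γ y hy hm _ ⟨t, ht, rfl⟩
      rcases eq_or_lt_of_le ht.1 with h2 | h2
      · right
        rw [← h2, hy]
        rfl
      · exact Or.inl (hm t ⟨h2, ht.2⟩)
    refine union_subset (union_subset ?_ ?_) ?_
    · refine (key γ₁ _ e1 m1).trans (union_subset_union_right _ ?_)
      intro y hy
      exact Or.inl hy
    · rintro _ ⟨t, rfl⟩
      exact Or.inl (hδ t)
    · refine (key γ₂ _ e2 m2).trans (union_subset_union_right _ ?_)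
      intro y hy
      exact Or.inr hy

end Pool.Agent.HDC
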