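import Mathlib
import Pool.Agent.HDC.Chain
import Pool.Agent.HDC.Ear

/-!
# HDC module TWOPATHS: two disjoint path connected compact sets along an arc

(uses the stubs `exists_chain`, `exists_ear`, `EarRel.exists_joint`)

PROOF. Apply `exists_chain` with `E s u C = EarRel f U s u C`, `α = η`, `β = 1 - η`
(`EarRel.merge`, `exists_ear`). Get `n`, `s`, `u`, `c`; let `J i` be the set of
`EarRel.exists_joint` for the ear `i`.
Claim, by induction on `k ≤ n`: there are compact path connected `P, Q ⊆ U`, disjoint, and `p` with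
`s k < p`, `p < u k`, `k + 1 ≤ n → p ≤ s (k+1)`, `0 ≤ p`, such that
`f p ∈ P`, `f (u k) ∈ Q`, both meet `f '' Icc 0 η`,
`P ∩ A ⊆ f '' Icc 0 p`, `Q ∩ A ⊆ f '' Icc 0 p ∪ {f (u k)}` (`A = f '' Icc 0 1`), and
`P ∪ Q ⊆ A ∪ ⋃_{i ≤ k} c i`.
Start `k = 0`: `Q = J 0`, `P = {f p}` with `p = min η (s 1)` if `n ≥ 1`, `p = η` if `n = 0`
(then `η ≤ 1 - η < u 0`). `Q ∩ A ⊆ {f (s 0), f (u 0)}`, `s 0 < p < u 0` (as `s 1 < u 0`).
Step from `k` to `k+1 ≤ n`: new ear `J (k+1)` from `s (k+1)` to `u (k+1)`,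
`p ≤ s (k+1) < u k < u (k+1)`. Let `Q' = P ∪ f '' Icc p (s (k+1)) ∪ J (k+1)`, `P' = Q`, `p' = u k`.
Then `s (k+1) < p' < u (k+1)`, and `p' = u k ≤ s (k+2)` if `k + 2 ≤ n`. `Q'` is compact and path
connected. Disjointness from `P' = Q`: `P` is disjoint from `Q`; `f '' Icc p (s (k+1))` is disjoint
from `Q` because `Q ∩ A ⊆ f '' Icc 0 p ∪ {f (u k)}`, `f p ∈ P` is not in `Q`,
`s (k+1) < u k`, and `f` is injective; `J (k+1) ⊆ c (k+1) ∪ {f (s (k+1)), f (u (k+1))}`: `c (k+1)`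
is disjoint from `A` and from all `c i`, `i ≤ k` (`EarRel.disjoint`), and `u (k+1)` is larger than
`p` and `u k`. `P' ∩ A ⊆ f '' Icc 0 p ∪ {f (u k)} ⊆ f '' Icc 0 p'`;
`Q' ∩ A ⊆ f '' Icc 0 (s (k+1)) ∪ {f (u (k+1))} ⊆ f '' Icc 0 p' ∪ {f (u (k+1))}`.
End `k = n`: `1 - η < u n`, so `Q` meets `f '' Icc (1-η) 1` at `f (u n)`. If `1 - η ≤ p`, `P` meets
it at `f p`. Otherwise replace `P` by `P ∪ f '' Icc p (1-η)` (disjoint from `Q` as above since
`1 - η < u n`). About 180 lines.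
-/

set_option autoImplicit false

open Set Topology Filter

namespace Pool.Agent.HDC

/-- the invariant of the construction: two disjoint path connected compact sets `P`, `Q`, the first
ends at `f p` and the second at `f w`, `p < w` -/
structure TP {X : Type*} [TopologicalSpace X] (f : ℝ → X) (U : Set X) (η : ℝ) (D P Q : Set X)
    (p w : ℝ) : Prop where
  cP : IsCompact P
  cQ : IsCompact Q
  pP : IsPathConnected P
  pQ : IsPathConnected Q
  uP : P ⊆ U
  uQ : Q ⊆ U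
  dj : Disjoint P Q
  p0 : 0 ≤ p
  pw : p < w
  w1 : w ≤ 1
  fp : f p ∈ P
  fw : f w ∈ Q
  mP : (P ∩ f '' Icc 0 η).Nonempty
  mQ : (Q ∩ f '' Icc 0 η).Nonempty
  aP : ∀ x ∈ P, x ∈ f '' Icc 0 1 → x ∈ f '' Icc 0 p
  aQ : ∀ x ∈ Q, x ∈ f '' Icc 0 1 → x ∈ f '' Icc 0 p ∨ x = f w
  dP : ∀ x ∈ P, x ∈ f '' Icc 0 1 ∨ x ∈ D
  dQ : ∀ x ∈ Q, x ∈ f '' Icc 0 1 ∨ x ∈ D

theorem TP.ext {X : Type*} [TopologicalSpace X] {f : ℝ → X} {U : Set X} {η : ℝ} {D P Q : Set X}
    {p w q : ℝ} (hf : ContinuousOn f (Icc 0 1)) (hi : InjOn f (Icc 0 1))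
    (hfU : MapsTo f (Icc 0 1) U) (h : TP f U η D P Q p w) (hq : p ≤ q) (hqw : q < w) :
    TP f U η D (P ∪ f '' Icc p q) Q q w := by
  have hp0 := h.p0
  have hw1 := h.w1
  have hsub : Icc p q ⊆ Icc 0 1 := fun x hx => ⟨hp0.trans hx.1, (hx.2.trans hqw.le).trans hw1⟩
  have hmono : f '' Icc 0 p ⊆ f '' Icc 0 q := image_mono (Icc_subset_Icc le_rfl hq)
  have hcR : IsCompact (f '' Icc p q) := isCompact_Icc.image_of_continuousOn (hf.mono hsub)
  have hpR : IsPathConnected (f '' Icc p q) :=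
    ((convex_Icc p q).isPathConnected ⟨p, left_mem_Icc.2 hq⟩).image' (hf.mono hsub)
  refine
    { cP := h.cP.union hcR
      cQ := h.cQ
      pP := h.pP.union hpR ⟨f p, h.fp, p, left_mem_Icc.2 hq, rfl⟩
      pQ := h.pQ
      uP := union_subset h.uP ((hfU.mono_left hsub).image_subset)
      uQ := h.uQ
      dj := ?_
      p0 := hp0.trans hq
      pw := hqw
      w1 := hw1
      fp := Or.inr ⟨q, right_mem_Icc.2 hq, rfl⟩
      fw := h.fw
      mP := h.mP.mono (inter_subset_inter_left _ subset_union_left)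
      mQ := h.mQ
      aP := ?_
      aQ := ?_
      dP := ?_
      dQ := h.dQ }
  · refine disjoint_union_left.2 ⟨h.dj, ?_⟩
    rw [disjoint_left]
    rintro x ⟨a, ha, rfl⟩ hxQ
    have haI := hsub ha
    rcases h.aQ _ hxQ ⟨a, haI, rfl⟩ with ⟨b, hb, hba⟩ | hx
    · have h1 : b = a := hi ⟨hb.1, hb.2.trans (h.pw.le.trans hw1)⟩ haI hba
      have h2 : a = p := le_antisymm (h1 ▸ hb.2) ha.1
      rw [h2] at hxQ
      exact disjoint_left.1 h.dj h.fp hxQ
    · have h1 : a = w := hi haI ⟨h.p0.trans h.pw.le, hw1⟩ hx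
      have h2 := ha.2
      linarith
  · rintro x (hx | ⟨a, ha, rfl⟩) hxA
    · exact hmono (h.aP x hx hxA)
    · exact ⟨a, ⟨hp0.trans ha.1, ha.2⟩, rfl⟩
  · intro x hx hxA
    rcases h.aQ x hx hxA with h1 | h1
    · exact Or.inl (hmono h1)
    · exact Or.inr h1
  · rintro x (hx | ⟨a, ha, rfl⟩)
    · exact h.dP x hx
    · exact Or.inl ⟨a, hsub ha, rfl⟩

theorem TP.join {X : Type*} [TopologicalSpace X] {f : ℝ → X} {U : Set X} {η : ℝ}
    {D P Q c J : Set X} {q w w' : ℝ} (hi : InjOn f (Icc 0 1))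
    (hfU : MapsTo f (Icc 0 1) U) (h : TP f U η D P Q q w) (hw : w < w') (hw1 : w' ≤ 1)
    (hcJ : IsCompact J) (hpJ : IsPathConnected J) (hqJ : f q ∈ J) (hwJ : f w' ∈ J)
    (hJ : J ⊆ c ∪ {f q, f w'}) (hcA : ∀ x ∈ c, x ∉ f '' Icc 0 1) (hcU : c ⊆ U)
    (hcD : ∀ x ∈ c, x ∉ D) : TP f U η (D ∪ c) Q (P ∪ J) w w' := by
  have hq0 := h.p0
  have hqw := h.pw
  have hqA : f q ∈ f '' Icc 0 1 := ⟨q, ⟨hq0, (hqw.le.trans hw.le).trans hw1⟩, rfl⟩
  have hwA : f w' ∈ f '' Icc 0 1 := ⟨w', ⟨by linarith, hw1⟩, rfl⟩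
  have hmono : f '' Icc 0 q ⊆ f '' Icc 0 w := image_mono (Icc_subset_Icc le_rfl hqw.le)
  have hAU : f '' Icc 0 1 ⊆ U := hfU.image_subset
  refine
    { cP := h.cQ
      cQ := h.cP.union hcJ
      pP := h.pQ
      pQ := h.pP.union hpJ ⟨f q, h.fp, hqJ⟩
      uP := h.uQ
      uQ := ?_
      dj := ?_
      p0 := by linarith
      pw := hw
      w1 := hw1
      fp := h.fw
      fw := Or.inr hwJ
      mP := h.mQ
      mQ := h.mP.mono (inter_subset_inter_left _ subset_union_left)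
      aP := ?_
      aQ := ?_
      dP := ?_
      dQ := ?_ }
  · refine union_subset h.uP fun x hx => ?_
    rcases hJ hx with h1 | h1 | h1
    · exact hcU h1
    · rw [h1]; exact hAU hqA
    · rw [mem_singleton_iff.1 h1]; exact hAU hwA
  · refine disjoint_union_right.2 ⟨h.dj.symm, ?_⟩
    rw [disjoint_left]
    intro x hxQ hxJ
    rcases hJ hxJ with h1 | h1 | h1
    · rcases h.dQ x hxQ with h2 | h2
      · exact hcA x h1 h2
      · exact hcD x h1 h2
    · rw [h1] at hxQ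
      exact disjoint_left.1 h.dj h.fp hxQ
    · rw [mem_singleton_iff.1 h1] at hxQ
      rcases h.aQ _ hxQ hwA with ⟨b, hb, hbw⟩ | h2
      · have h3 : b = w' := hi ⟨hb.1, by linarith [hb.2]⟩ ⟨by linarith, hw1⟩ hbw
        have h4 := hb.2
        linarith
      · have h3 : w' = w := hi ⟨by linarith, hw1⟩ ⟨by linarith, by linarith⟩ h2
        linarith
  · intro x hx hxA
    rcases h.aQ x hx hxA with h1 | h1
    · exact hmono h1
    · exact ⟨w, ⟨by linarith, le_rfl⟩, h1.symm⟩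
  · rintro x (hx | hx) hxA
    · exact Or.inl (hmono (h.aP x hx hxA))
    · rcases hJ hx with h1 | h1 | h1
      · exact absurd hxA (hcA x h1)
      · exact Or.inl ⟨q, ⟨hq0, hqw.le⟩, h1.symm⟩
      · exact Or.inr (mem_singleton_iff.1 h1)
  · intro x hx
    rcases h.dQ x hx with h1 | h1
    · exact Or.inl h1
    · exact Or.inr (Or.inl h1)
  · rintro x (hx | hx)
    · rcases h.dP x hx with h1 | h1
      · exact Or.inl h1
      · exact Or.inr (Or.inl h1)
    · rcases hJ hx with h1 | h1 | h1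
      · exact Or.inr (Or.inr h1)
      · exact Or.inl (h1 ▸ hqA)
      · rw [mem_singleton_iff.1 h1]
        exact Or.inl hwA

theorem exists_two_paths {X : Type*} [TopologicalSpace X] [T2Space X] [LocallyPathConnectedSpace X]
    {U : Set X} (hU : IsOpen U) (hcut : ∀ y ∈ U, IsPreconnected (U \ {y})) {f : ℝ → X}
    (hf : ContinuousOn f (Icc 0 1)) (hi : InjOn f (Icc 0 1)) (hfU : MapsTo f (Icc 0 1) U) {η : ℝ}
    (hη : 0 < η) (hη' : η < 1 / 2) :
    ∃ P Q : Set X, IsCompact P ∧ IsCompact Q ∧ IsPathConnected P ∧ IsPathConnected Q ∧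
      P ⊆ U ∧ Q ⊆ U ∧ Disjoint P Q ∧
      (P ∩ f '' Icc 0 η).Nonempty ∧ (Q ∩ f '' Icc 0 η).Nonempty ∧
      (P ∩ f '' Icc (1 - η) 1).Nonempty ∧ (Q ∩ f '' Icc (1 - η) 1).Nonempty := by
  obtain ⟨n, s, u, c, hE, hs0, hun, hst, hsep, hne⟩ :=
    exists_chain (fun s u C => EarRel f U s u C) (fun s u C h => h.2.1)
      (fun s u s' u' C h h' hlt => h.merge h' hlt) (α := η) (β := 1 - η) (by linarith)
      (fun t ht => exists_ear hU hcut hf hi hfU ⟨by linarith [ht.1], by linarith [ht.2]⟩)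
  have hJ : ∀ i, ∃ J : Set X, i ≤ n → IsCompact J ∧ IsPathConnected J ∧ f (s i) ∈ J ∧
      f (u i) ∈ J ∧ J ⊆ c i ∪ {f (s i), f (u i)} := by
    intro i
    by_cases h : i ≤ n
    · obtain ⟨J, h1⟩ := (hE i h).exists_joint
      exact ⟨J, fun _ => h1⟩
    · exact ⟨∅, fun h' => absurd h' h⟩
  choose J hJ using hJ
  have hcA : ∀ i ≤ n, ∀ x ∈ c i, x ∉ f '' Icc 0 1 := fun i hi x hx => ((hE i hi).subset hx).2
  have hcU : ∀ i ≤ n, c i ⊆ U := fun i hi x hx => ((hE i hi).subset hx).1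
  have hAU : f '' Icc 0 1 ⊆ U := hfU.image_subset
  have key : ∀ k ≤ n, ∃ (P Q : Set X) (p : ℝ), TP f U η {x | ∃ i ≤ k, x ∈ c i} P Q p (u k) ∧
      (k + 1 ≤ n → p ≤ s (k + 1)) := by
    intro k
    induction k with
    | zero =>
      intro _
      obtain ⟨h1, h2, h3, h4, h5⟩ := hJ 0 (Nat.zero_le n)
      have hE0 := hE 0 (Nat.zero_le n)
      have hs00 : 0 ≤ s 0 := hE0.1
      have hu01 : u 0 ≤ 1 := hE0.2.2.1
      obtain ⟨p, hp1, hp2, hp3, hp4⟩ : ∃ p, s 0 < p ∧ p < u 0 ∧ p ≤ η ∧ (0 + 1 ≤ n → p ≤ s 1) := by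
        rcases Nat.eq_zero_or_pos n with hn | hn
        · refine ⟨η, hs0, ?_, le_rfl, fun h => by omega⟩
          rw [hn] at hun
          linarith
        · obtain ⟨h6, h7, -⟩ := hst 0 hn
          refine ⟨min η (s 1), lt_min hs0 h6, ?_, min_le_left _ _, fun _ => min_le_right _ _⟩
          exact lt_of_le_of_lt (min_le_right _ _) h7
      have hp0 : 0 ≤ p := hs00.trans hp1.le
      have hpI : p ∈ Icc (0:ℝ) 1 := ⟨hp0, by linarith⟩
      have hsI : s 0 ∈ Icc (0:ℝ) 1 := ⟨hs00, by linarith⟩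
      have huI : u 0 ∈ Icc (0:ℝ) 1 := ⟨by linarith, hu01⟩
      refine ⟨{f p}, J 0, p,
        { cP := isCompact_singleton
          cQ := h1
          pP := isPathConnected_singleton _
          pQ := h2
          uP := singleton_subset_iff.2 (hfU hpI)
          uQ := ?_
          dj := ?_
          p0 := hp0
          pw := hp2
          w1 := hu01
          fp := rfl
          fw := h4
          mP := ⟨f p, rfl, p, ⟨hp0, hp3⟩, rfl⟩
          mQ := ⟨f (s 0), h3, s 0, ⟨hs00, hs0.le⟩, rfl⟩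
          aP := ?_
          aQ := ?_
          dP := ?_
          dQ := ?_ }, hp4⟩
      · intro x hx
        rcases h5 hx with h6 | h6 | h6
        · exact hcU 0 (Nat.zero_le n) h6
        · rw [h6]; exact hfU hsI
        · rw [mem_singleton_iff.1 h6]; exact hfU huI
      · rw [disjoint_singleton_left]
        intro hx
        rcases h5 hx with h6 | h6 | h6
        · exact hcA 0 (Nat.zero_le n) _ h6 ⟨p, hpI, rfl⟩
        · have := hi hpI hsI h6
          linarith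
        · have := hi hpI huI (mem_singleton_iff.1 h6)
          linarith
      · intro x hx _
        exact ⟨p, ⟨hp0, le_rfl⟩, (mem_singleton_iff.1 hx).symm⟩
      · intro x hx hxA
        rcases h5 hx with h6 | h6 | h6
        · exact absurd hxA (hcA 0 (Nat.zero_le n) _ h6)
        · exact Or.inl ⟨s 0, ⟨hs00, hp1.le⟩, h6.symm⟩
        · exact Or.inr (mem_singleton_iff.1 h6)
      · intro x hx
        exact Or.inl ⟨p, hpI, (mem_singleton_iff.1 hx).symm⟩
      · intro x hx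
        rcases h5 hx with h6 | h6 | h6
        · exact Or.inr ⟨0, le_rfl, h6⟩
        · exact Or.inl ⟨s 0, hsI, h6.symm⟩
        · exact Or.inl ⟨u 0, huI, (mem_singleton_iff.1 h6).symm⟩
    | succ k ih =>
      intro hk
      obtain ⟨P, Q, p, hT, hp⟩ := ih (by omega)
      obtain ⟨h6, h7, h8⟩ := hst k (by omega)
      obtain ⟨h1, h2, h3, h4, h5⟩ := hJ (k + 1) hk
      have hT1 := hT.ext hf hi hfU (hp hk) h7
      have hT2 := hT1.join hi hfU h8 (hE (k + 1) hk).2.2.1 h1 h2 h3 h4 h5 (hcA (k + 1) hk)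
        (hcU (k + 1) hk) (by
          rintro x hx ⟨i, hik, hxi⟩
          exact disjoint_left.1 ((hE i (by omega)).disjoint (hE (k + 1) hk)
            (hne i (k + 1) (by omega) hk)) hxi hx)
      have hD : {x | ∃ i ≤ k, x ∈ c i} ∪ c (k + 1) = {x | ∃ i ≤ k + 1, x ∈ c i} := by
        ext x
        constructor
        · rintro (⟨i, hik, hx⟩ | hx)
          · exact ⟨i, by omega, hx⟩
          · exact ⟨k + 1, le_rfl, hx⟩
        · rintro ⟨i, hik, hx⟩
          rcases Nat.lt_or_ge i (k + 1) with h9 | h9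
          · exact Or.inl ⟨i, by omega, hx⟩
          · have : i = k + 1 := by omega
            subst this
            exact Or.inr hx
      rw [hD] at hT2
      exact ⟨_, _, _, hT2, fun h => hsep k (by omega)⟩
  obtain ⟨P, Q, p, hT, -⟩ := key n le_rfl
  have hQ : (Q ∩ f '' Icc (1 - η) 1).Nonempty := ⟨f (u n), hT.fw, u n, ⟨hun.le, hT.w1⟩, rfl⟩
  rcases le_or_gt (1 - η) p with h1 | h1
  · exact ⟨P, Q, hT.cP, hT.cQ, hT.pP, hT.pQ, hT.uP, hT.uQ, hT.dj, hT.mP, hT.mQ,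
      ⟨f p, hT.fp, p, ⟨h1, hT.pw.le.trans hT.w1⟩, rfl⟩, hQ⟩
  · have hT' := hT.ext hf hi hfU h1.le hun
    exact ⟨_, Q, hT'.cP, hT'.cQ, hT'.pP, hT'.pQ, hT'.uP, hT'.uQ, hT'.dj, hT'.mP, hT'.mQ,
      ⟨f (1 - η), hT'.fp, 1 - η, ⟨le_rfl, by linarith⟩, rfl⟩, hQ⟩

end Pool.Agent.HDC
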