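import Mathlib
import Pool.Agent.HDC.Basic
import Pool.Agent.HDC.FullStab
import Pool.Agent.HDC.TwoPaths
import Pool.Agent.Helper43.Gordh

/-!
# HDC module STEPA: the doubling step for arcs in a locally path connected space without local
cut points

(uses the stubs `full_stable`, `exists_two_paths`; `Pool.Agent.Helper43.exists_isArc`)

PROOF of `isArc_irr`. `A = f '' [0,1]`; a closed connected `K ⊆ A` containing `f 0` and `f 1`:
`f⁻¹ K ∩ [0,1]` is the image of `K` under the continuous inverse of `f` (compactness), hence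
connected, and contains 0 and 1, so it is `[0,1]`. (Or: if `f t ∉ K`, `0 < t < 1`, then
`K ⊆ f '' Icc 0 t ∪ f '' Icc t 1`, two closed sets whose intersection is `{f t}`.)

PROOF of `arc_step`. Let `f` parametrise `A`, `a = f 0`, `b = f 1`. By `isArc_irr`, `Irr.full` and
`full_stable` there is `ε₁ > 0` with
`Full ε A (cthickening ε₁ A) (cthickening ε₁ {a}) (cthickening ε₁ {b})`. Let `τ = min ε ε₁ / 2` and
let `U` be the connected component of `thickening τ A` containing `A`: open (locally connected;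
`LocallyPathConnectedSpace` gives `LocallyConnectedSpace`), connected, so all `U \ {y}`,
`y ∈ U`, are preconnected by `hcut`. Choose `0 < η < 1/2` with `f '' Icc 0 η ⊆ closedBall a ε₁`,
`f '' Icc (1-η) 1 ⊆ closedBall b ε₁` (continuity). `exists_two_paths` gives `P, Q`. Put
`Z = f '' Icc (1-η) 1`, `D₁ = D₂ = f '' Icc 0 η`. `M = P ∪ Z ∪ Q` is compact and path
connected (`Z` meets `P` and `Q`). Choose `x₁ ∈ P ∩ D₁`, `x₂ ∈ Q ∩ D₂`; `x₁ ≠ x₂`. Apply
`exists_isArc` to the subspace `M` (path connected, separable metric) and map the arc to `X` by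
`Subtype.val` (`IsArc.image`): an arc `A' ⊆ M` from `x₁` to `x₂`.
`Step ε A A A' A'`: `A' ⊆ P ∪ Z ∪ Q ⊆ U ∪ A ⊆ thickening ε A`; `Full` by `Full.mono`
(`P ⊆ U ⊆ cthickening ε₁ A`, `D₁ ⊆ closedBall a ε₁ ⊆ cthickening ε₁ {a}`, ...).
About 150 lines in total.
-/

set_option autoImplicit false

open Set Topology Filter Metric

namespace Pool.Agent.HDC

open Pool.Agent.Helper43 in
theorem isArc_irr {X : Type*} [MetricSpace X] {A : Set X} {a b : X} (hA : IsArc A a b) :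
    Irr A {a} {b} := by
  have hAc := hA.isClosed
  have hAp := hA.isPreconnected
  have haA := hA.left_mem
  have hbA := hA.right_mem
  refine ⟨⟨hAc, ⟨a, haA⟩, hAp⟩, ⟨a, haA, rfl⟩, ⟨b, hbA, rfl⟩, ?_⟩
  rintro K hK hKA ⟨_, haK, rfl⟩ ⟨_, hbK, rfl⟩
  obtain ⟨f, hc, hi, h0, h1, hA'⟩ := hA
  refine hKA.antisymm ?_
  rw [← hA']
  rintro _ ⟨t, ht, rfl⟩
  by_contra htK
  have hs1 : Icc 0 t ⊆ Icc (0 : ℝ) 1 := Icc_subset_Icc le_rfl ht.2
  have hs2 : Icc t 1 ⊆ Icc (0 : ℝ) 1 := Icc_subset_Icc ht.1 le_rfl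
  have hcl1 : IsClosed (f '' Icc 0 t) :=
    (isCompact_Icc.image_of_continuousOn (hc.mono hs1)).isClosed
  have hcl2 : IsClosed (f '' Icc t 1) :=
    (isCompact_Icc.image_of_continuousOn (hc.mono hs2)).isClosed
  obtain ⟨y, hyK, ⟨s, hs, hsy⟩, ⟨s', hs', hsy'⟩⟩ :=
    isPreconnected_closed_iff.1 hK.2.isPreconnected (f '' Icc 0 t) (f '' Icc t 1) hcl1 hcl2 (by
      intro y hy
      have := hKA hy
      rw [← hA'] at this
      obtain ⟨s, hs, rfl⟩ := this
      rcases le_total s t with h | h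
      · exact Or.inl ⟨s, ⟨hs.1, h⟩, rfl⟩
      · exact Or.inr ⟨s, ⟨h, hs.2⟩, rfl⟩)
      ⟨f 0, by rw [h0]; exact haK, 0, ⟨le_rfl, ht.1⟩, rfl⟩
      ⟨f 1, by rw [h1]; exact hbK, 1, ⟨ht.2, le_rfl⟩, rfl⟩
  have he : s = s' := hi (hs1 hs) (hs2 hs') (hsy.trans hsy'.symm)
  have : s = t := le_antisymm hs.2 (by rw [he]; exact hs'.1)
  rw [this] at hsy
  exact htK (by rw [hsy]; exact hyK)

open Pool.Agent.Helper43 in
theorem arc_step {X : Type*} [MetricSpace X] [CompactSpace X] [LocallyPathConnectedSpace X]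
    (hcut : ∀ U : Set X, IsOpen U → IsConnected U → ∀ y ∈ U, IsPreconnected (U \ {y}))
    {A : Set X} {a b : X} (hA : IsArc A a b) {ε : ℝ} (hε : 0 < ε) :
    ∃ (A' : Set X) (a' b' : X), IsArc A' a' b' ∧ Step ε A A A' A' := by
  have hfull : Full (ε / 2) A A {a} {b} := (isArc_irr hA).full (by linarith)
  obtain ⟨ε₁, hε₁, hF⟩ := full_stable hA.isClosed isClosed_singleton isClosed_singleton
    (half_pos hε) (half_lt_self hε) hfull
  have hAp := hA.isPreconnected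
  have haA := hA.left_mem
  obtain ⟨f, hc, hi, h0, h1, hA'⟩ := hA
  set τ : ℝ := min ε ε₁ / 2 with hτ
  have hm : 0 < min ε ε₁ := lt_min hε hε₁
  have hτ0 : 0 < τ := by rw [hτ]; linarith
  have hτε : τ ≤ ε := by
    have := min_le_left ε ε₁
    rw [hτ]
    linarith
  have hτε₁ : τ ≤ ε₁ := by
    have := min_le_right ε ε₁
    rw [hτ]
    linarith
  have hAT : A ⊆ thickening τ A := self_subset_thickening hτ0 A
  set U : Set X := connectedComponentIn (thickening τ A) a with hU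
  have hUo : IsOpen U := isOpen_thickening.connectedComponentIn
  have hAU : A ⊆ U := hAp.subset_connectedComponentIn haA hAT
  have hUT : U ⊆ thickening τ A := connectedComponentIn_subset _ _
  have hUc : IsConnected U := isConnected_connectedComponentIn_iff.2 (hAT haA)
  have i0 : (0 : ℝ) ∈ Icc (0 : ℝ) 1 := by simp
  have i1 : (1 : ℝ) ∈ Icc (0 : ℝ) 1 := by simp
  obtain ⟨δ₀, hδ₀, hd0⟩ := Metric.continuousWithinAt_iff.1 (hc 0 i0) ε₁ hε₁
  obtain ⟨δ₁, hδ₁, hd1⟩ := Metric.continuousWithinAt_iff.1 (hc 1 i1) ε₁ hε₁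
  set η : ℝ := min (min (δ₀ / 2) (δ₁ / 2)) (1 / 4) with hη
  have hη0 : 0 < η := lt_min (lt_min (half_pos hδ₀) (half_pos hδ₁)) (by norm_num)
  have hη1 : η ≤ δ₀ / 2 := (min_le_left _ _).trans (min_le_left _ _)
  have hη2 : η ≤ δ₁ / 2 := (min_le_left _ _).trans (min_le_right _ _)
  have hη3 : η ≤ 1 / 4 := min_le_right _ _
  have hs1 : Icc 0 η ⊆ Icc (0 : ℝ) 1 := Icc_subset_Icc le_rfl (by linarith)
  have hs2 : Icc (1 - η) 1 ⊆ Icc (0 : ℝ) 1 := Icc_subset_Icc (by linarith) le_rfl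
  obtain ⟨P, Q, hPc, hQc, hPp, hQp, hPU, hQU, hPQ, hPD, hQD, hPZ, hQZ⟩ :=
    exists_two_paths hUo (hcut U hUo hUc) hc hi
      (fun t ht => hAU (hA' ▸ mem_image_of_mem f ht)) hη0 (by linarith)
  set D : Set X := f '' Icc 0 η with hD
  set Z : Set X := f '' Icc (1 - η) 1 with hZ
  have hDc : IsClosed D := (isCompact_Icc.image_of_continuousOn (hc.mono hs1)).isClosed
  have hZc : IsClosed Z := (isCompact_Icc.image_of_continuousOn (hc.mono hs2)).isClosed
  have hZp : IsPathConnected Z := by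
    refine IsPathConnected.image' ?_ (hc.mono hs2)
    exact (convex_Icc (1 - η) 1).isPathConnected ⟨1, by linarith, le_rfl⟩
  have hDa : D ⊆ cthickening ε₁ {a} := by
    rw [cthickening_singleton a hε₁.le]
    rintro _ ⟨t, ht, rfl⟩
    rw [mem_closedBall, ← h0]
    refine (hd0 (hs1 ht) ?_).le
    rw [Real.dist_eq, sub_zero, abs_of_nonneg ht.1]
    linarith [ht.2]
  have hZb : Z ⊆ cthickening ε₁ {b} := by
    rw [cthickening_singleton b hε₁.le]
    rintro _ ⟨t, ht, rfl⟩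
    rw [mem_closedBall, ← h1]
    refine (hd1 (hs2 ht) ?_).le
    rw [Real.dist_eq, abs_sub_comm, abs_of_nonneg (by linarith [ht.2])]
    linarith [ht.1]
  have hZA : Z ⊆ A := by
    rw [← hA']
    exact image_mono hs2
  have hM1 : IsPathConnected (P ∪ Z) := hPp.union hZp hPZ
  have hM : IsPathConnected (P ∪ Z ∪ Q) := by
    refine hM1.union hQp ?_
    obtain ⟨y, hy1, hy2⟩ := hQZ
    exact ⟨y, Or.inr hy2, hy1⟩
  obtain ⟨x₁, hx₁P, hx₁D⟩ := hPD
  obtain ⟨x₂, hx₂Q, hx₂D⟩ := hQD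
  have hne : x₁ ≠ x₂ := by
    rintro rfl
    exact Set.disjoint_left.1 hPQ hx₁P hx₂Q
  have : PathConnectedSpace (P ∪ Z ∪ Q : Set X) := isPathConnected_iff_pathConnectedSpace.1 hM
  obtain ⟨A₀, hA₀⟩ := exists_isArc (X := (P ∪ Z ∪ Q : Set X))
    (a := ⟨x₁, Or.inl (Or.inl hx₁P)⟩) (b := ⟨x₂, Or.inr hx₂Q⟩)
    (fun h => hne (congrArg Subtype.val h))
  have hA₁ : IsArc (Subtype.val '' A₀) x₁ x₂ := by
    obtain ⟨g, gc, gi, g0, g1, gA⟩ := hA₀
    refine ⟨Subtype.val ∘ g, continuous_subtype_val.comp_continuousOn gc,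
      Subtype.val_injective.comp_injOn gi, ?_, ?_, ?_⟩
    · rw [Function.comp_apply, g0]
    · rw [Function.comp_apply, g1]
    · rw [image_comp, gA]
  have hsub : Subtype.val '' A₀ ⊆ P ∪ Z ∪ Q := by
    rintro _ ⟨y, -, rfl⟩
    exact y.2
  have hPA : P ⊆ cthickening ε₁ A :=
    hPU.trans (hUT.trans ((thickening_subset_cthickening _ _).trans (cthickening_mono hτε₁ A)))
  have hQA : Q ⊆ cthickening ε₁ A :=
    hQU.trans (hUT.trans ((thickening_subset_cthickening _ _).trans (cthickening_mono hτε₁ A)))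
  refine ⟨Subtype.val '' A₀, x₁, x₂, hA₁, P, Q, Z, D, D, hPc.isClosed, hQc.isClosed, hZc, hDc, hDc,
    hsub, ?_, hPQ, ⟨x₁, hA₁.left_mem, hx₁P, hx₁D⟩, ⟨x₂, hA₁.right_mem, hx₂Q, hx₂D⟩,
    hF.mono le_rfl hPA hDa hZb, hF.mono le_rfl hQA hDa hZb⟩
  intro y hy
  rcases hsub hy with (h | h) | h
  · exact thickening_mono hτε A (hUT (hPU h))
  · exact self_subset_thickening hε A (hZA h)
  · exact thickening_mono hτε A (hUT (hQU h))

end Pool.Agent.HDC
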