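import Mathlib

/-!
# HDC module NOSTAR: nearly open maps from complete metric spaces meet (Mathlib only)

PROOF (alternate shrinking). Write `cl`, `int` for closure and interior. Starting from
`U₀ = U`, `U₀' = U'` construct open sets `U_n ⊆ P`, `U_n' ⊆ P'` with
`O_n := int cl e(U_n) ∩ int cl e'(U_n')` nonempty and, for `n ≥ 1`,
`cl U_{n+1} ⊆ U_n`, `cl U'_{n+1} ⊆ U'_n`, all of `U_n`, `U_n'`, `e(U_n)`, `e'(U_n')` of diameter
`≤ 1/n` (say contained in closed balls of radius `1/n`).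
Step: `O_n` is open, nonempty and contained in `cl e(U_n)`, so there is `p ∈ U_n` with `e p ∈ O_n`.
By continuity a small ball `V` around `p` has `cl V ⊆ U_n`, small diameter, `e(V)` of small diameter
and `e(V) ⊆ O_n`. By `hb`, `int cl e(V)` is nonempty; it is an open subset of `cl O_n`, so it meets
the open set `O_n`: `G := int cl e(V) ∩ O_n` is open, nonempty and contained in `cl e'(U_n')`. Choose
`p' ∈ U_n'` with `e' p' ∈ G` and a small ball `V'` around `p'` with `cl V' ⊆ U_n'`, `e'(V') ⊆ G`,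
small diameters. By `hb'`, `int cl e'(V')` is nonempty, open and contained in `cl G`, so it meets
`G ⊆ int cl e(V)`. Put `U_{n+1} = V`, `U'_{n+1} = V'`.
By completeness (`P`, `P'`) there are `p ∈ ⋂ cl U_n`, `p' ∈ ⋂ cl U_n'` (centres form Cauchy
sequences). For every `n` the sets `cl e(U_n)` and `cl e'(U_n')` have a common point, both have
diameter `≤ 2/n`, `e p ∈ cl e(U_n)` (as `p ∈ cl U_n`) and `e' p' ∈ cl e'(U_n')`;
so `dist (e p) (e' p') ≤ 4/n`. Hence `e p = e' p'`. About 120 lines.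
-/

set_option autoImplicit false

open Set Topology Filter Metric

namespace Pool.Agent.HDC

/-- the pairs of open sets of the construction -/
private def NsSt {P P' X : Type*} [TopologicalSpace P] [TopologicalSpace P']
    [TopologicalSpace X] (e : P → X) (e' : P' → X) (V : Set P × Set P') : Prop :=
  IsOpen V.1 ∧ IsOpen V.2 ∧
    (interior (closure (e '' V.1)) ∩ interior (closure (e' '' V.2))).Nonempty

private theorem ns_pick {P X : Type*} [TopologicalSpace P] [TopologicalSpace X] {e : P → X}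
    {U : Set P} {O : Set X} (hO : IsOpen O) (hne : O.Nonempty) (hsub : O ⊆ closure (e '' U)) :
    ∃ p ∈ U, e p ∈ O := by
  obtain ⟨o, ho⟩ := hne
  obtain ⟨_, hx, p, hp, rfl⟩ := mem_closure_iff.mp (hsub ho) O hO ho
  exact ⟨p, hp, hx⟩

private theorem ns_ball {P X : Type*} [MetricSpace P] [TopologicalSpace X] {e : P → X}
    (he : Continuous e) {U : Set P} (hU : IsOpen U) {O : Set X} (hO : IsOpen O) {p : P}
    (hp : p ∈ U) (hpO : e p ∈ O) {ε : ℝ} (hε : 0 < ε) :
    ∃ V : Set P, IsOpen V ∧ p ∈ V ∧ closure V ⊆ U ∧ V ⊆ ball p ε ∧ e '' V ⊆ O := by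
  have h1 : U ∩ e ⁻¹' O ∈ 𝓝 p := (hU.inter (hO.preimage he)).mem_nhds ⟨hp, hpO⟩
  obtain ⟨r, hr, hsub⟩ := nhds_basis_closedBall.mem_iff.mp h1
  refine ⟨ball p (min r ε), isOpen_ball, mem_ball_self (lt_min hr hε), ?_, ?_, ?_⟩
  · exact closure_ball_subset_closedBall.trans ((closedBall_subset_closedBall
      (min_le_left _ _)).trans (hsub.trans inter_subset_left))
  · exact ball_subset_ball (min_le_right _ _)
  · rintro _ ⟨q, hq, rfl⟩
    exact (hsub (closedBall_subset_closedBall (min_le_left _ _) (ball_subset_closedBall hq))).2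

private theorem ns_step {P P' X : Type*} [MetricSpace P] [MetricSpace P'] [MetricSpace X]
    {e : P → X} {e' : P' → X} (he : Continuous e) (he' : Continuous e')
    (hb : ∀ U : Set P, IsOpen U → U.Nonempty → (interior (closure (e '' U))).Nonempty)
    (hb' : ∀ U : Set P', IsOpen U → U.Nonempty → (interior (closure (e' '' U))).Nonempty)
    (V : Set P × Set P') (hV : NsSt e e' V) {ε : ℝ} (hε : 0 < ε) :
    ∃ W : Set P × Set P', NsSt e e' W ∧ W.1 ⊆ V.1 ∧ W.2 ⊆ V.2 ∧
      (∃ p, W.1 ⊆ ball p ε) ∧ ∃ p', W.2 ⊆ ball p' ε := by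
  obtain ⟨hV1, hV2, hne⟩ := hV
  set O := interior (closure (e '' V.1)) ∩ interior (closure (e' '' V.2)) with hO
  have hOo : IsOpen O := isOpen_interior.inter isOpen_interior
  obtain ⟨p, hp, hpO⟩ := ns_pick hOo hne (inter_subset_left.trans interior_subset)
  obtain ⟨W, hW, hpW, hWV, hWb, hWO⟩ := ns_ball he hV1 hOo hp hpO hε
  have hG0 : (interior (closure (e '' W)) ∩ O).Nonempty := by
    obtain ⟨w, hw, hwi⟩ := ns_pick isOpen_interior (hb W hW ⟨p, hpW⟩) interior_subset
    exact ⟨e w, hwi, hWO ⟨w, hw, rfl⟩⟩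
  have hGo : IsOpen (interior (closure (e '' W)) ∩ O) := isOpen_interior.inter hOo
  obtain ⟨p', hp', hpG⟩ := ns_pick (e := e') (U := V.2) hGo hG0
    (inter_subset_right.trans (inter_subset_right.trans interior_subset))
  obtain ⟨W', hW', hpW', hWV', hWb', hWO'⟩ := ns_ball he' hV2 hGo hp' hpG hε
  refine ⟨(W, W'), ⟨hW, hW', ?_⟩, subset_closure.trans hWV, subset_closure.trans hWV',
    ⟨p, hWb⟩, ⟨p', hWb'⟩⟩
  obtain ⟨w, hw, hwi⟩ := ns_pick isOpen_interior (hb' W' hW' ⟨p', hpW'⟩) interior_subset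
  exact ⟨e' w, (hWO' ⟨w, hw, rfl⟩).1, hwi⟩

theorem nostar {P P' X : Type*} [MetricSpace P] [CompleteSpace P] [MetricSpace P']
    [CompleteSpace P'] [MetricSpace X] {e : P → X} {e' : P' → X} (he : Continuous e)
    (he' : Continuous e')
    (hb : ∀ U : Set P, IsOpen U → U.Nonempty → (interior (closure (e '' U))).Nonempty)
    (hb' : ∀ U : Set P', IsOpen U → U.Nonempty → (interior (closure (e' '' U))).Nonempty)
    {U : Set P} {U' : Set P'} (hU : IsOpen U) (hU' : IsOpen U')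
    (hO : (interior (closure (e '' U)) ∩ interior (closure (e' '' U'))).Nonempty) :
    ∃ p ∈ closure U, ∃ p' ∈ closure U', e p = e' p' := by
  have hstep : ∀ (n : ℕ) (V : {V : Set P × Set P' // NsSt e e' V}),
      ∃ W : {V : Set P × Set P' // NsSt e e' V}, W.1.1 ⊆ V.1.1 ∧ W.1.2 ⊆ V.1.2 ∧
        (∃ p, W.1.1 ⊆ ball p (1 / ((n : ℝ) + 1))) ∧
        ∃ p', W.1.2 ⊆ ball p' (1 / ((n : ℝ) + 1)) := by
    intro n V
    obtain ⟨W, hW, h1, h2, h3, h4⟩ := ns_step he he' hb hb' V.1 V.2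
      (ε := 1 / ((n : ℝ) + 1)) Nat.one_div_pos_of_nat
    exact ⟨⟨W, hW⟩, h1, h2, h3, h4⟩
  choose F hF1 hF2 hF3 hF4 using hstep
  let S : ℕ → {V : Set P × Set P' // NsSt e e' V} := fun n =>
    Nat.rec ⟨(U, U'), hU, hU', hO⟩ (fun k V => F k V) n
  have hS : ∀ n, S (n + 1) = F n (S n) := fun n => rfl
  have hm1 : ∀ m n, n ≤ m → (S m).1.1 ⊆ (S n).1.1 := by
    intro m n hnm
    induction m, hnm using Nat.le_induction with
    | base => exact Subset.rfl
    | succ m _ ih => rw [hS]; exact (hF1 m (S m)).trans ih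
  have hm2 : ∀ m n, n ≤ m → (S m).1.2 ⊆ (S n).1.2 := by
    intro m n hnm
    induction m, hnm using Nat.le_induction with
    | base => exact Subset.rfl
    | succ m _ ih => rw [hS]; exact (hF2 m (S m)).trans ih
  have hpts : ∀ n, ∃ a ∈ (S (n + 1)).1.1, ∃ b ∈ (S (n + 1)).1.2,
      dist (e a) (e' b) < 1 / ((n : ℝ) + 1) := by
    intro n
    obtain ⟨h1, h2, h3⟩ := (S (n + 1)).2
    obtain ⟨a, ha, hao⟩ := ns_pick (isOpen_interior.inter isOpen_interior) h3
      (inter_subset_left.trans interior_subset)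
    have h4 : e a ∈ closure (e' '' (S (n + 1)).1.2) := interior_subset hao.2
    obtain ⟨_, ⟨b, hb1, rfl⟩, hdist⟩ := Metric.mem_closure_iff.mp h4 (1 / ((n : ℝ) + 1))
      Nat.one_div_pos_of_nat
    exact ⟨a, ha, b, hb1, hdist⟩
  choose a ha b hb1 hdist using hpts
  have hlim2 : Tendsto (fun n : ℕ => 2 * (1 / ((n : ℝ) + 1))) atTop (𝓝 0) := by
    have := (tendsto_one_div_add_atTop_nhds_zero_nat (𝕜 := ℝ)).const_mul 2
    rwa [mul_zero] at this
  have hca : CauchySeq a := by
    refine cauchySeq_of_le_tendsto_0 (fun n : ℕ => 2 * (1 / ((n : ℝ) + 1))) ?_ hlim2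
    intro n m N hn hm
    obtain ⟨c, hc⟩ := hF3 N (S N)
    have h1 := hc (hm1 (n + 1) (N + 1) (by omega) (ha n))
    have h2 := hc (hm1 (m + 1) (N + 1) (by omega) (ha m))
    rw [mem_ball] at h1 h2
    calc dist (a n) (a m) ≤ dist (a n) c + dist (a m) c := dist_triangle_right _ _ _
      _ ≤ 2 * (1 / ((N : ℝ) + 1)) := by linarith
  have hcb : CauchySeq b := by
    refine cauchySeq_of_le_tendsto_0 (fun n : ℕ => 2 * (1 / ((n : ℝ) + 1))) ?_ hlim2
    intro n m N hn hm
    obtain ⟨c, hc⟩ := hF4 N (S N)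
    have h1 := hc (hm2 (n + 1) (N + 1) (by omega) (hb1 n))
    have h2 := hc (hm2 (m + 1) (N + 1) (by omega) (hb1 m))
    rw [mem_ball] at h1 h2
    calc dist (b n) (b m) ≤ dist (b n) c + dist (b m) c := dist_triangle_right _ _ _
      _ ≤ 2 * (1 / ((N : ℝ) + 1)) := by linarith
  obtain ⟨p, hp⟩ := cauchySeq_tendsto_of_complete hca
  obtain ⟨p', hp'⟩ := cauchySeq_tendsto_of_complete hcb
  refine ⟨p, mem_closure_of_tendsto hp (Eventually.of_forall fun n => ?_), p',
    mem_closure_of_tendsto hp' (Eventually.of_forall fun n => ?_), ?_⟩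
  · exact hm1 (n + 1) 0 (by omega) (ha n)
  · exact hm2 (n + 1) 0 (by omega) (hb1 n)
  · have h1 : Tendsto (fun n => dist (e (a n)) (e' (b n))) atTop (𝓝 (dist (e p) (e' p'))) :=
      ((he.tendsto p).comp hp).dist ((he'.tendsto p').comp hp')
    have h2 : Tendsto (fun n => dist (e (a n)) (e' (b n))) atTop (𝓝 0) :=
      squeeze_zero (fun n => dist_nonneg) (fun n => (hdist n).le)
        tendsto_one_div_add_atTop_nhds_zero_nat
    exact dist_eq_zero.mp (tendsto_nhds_unique h1 h2)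

end Pool.Agent.HDC
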