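import Mathlib
import Pool.Agent.HDC.Basic
import Pool.Agent.HDC.NOStar

/-!
# HDC module EFFROS: Effros's theorem for compact homogeneous metric spaces

PROOF. Let `G` be the subset `{(f,g) | f ∘ g = id, g ∘ f = id}` of `C(X,X) × C(X,X)`: it is closed,
hence a complete metric space, and second countable (Mathlib has `SecondCountableTopology C(X,Y)`,
completeness of `C(X,X)` for compact `X`). An element `p = (f,g)` of `G` is a homeomorphism `p` of
`X` with inverse `g`; `dist p q` is the maximum of the two sup-distances. Every homeomorphism of `X`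
gives an element of `G`, and for a homeomorphism `k` the map `L_k : p ↦ k ∘ p`,
i.e. `(f,g) ↦ (k ∘ f, g ∘ k⁻¹)`, is a homeomorphism of `G`
(continuous with inverse `L_{k⁻¹}`). For `x : X` let `e_x : G → X`, `e_x p = p x` (continuous).

(1) For every nonempty open `U ⊆ G`, `int cl e_x(U)` is nonempty: choose `u ∈ U`. The open sets
`L_{q u⁻¹} U`, `q ∈ G`, cover `G`; by Lindelöf countably many `L_{k_n} U` cover `G`. By homogeneity
`X = e_x(G) = ⋃ k_n (e_x U)`, so by Baire (`nonempty_interior_of_iUnion_of_closed`) some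
`closure (k_n '' (e_x U)) = k_n '' closure (e_x U)` has nonempty interior, hence so has
`closure (e_x U)`.

(2) Let `U = {p ∈ G | dist p id < ε/64}` and `U' = {p ∈ G | dist p id < ε/16}` (open).
For every `x` the point `x` lies in `O_x := int cl (e_x U')`: by (1) `int cl (e_x U)` is nonempty
and it meets `e_x U` : there is `u ∈ U` with `u x ∈ int cl (e_x U)`. Then
`x ∈ u⁻¹ (int cl (e_x U)) = int cl ((u⁻¹ U) x)` and `u⁻¹ U ⊆ U'` because
`sup d(u⁻¹ v x, x) ≤ ε/32` and the same for the inverses.

(3) For `y ∈ O_x` the set `O_x ∩ O_y` contains `y`, and `nostar` for `e_x`, `e_y`, `U'`, `U'` gives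
`p, p' ∈ closure U'` with `p x = p' y`, so `y = h x` where `h = p'⁻¹ p` moves points by at most
`ε/16 + ε/16`; hence for all `y, z ∈ O_x` we get `h` with `h y = z`, moving points by `≤ ε/4 < ε`.

(4) `{O_x}` is an open cover of the compact space `X`; let `δ` be a Lebesgue number.
About 200 lines. If `X` is empty the statement is trivial.
-/

set_option autoImplicit false

open Set Topology Filter Metric

namespace Pool.Agent.HDC

/-- the homeomorphisms of `X`, as a closed subspace of a space of pairs of maps -/
private abbrev EfG (X : Type*) [MetricSpace X] [CompactSpace X] : Type _ :=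
  {p : C(X, X) × C(X, X) // (∀ x, p.1 (p.2 x) = x) ∧ ∀ x, p.2 (p.1 x) = x}

section

variable {X : Type*} [MetricSpace X] [CompactSpace X]

private theorem ef_closed : IsClosed {p : C(X, X) × C(X, X) | (∀ x, p.1 (p.2 x) = x) ∧
    ∀ x, p.2 (p.1 x) = x} := by
  have h1 : {p : C(X, X) × C(X, X) | (∀ x, p.1 (p.2 x) = x) ∧ ∀ x, p.2 (p.1 x) = x} =
      (⋂ x, {p : C(X, X) × C(X, X) | p.1 (p.2 x) = x}) ∩
      ⋂ x, {p : C(X, X) × C(X, X) | p.2 (p.1 x) = x} := by
    ext p
    simp only [mem_inter_iff, mem_iInter]
    exact Iff.rfl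
  rw [h1]
  refine IsClosed.inter (isClosed_iInter fun x => isClosed_eq ?_ continuous_const)
    (isClosed_iInter fun x => isClosed_eq ?_ continuous_const)
  · exact continuous_fst.eval (continuous_snd.eval continuous_const)
  · exact continuous_snd.eval (continuous_fst.eval continuous_const)

private theorem ef_complete : CompleteSpace (EfG X) := ef_closed.completeSpace_coe

private theorem ef_second : SecondCountableTopology (EfG X) := inferInstance

/-- the homeomorphism given by an element -/
private def efH (p : EfG X) : X ≃ₜ X where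
  toFun := p.1.1
  invFun := p.1.2
  left_inv := p.2.2
  right_inv := p.2.1
  continuous_toFun := p.1.1.continuous
  continuous_invFun := p.1.2.continuous

/-- the element given by a homeomorphism -/
private def efO (h : X ≃ₜ X) : EfG X :=
  ⟨(⟨h, h.continuous⟩, ⟨h.symm, h.symm.continuous⟩), h.apply_symm_apply, h.symm_apply_apply⟩

/-- left multiplication by a homeomorphism -/
private def efL (k : X ≃ₜ X) (p : EfG X) : EfG X := efO ((efH p).trans k)

private theorem efL_cont (k : X ≃ₜ X) : Continuous (efL k : EfG X → EfG X) := by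
  refine Continuous.subtype_mk ?_ _
  refine Continuous.prodMk ?_ ?_
  · exact (ContinuousMap.continuous_postcomp (⟨k, k.continuous⟩ : C(X, X))).comp
      (continuous_fst.comp continuous_subtype_val)
  · exact (ContinuousMap.continuous_precomp (⟨k.symm, k.symm.continuous⟩ : C(X, X))).comp
      (continuous_snd.comp continuous_subtype_val)

private theorem ef_ext {p q : EfG X} (h1 : ∀ x, efH p x = efH q x)
    (h2 : ∀ x, (efH p).symm x = (efH q).symm x) : p = q := by
  apply Subtype.ext
  apply Prod.ext
  · exact ContinuousMap.ext h1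
  · exact ContinuousMap.ext h2

private theorem efL_apply (k : X ≃ₜ X) (p : EfG X) (x : X) : efH (efL k p) x = k (efH p x) := rfl

private theorem efL_symm_apply (k : X ≃ₜ X) (p : EfG X) (x : X) :
    (efH (efL k p)).symm x = (efH p).symm (k.symm x) := rfl

private theorem efL_symm_efL (k : X ≃ₜ X) (p : EfG X) : efL k.symm (efL k p) = p := by
  apply ef_ext
  · intro x
    rw [efL_apply, efL_apply, k.symm_apply_apply]
  · intro x
    rw [efL_symm_apply, efL_symm_apply, k.symm_symm, k.symm_apply_apply]

private theorem efL_efL_symm (k : X ≃ₜ X) (p : EfG X) : efL k (efL k.symm p) = p := by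
  apply ef_ext
  · intro x
    rw [efL_apply, efL_apply, k.apply_symm_apply]
  · intro x
    rw [efL_symm_apply, efL_symm_apply, k.symm_symm, k.apply_symm_apply]

private theorem ef_eval_cont (x : X) : Continuous fun p : EfG X => efH p x :=
  ((continuous_fst.comp continuous_subtype_val).eval continuous_const)

/-- step (1) -/
private theorem ef_one (hom : Hom X) (x : X) (U : Set (EfG X)) (hU : IsOpen U)
    (hne : U.Nonempty) :
    (interior (closure ((fun p : EfG X => efH p x) '' U))).Nonempty := by
  obtain ⟨u, hu⟩ := hne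
  let k : EfG X → (X ≃ₜ X) := fun q => (efH u).symm.trans (efH q)
  have hk : ∀ q, efL (k q) u = q := by
    intro q
    apply ef_ext
    · intro z
      rw [efL_apply]
      change efH q ((efH u).symm (efH u z)) = efH q z
      rw [(efH u).symm_apply_apply]
    · intro z
      rw [efL_symm_apply]
      change (efH u).symm ((efH u) ((efH q).symm z)) = (efH q).symm z
      rw [(efH u).symm_apply_apply]
  have hopen : ∀ q, IsOpen (efL (k q).symm ⁻¹' U) := fun q => hU.preimage (efL_cont _)
  obtain ⟨T, hT, hTU⟩ := TopologicalSpace.isOpen_iUnion_countable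
    (fun q : EfG X => efL (k q).symm ⁻¹' U) hopen
  have hcov : (⋃ q : EfG X, efL (k q).symm ⁻¹' U) = univ := by
    rw [eq_univ_iff_forall]
    intro q
    refine mem_iUnion.mpr ⟨q, ?_⟩
    change efL (k q).symm q ∈ U
    have h1 := efL_symm_efL (k q) u
    rw [hk q] at h1
    rw [h1]
    exact hu
  have : Nonempty X := ⟨x⟩
  set A : Set X := (fun p : EfG X => efH p x) '' U with hA
  have hX : (⋃ q ∈ T, closure (k q '' A)) = univ := by
    rw [eq_univ_iff_forall]
    intro y
    obtain ⟨h, hh⟩ := hom x y
    have h1 : efO h ∈ ⋃ q ∈ T, efL (k q).symm ⁻¹' U := by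
      rw [hTU, hcov]
      exact mem_univ _
    obtain ⟨q, hq⟩ := mem_iUnion.mp h1
    obtain ⟨hqT, hq⟩ := mem_iUnion.mp hq
    refine mem_iUnion.mpr ⟨q, mem_iUnion.mpr ⟨hqT, subset_closure ?_⟩⟩
    refine ⟨efH (efL (k q).symm (efO h)) x, ⟨_, hq, rfl⟩, ?_⟩
    rw [efL_apply, (k q).apply_symm_apply]
    exact hh
  have : Countable T := hT.to_subtype
  have hX' : (⋃ q : T, closure (k q '' A)) = univ := by
    rw [← hX, biUnion_eq_iUnion]
  obtain ⟨q, hint⟩ := nonempty_interior_of_iUnion_of_closed (fun q : T => isClosed_closure) hX'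
  rw [← (k q).image_closure, ← (k q).image_interior] at hint
  exact image_nonempty.mp hint

private theorem ef_near {p : EfG X} {c : ℝ} (hp : p ∈ closedBall (efO (Homeomorph.refl X)) c)
    (x : X) : dist (efH p x) x ≤ c ∧ dist ((efH p).symm x) x ≤ c := by
  have h1 : dist p.1 (efO (Homeomorph.refl X)).1 ≤ c := hp
  rw [Prod.dist_eq, max_le_iff] at h1
  exact ⟨(ContinuousMap.dist_apply_le_dist x).trans h1.1,
    (ContinuousMap.dist_apply_le_dist x).trans h1.2⟩

private theorem ef_mem_ball {p : EfG X} {c : ℝ} (hc : 0 < c)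
    (h : ∀ x, dist (efH p x) x < c ∧ dist ((efH p).symm x) x < c) :
    p ∈ ball (efO (Homeomorph.refl X)) c := by
  change dist p.1 (efO (Homeomorph.refl X)).1 < c
  rw [Prod.dist_eq, max_lt_iff]
  exact ⟨(ContinuousMap.dist_lt_iff hc).mpr fun x => (h x).1,
    (ContinuousMap.dist_lt_iff hc).mpr fun x => (h x).2⟩

/-- step (2) -/
private theorem ef_two (hom : Hom X) (x : X) {c : ℝ} (hc : 0 < c) :
    x ∈ interior (closure ((fun p : EfG X => efH p x) ''
      ball (efO (Homeomorph.refl X)) (2 * c))) := by
  set id' := efO (Homeomorph.refl X) with hid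
  obtain ⟨y, hy⟩ := ef_one hom x (ball id' c) isOpen_ball ⟨id', mem_ball_self hc⟩
  obtain ⟨_, hy1, u, hu, rfl⟩ := mem_closure_iff.mp (interior_subset hy) _ isOpen_interior hy
  set A : Set X := (fun p : EfG X => efH p x) '' ball id' c with hA
  have h1 : (efH u).symm '' interior (closure A) ⊆ closure ((fun p : EfG X => efH p x) ''
      ball id' (2 * c)) := by
    refine (image_mono interior_subset).trans ?_
    rw [(efH u).symm.image_closure]
    apply closure_mono
    rintro _ ⟨_, ⟨v, hv, rfl⟩, rfl⟩
    refine ⟨efL (efH u).symm v, ?_, rfl⟩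
    apply ef_mem_ball (by linarith)
    intro z
    have hu' := mem_ball.mp hu
    have hv' := mem_ball.mp hv
    have hun : ∀ w, dist (efH u w) w < c ∧ dist ((efH u).symm w) w < c := by
      intro w
      have h2 : dist u.1 id'.1 < c := hu'
      rw [Prod.dist_eq, max_lt_iff] at h2
      exact ⟨(ContinuousMap.dist_apply_le_dist w).trans_lt h2.1,
        (ContinuousMap.dist_apply_le_dist w).trans_lt h2.2⟩
    have hvn : ∀ w, dist (efH v w) w < c ∧ dist ((efH v).symm w) w < c := by
      intro w
      have h2 : dist v.1 id'.1 < c := hv'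
      rw [Prod.dist_eq, max_lt_iff] at h2
      exact ⟨(ContinuousMap.dist_apply_le_dist w).trans_lt h2.1,
        (ContinuousMap.dist_apply_le_dist w).trans_lt h2.2⟩
    constructor
    · rw [efL_apply]
      have h3 := (hun (efH v z)).2
      have h4 := (hvn z).1
      calc dist ((efH u).symm (efH v z)) z
          ≤ dist ((efH u).symm (efH v z)) (efH v z) + dist (efH v z) z := dist_triangle _ _ _
        _ < 2 * c := by linarith
    · rw [efL_symm_apply, Homeomorph.symm_symm]
      have h3 := (hun z).1
      have h4 := (hvn (efH u z)).2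
      calc dist ((efH v).symm (efH u z)) z
          ≤ dist ((efH v).symm (efH u z)) (efH u z) + dist (efH u z) z := dist_triangle _ _ _
        _ < 2 * c := by linarith
  refine interior_maximal h1 ((efH u).symm.isOpenMap _ isOpen_interior) ?_
  exact ⟨efH u x, hy1, (efH u).symm_apply_apply x⟩

end

theorem effros {X : Type*} [MetricSpace X] [CompactSpace X] (hom : Hom X) {ε : ℝ} (hε : 0 < ε) :
    ∃ δ > 0, ∀ x y : X, dist x y < δ → ∃ h : X ≃ₜ X, Sm h ε ∧ h x = y := by
  set c := ε / 16 with hc
  have hc0 : 0 < c := by positivity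
  set id' := efO (Homeomorph.refl X) with hid
  set O : X → Set X := fun x => interior (closure ((fun p : EfG X => efH p x) ''
      ball id' (2 * c))) with hO
  have : CompleteSpace (EfG X) := ef_complete
  have hthree : ∀ x, ∀ y ∈ O x, ∃ h : X ≃ₜ X, (∀ z, dist (h z) z ≤ 4 * c) ∧ h x = y := by
    intro x y hy
    obtain ⟨p, hp, p', hp', hpp⟩ := nostar (ef_eval_cont x) (ef_eval_cont y)
      (fun U hU hne => ef_one hom x U hU hne) (fun U hU hne => ef_one hom y U hU hne)
      (isOpen_ball (x := id') (ε := 2 * c)) (isOpen_ball (x := id') (ε := 2 * c))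
      ⟨y, hy, ef_two hom y hc0⟩
    have hp1 := ef_near (closure_ball_subset_closedBall hp)
    have hp2 := ef_near (closure_ball_subset_closedBall hp')
    refine ⟨(efH p).trans (efH p').symm, fun z => ?_, ?_⟩
    · have h3 := (hp2 (efH p z)).2
      have h4 := (hp1 z).1
      calc dist ((efH p').symm (efH p z)) z
          ≤ dist ((efH p').symm (efH p z)) (efH p z) + dist (efH p z) z := dist_triangle _ _ _
        _ ≤ 4 * c := by linarith
    · change (efH p').symm (efH p x) = y
      rw [hpp]
      exact (efH p').symm_apply_apply y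
  obtain ⟨δ, hδ, hδO⟩ := lebesgue_number_lemma_of_metric (s := (univ : Set X)) (c := O)
    isCompact_univ (fun x => isOpen_interior) (fun x _ => mem_iUnion.mpr ⟨x, ef_two hom x hc0⟩)
  refine ⟨δ, hδ, fun x y hxy => ?_⟩
  obtain ⟨w, hw⟩ := hδO x (mem_univ x)
  have hx : x ∈ O w := hw (mem_ball_self hδ)
  have hy : y ∈ O w := hw (by rw [mem_ball, dist_comm]; exact hxy)
  obtain ⟨h₁, h₁d, h₁x⟩ := hthree w x hx
  obtain ⟨h₂, h₂d, h₂y⟩ := hthree w y hy
  refine ⟨h₁.symm.trans h₂, fun z => ?_, ?_⟩
  · change dist (h₂ (h₁.symm z)) z < ε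
    have h3 := h₂d (h₁.symm z)
    have h4 := h₁d (h₁.symm z)
    rw [h₁.apply_symm_apply, dist_comm] at h4
    calc dist (h₂ (h₁.symm z)) z
        ≤ dist (h₂ (h₁.symm z)) (h₁.symm z) + dist (h₁.symm z) z := dist_triangle _ _ _
      _ ≤ 8 * c := by linarith
      _ < ε := by rw [hc]; linarith
  · change h₂ (h₁.symm x) = y
    rw [← h₁x, h₁.symm_apply_apply, h₂y]

end Pool.Agent.HDC
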