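import Mathlib
import Pool.Agent.HDC.Defs

/-!
# HDC module BUMP: boundary bumping

PROOF. Let `C₀ = connectedComponentIn (K ∩ G) x` and `C = closure C₀`; `C` is closed, connected,
contained in `K` and in `closure (K ∩ G)`, contains `x`. Suppose `C ⊆ G`. Then `C` is a connected
subset of `K ∩ G` containing `x`, so `C = C₀` and `C₀` is compact. Choose an open `V` with
`C₀ ⊆ V`, `closure V ⊆ G` (compact inside open, regularity). Let `Q = K ∩ closure V`, a compact
space (subtype). The component of `x` in `Q` is a connected subset of `K ∩ G`, so it is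
contained in `C₀` . In a compact Hausdorff space the component is the intersection
of the clopen sets containing the point (`connectedComponent_eq_iInter_isClopen`). The compact set
`Q \ V` is disjoint from this intersection, so by compactness (the family of clopen neighbourhoods is
directed) there is a clopen set `S` of `Q` with `x ∈ S`, `S ∩ (Q \ V) = ∅`, i.e. `S ⊆ V`. As a subset
of `X`: `S` is closed (compact) and `S = K ∩ S'` with `S'` open (since `S` is relatively
open in `K ∩ closure V` and contained in `V`). So `S` is clopen in the connected set `K`,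
nonempty, so `K = S ⊆ V ⊆ G`, contradicting `hne`. About 80 lines.
-/

set_option autoImplicit false

open Set Topology Filter Metric

namespace Pool.Agent.HDC

theorem bumping {X : Type*} [MetricSpace X] [CompactSpace X] {K G : Set X} (hK : Ctm K)
    (hG : IsOpen G) {x : X} (hxK : x ∈ K) (hxG : x ∈ G) (hne : ¬ K ⊆ G) :
    ∃ C : Set X, Ctm C ∧ x ∈ C ∧ C ⊆ K ∧ C ⊆ closure (K ∩ G) ∧ (C \ G).Nonempty := by
  set C₀ := connectedComponentIn (K ∩ G) x with hC₀
  have hx0 : x ∈ C₀ := mem_connectedComponentIn ⟨hxK, hxG⟩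
  have hpre : IsPreconnected C₀ := isPreconnected_connectedComponentIn
  have hsub : C₀ ⊆ K ∩ G := connectedComponentIn_subset _ _
  have hCK : closure C₀ ⊆ K := closure_minimal (hsub.trans inter_subset_left) hK.1
  refine ⟨closure C₀, ⟨isClosed_closure, ⟨x, subset_closure hx0⟩, hpre.closure⟩,
    subset_closure hx0, hCK, closure_mono hsub, ?_⟩
  by_contra hcon
  have hCG : closure C₀ ⊆ G := by
    intro y hy
    by_contra hyG
    exact hcon ⟨y, hy, hyG⟩
  have hCC : closure C₀ ⊆ C₀ := hpre.closure.subset_connectedComponentIn (subset_closure hx0)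
    (subset_inter hCK hCG)
  obtain ⟨V, hVo, hCV, hVG⟩ := normal_exists_closure_subset isClosed_closure hG hCG
  set Q : Set X := K ∩ closure V with hQ
  have hQc : IsCompact Q := (hK.1.inter isClosed_closure).isCompact
  have : CompactSpace Q := isCompact_iff_compactSpace.mp hQc
  have hxV : x ∈ V := hCV (subset_closure hx0)
  have hxQ : x ∈ Q := ⟨hxK, subset_closure hxV⟩
  set x' : Q := ⟨x, hxQ⟩ with hx'
  -- the component of `x'` is contained in `V`
  have hcomp : ∀ q : Q, q ∈ connectedComponent x' → (q : X) ∈ V := by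
    intro q hq
    have h1 : IsPreconnected ((↑) '' (connectedComponent x') : Set X) :=
      isPreconnected_connectedComponent.image _ continuous_subtype_val.continuousOn
    have h2 : ((↑) '' (connectedComponent x') : Set X) ⊆ C₀ := by
      refine h1.subset_connectedComponentIn ⟨x', mem_connectedComponent, rfl⟩ ?_
      rintro _ ⟨p, _, rfl⟩
      exact ⟨p.2.1, hVG p.2.2⟩
    exact hCV (subset_closure (h2 ⟨q, hq, rfl⟩))
  -- a clopen set
  obtain ⟨S, hS⟩ : ∃ S : { s : Set Q // IsClopen s ∧ x' ∈ s },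
      {q : Q | (q : X) ∉ V} ∩ (S : Set Q) = ∅ := by
    have : Nonempty { s : Set Q // IsClopen s ∧ x' ∈ s } :=
      ⟨⟨univ, isClopen_univ, mem_univ _⟩⟩
    refine IsCompact.elim_directed_family_closed ?_
      (fun S : { s : Set Q // IsClopen s ∧ x' ∈ s } => (S : Set Q)) (fun S => S.2.1.1) ?_ ?_
    · refine IsClosed.isCompact ?_
      have : {q : Q | (q : X) ∉ V} = ((↑) ⁻¹' Vᶜ : Set Q) := rfl
      rw [this]
      exact hVo.isClosed_compl.preimage continuous_subtype_val
    · rw [← connectedComponent_eq_iInter_isClopen x']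
      apply eq_empty_of_forall_notMem
      rintro q ⟨hq1, hq2⟩
      exact hq1 (hcomp q hq2)
    · intro S T
      refine ⟨⟨S.1 ∩ T.1, S.2.1.inter T.2.1, S.2.2, T.2.2⟩, ?_, ?_⟩
      · exact inter_subset_left
      · exact inter_subset_right
  have hSV : ∀ q : Q, q ∈ (S : Set Q) → (q : X) ∈ V := by
    intro q hq
    by_contra hqV
    have : q ∈ {q : Q | (q : X) ∉ V} ∩ (S : Set Q) := ⟨hqV, hq⟩
    rw [hS] at this
    exact this
  obtain ⟨O, hO, hOS⟩ := isOpen_induced_iff.mp S.2.1.2
  set T : Set X := (↑) '' (S : Set Q) with hT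
  have hTc : IsClosed T := (S.2.1.1.isCompact.image continuous_subtype_val).isClosed
  have hTeq : ∀ y ∈ K, y ∈ V → y ∈ O → y ∈ T := by
    intro y hyK hyV hyO
    refine ⟨⟨y, hyK, subset_closure hyV⟩, ?_, rfl⟩
    rw [← hOS]
    exact hyO
  have hTV : ∀ y ∈ T, y ∈ V ∧ y ∈ O := by
    rintro _ ⟨q, hq, rfl⟩
    refine ⟨hSV q hq, ?_⟩
    rw [← hOS] at hq
    exact hq
  have hKT : K ⊆ T := by
    intro y hy
    by_contra hyT
    have hcov : K ⊆ (V ∩ O) ∪ Tᶜ := by
      intro z _
      by_cases hz : z ∈ T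
      · exact Or.inl (hTV z hz)
      · exact Or.inr hz
    have hxT : x ∈ T := ⟨x', S.2.2, rfl⟩
    obtain ⟨z, hzK, hzVO, hzT⟩ := hK.2.isPreconnected (V ∩ O) Tᶜ (hVo.inter hO)
      hTc.isOpen_compl hcov ⟨x, hxK, hTV x hxT⟩ ⟨y, hy, hyT⟩
    exact hzT (hTeq z hzK hzVO.1 hzVO.2)
  exact hne fun y hy => hVG (subset_closure (hTV y (hKT hy)).1)

end Pool.Agent.HDC
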