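import Mathlib
import Pool.Agent.HDC.Basic
import Pool.Agent.HDC.Bump

/-!
# HDC module CRIT: the one-scale indecomposability criterion (uses the stub `bumping`)

PROOF. Auxiliary statement (*): if `E` is a continuum, `E ⊆ P₁ ∪ Z ∪ P₂`, there is a point
`a ∈ E ∩ P₁ ∩ D₁`, and `E` meets `Z ∪ P₂`, then `L ⊆ thickening ρ E`. Proof: if `a ∈ Z` apply
`hf₁` to the continuum `{a}`. If `a ∉ Z`, let `G = (Z ∪ P₂)ᶜ`, open, `a ∈ G` (`P₁`, `P₂` are
disjoint), `¬ E ⊆ G`. `bumping` gives a continuum `C ∋ a`, `C ⊆ E`, `C ⊆ closure (E ∩ G) ⊆ P₁`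
(as `E ∩ G ⊆ P₁` and `P₁` is closed), with a point in `C \ G = C ∩ (Z ∪ P₂)`, which is in
`Z` because `C ⊆ P₁` is disjoint from `P₂`. By `hf₁`, `L ⊆ thickening ρ C ⊆ thickening ρ E`.
The same with the indices 1 and 2 exchanged.
Now let `a ∈ Y ∩ P₁ ∩ D₁`, `c ∈ Y ∩ P₂ ∩ D₂`. Say `a ∈ E` (the case `a ∈ F` is symmetric).
If `E` meets `Z ∪ P₂`, done by (*). Otherwise `E ⊆ P₁ \ Z`, so `c ∈ F`. If `F` meets `Z ∪ P₁`, done
by (*) with the indices exchanged. Otherwise `F ⊆ P₂ \ Z`, and `Y = E ∪ F` is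
the union of two disjoint nonempty closed sets, contradicting connectedness.
About 90 lines.
-/

set_option autoImplicit false

open Set Topology Filter Metric

namespace Pool.Agent.HDC

private theorem crit_star {X : Type*} [MetricSpace X] [CompactSpace X]
    {L E P₁ P₂ Z D₁ : Set X} (hE : Ctm E) (hP₁ : IsClosed P₁) (hP₂ : IsClosed P₂)
    (hZ : IsClosed Z) (hcov : E ⊆ P₁ ∪ Z ∪ P₂) (hdis : Disjoint P₁ P₂) {ρ : ℝ}
    (hf₁ : Full ρ L P₁ D₁ Z) {a : X} (haE : a ∈ E) (haP : a ∈ P₁) (haD : a ∈ D₁)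
    (hm : (E ∩ (Z ∪ P₂)).Nonempty) : L ⊆ thickening ρ E := by
  by_cases haZ : a ∈ Z
  · have h1 : L ⊆ thickening ρ ({a} : Set X) := hf₁ {a} (ctm_singleton a)
      (singleton_subset_iff.mpr haP) ⟨a, rfl, haD⟩ ⟨a, rfl, haZ⟩
    exact h1.trans (thickening_subset_of_subset ρ (singleton_subset_iff.mpr haE))
  · have hG : IsOpen ((Z ∪ P₂)ᶜ) := (hZ.union hP₂).isOpen_compl
    have haG : a ∈ (Z ∪ P₂)ᶜ := by
      rintro (h | h)
      · exact haZ h
      · exact Set.disjoint_left.mp hdis haP h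
    have hne : ¬ E ⊆ (Z ∪ P₂)ᶜ := by
      intro h
      obtain ⟨z, hz, hz'⟩ := hm
      exact h hz hz'
    obtain ⟨C, hC, haC, hCE, hCcl, z, hzC, hzG⟩ := bumping hE hG haE haG hne
    have hCP : C ⊆ P₁ := by
      refine hCcl.trans (closure_minimal ?_ hP₁)
      rintro y ⟨hyE, hyG⟩
      rcases hcov hyE with (h | h) | h
      · exact h
      · exact absurd (Or.inl h) hyG
      · exact absurd (Or.inr h) hyG
    have hz2 : z ∈ Z ∪ P₂ := by
      by_contra h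
      exact hzG h
    have hzZ : z ∈ Z := by
      rcases hz2 with h | h
      · exact h
      · exact absurd h (Set.disjoint_left.mp hdis (hCP hzC))
    exact (hf₁ C hC hCP ⟨a, haC, haD⟩ ⟨z, hzC, hzZ⟩).trans (thickening_subset_of_subset ρ hCE)

theorem crit1 {X : Type*} [MetricSpace X] [CompactSpace X] {L Y P₁ P₂ Z D₁ D₂ : Set X}
    (hY : Ctm Y) (hP₁ : IsClosed P₁) (hP₂ : IsClosed P₂) (hZ : IsClosed Z)
    (hcov : Y ⊆ P₁ ∪ Z ∪ P₂) (hdis : Disjoint P₁ P₂) (hD₁ : (Y ∩ (P₁ ∩ D₁)).Nonempty)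
    (hD₂ : (Y ∩ (P₂ ∩ D₂)).Nonempty) {ρ : ℝ} (hf₁ : Full ρ L P₁ D₁ Z) (hf₂ : Full ρ L P₂ D₂ Z)
    {E F : Set X} (hE : Ctm E) (hF : Ctm F) (hEF : E ∪ F = Y) :
    L ⊆ thickening ρ E ∨ L ⊆ thickening ρ F := by
  obtain ⟨a, haY, haP, haD⟩ := hD₁
  obtain ⟨c, hcY, hcP, hcD⟩ := hD₂
  have key : ∀ E F : Set X, Ctm E → Ctm F → E ∪ F = Y → a ∈ E →
      L ⊆ thickening ρ E ∨ L ⊆ thickening ρ F := by
    intro E F hE hF hEF haE
    have hEY : E ⊆ Y := hEF ▸ subset_union_left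
    have hFY : F ⊆ Y := hEF ▸ subset_union_right
    by_cases h : (E ∩ (Z ∪ P₂)).Nonempty
    · exact Or.inl (crit_star hE hP₁ hP₂ hZ (hEY.trans hcov) hdis hf₁ haE haP haD h)
    · have hcE : c ∉ E := fun hc => h ⟨c, hc, Or.inr hcP⟩
      have hcF : c ∈ F := by
        rw [← hEF] at hcY
        exact hcY.resolve_left hcE
      by_cases h' : (F ∩ (Z ∪ P₁)).Nonempty
      · refine Or.inr (crit_star hF hP₂ hP₁ hZ ?_ hdis.symm hf₂ hcF hcP hcD h')
        intro y hy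
        rcases hcov (hFY hy) with (h1 | h1) | h1
        · exact Or.inr h1
        · exact Or.inl (Or.inr h1)
        · exact Or.inl (Or.inl h1)
      · exfalso
        obtain ⟨z, _, hzE, hzF⟩ := isPreconnected_closed_iff.mp hY.2.isPreconnected E F hE.1 hF.1
          hEF.symm.subset ⟨a, haY, haE⟩ ⟨c, hcY, hcF⟩
        rcases hcov (hEY hzE) with (h1 | h1) | h1
        · exact h' ⟨z, hzF, Or.inr h1⟩
        · exact h ⟨z, hzE, Or.inl h1⟩
        · exact h ⟨z, hzE, Or.inr h1⟩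
  have haEF : a ∈ E ∪ F := by rw [hEF]; exact haY
  rcases haEF with h | h
  · exact key E F hE hF hEF h
  · exact (key F E hF hE (by rw [union_comm]; exact hEF) h).symm

end Pool.Agent.HDC
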