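import Mathlib
import Pool.Agent.HDC.Basic
import Pool.Agent.HDC.Hyper
import Pool.Agent.HDC.Crit
import Pool.Agent.HDC.FullStab

/-!
# HDC module ITER: iterating doubling steps gives an indecomposable continuum

(uses the stubs `exists_limit`, `crit1`, `full_stable`)

PROOF. For a state `s` and `ε > 0` choose `s' = F s ε` and `P₁, P₂, Z, D₁, D₂` as in `Step`, and
`η = η(s,ε) > 0` such that
`Full (2ε) (L s) (cthickening η Pᵢ) (cthickening η Dᵢ) (cthickening η Z)` for `i = 1, 2`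
(`full_stable` and `Full.mono`) and `Disjoint (cthickening η P₁) (cthickening η P₂)` (disjoint
compact sets: `Disjoint.exists_cthickenings`). Let `ε₀ = dist p q / 8` where `p ≠ q` are two points
of `L s₀`, and define by recursion `s_{k+1} = F s_k ε_k`,
`ε_{k+1} = min (ε_k / 2) (η(s_k,ε_k) / 4)`. Write `L_k, W_k, η_k`, ... So
`ε_j ≤ 2^{-(j-i)} ε_i` for `j ≥ i` and `ε_{k+1} ≤ η_k / 4`.
(i) `W_{j+1} ⊆ thickening ε_j W_j`, hence `W_j ⊆ thickening (2 ε_i) W_i` for `j ≥ i` (induction on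
    `j` with the constant `2 ε_i - 2 ε_j` or similar, for `j = i` trivially).
(ii) `L_k ⊆ thickening ε_k L_{k+1}`: `crit1` with `Y = E = F = L_{k+1}` (note
    `L_{k+1} ⊆ W_{k+1} ⊆ P₁ ∪ Z ∪ P₂`). Hence `L_i ⊆ thickening (2 ε_i) L_j` for `j ≥ i`.
(iii) Let `Y`, `φ` be given by `exists_limit` for the sequence `L_k`. Then
    `L_k ⊆ thickening (3 ε_k) Y` for all `k`, and for every `k`
    `Y ⊆ cthickening (2 ε_{k+1}) W_{k+1}
       ⊆ cthickening η_k P₁ ∪ cthickening η_k Z ∪ cthickening η_k P₂` (`cthickening_union`).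
(iv) `Y` meets `cthickening η_k Pᵢ ∩ cthickening η_k Dᵢ`: take `a ∈ L_{k+1} ∩ Pᵢ ∩ Dᵢ`; by (iii)
    there is `y ∈ Y` with `dist y a < 3 ε_{k+1} ≤ η_k`.
(v) Let `Y = E ∪ F` with continua `E, F`. By `crit1` (for the thickened sets), for every `k`,
    `L_k ⊆ thickening (2 ε_k) E` or `L_k ⊆ thickening (2 ε_k) F`. One of them, say `E`, occurs for
    infinitely many `k`. Then `Y ⊆ E`: for `y ∈ Y` and `δ > 0` there is `n` large with
    `y ∈ thickening δ L_{φ n}` and `2 ε_{φ n} < δ`, then `j ≥ φ n` with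
    `L_j ⊆ thickening (2 ε_j) E`, `2 ε_j < δ`; `L_{φ n} ⊆ thickening (2 ε_{φ n}) L_j`; so
    `y` is within `3 δ` of `E`, which is closed. So `E = Y`.
(vi) `Y` is nontrivial: `p, q ∈ L_0 ⊆ thickening (3 ε₀) Y` and `dist p q = 8 ε₀`.
About 200 lines.
-/

set_option autoImplicit false

open Set Topology Filter Metric

namespace Pool.Agent.HDC

/-- the consequence of a doubling step which is used in the iteration -/
private def ItQ {X : Type*} [MetricSpace X] {S : Type*} (L W : S → Set X) (s : S) (ε : ℝ) (s' : S)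
    (η : ℝ) : Prop :=
  0 < η ∧ W s' ⊆ thickening ε (W s) ∧ ∀ Y E F : Set X, Ctm Y → Y ⊆ cthickening η (W s') →
    L s' ⊆ thickening η Y → Ctm E → Ctm F → E ∪ F = Y →
      L s ⊆ thickening (2 * ε) E ∨ L s ⊆ thickening (2 * ε) F

private theorem it_q {X : Type*} [MetricSpace X] [CompactSpace X] {S : Type*} {L W : S → Set X}
    {s s' : S} {ε : ℝ} (hε : 0 < ε) (h : Step ε (L s) (W s) (L s') (W s')) :
    ∃ η, ItQ L W s ε s' η := by
  obtain ⟨P₁, P₂, Z, D₁, D₂, hP₁, hP₂, hZ, hD₁, hD₂, hcov, hW, hdis, hm₁, hm₂, hf₁, hf₂⟩ := h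
  obtain ⟨η₁, hη₁, g₁⟩ := full_stable hP₁ hD₁ hZ hε (show ε < 2 * ε by linarith) hf₁
  obtain ⟨η₂, hη₂, g₂⟩ := full_stable hP₂ hD₂ hZ hε (show ε < 2 * ε by linarith) hf₂
  obtain ⟨η₃, hη₃, g₃⟩ := hdis.exists_cthickenings hP₁.isCompact hP₂
  set η := min η₁ (min η₂ η₃) with hη
  have h0 : 0 < η := lt_min hη₁ (lt_min hη₂ hη₃)
  have h1 : η ≤ η₁ := min_le_left _ _
  have h2 : η ≤ η₂ := (min_le_right _ _).trans (min_le_left _ _)
  have h3 : η ≤ η₃ := (min_le_right _ _).trans (min_le_right _ _)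
  refine ⟨η, h0, hW, fun Y E F hY hYW hLY hE hF hEF => ?_⟩
  have hcov' : Y ⊆ cthickening η P₁ ∪ cthickening η Z ∪ cthickening η P₂ := by
    rw [← cthickening_union, ← cthickening_union]
    exact hYW.trans (cthickening_subset_of_subset η hcov)
  have hmeet : ∀ P D : Set X, (L s' ∩ (P ∩ D)).Nonempty →
      (Y ∩ (cthickening η P ∩ cthickening η D)).Nonempty := by
    rintro P D ⟨a, haL, haP, haD⟩
    obtain ⟨y, hy, hay⟩ := mem_thickening_iff.mp (hLY haL)
    have hya : dist y a ≤ η := by rw [dist_comm]; exact hay.le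
    exact ⟨y, hy, mem_cthickening_of_dist_le y a η P haP hya,
      mem_cthickening_of_dist_le y a η D haD hya⟩
  exact crit1 hY isClosed_cthickening isClosed_cthickening isClosed_cthickening hcov'
    (g₃.mono (cthickening_mono h3 P₁) (cthickening_mono h3 P₂)) (hmeet P₁ D₁ hm₁)
    (hmeet P₂ D₂ hm₂)
    (g₁.mono le_rfl (cthickening_mono h1 _) (cthickening_mono h1 _) (cthickening_mono h1 _))
    (g₂.mono le_rfl (cthickening_mono h2 _) (cthickening_mono h2 _) (cthickening_mono h2 _))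
    hE hF hEF

private theorem it_thick {X : Type*} [MetricSpace X] {A B C : Set X} {a b c : ℝ}
    (h1 : A ⊆ thickening a B) (h2 : B ⊆ thickening b C) (h : a + b ≤ c) :
    A ⊆ thickening c C := by
  intro x hx
  obtain ⟨y, hy, hxy⟩ := mem_thickening_iff.mp (h1 hx)
  obtain ⟨z, hz, hyz⟩ := mem_thickening_iff.mp (h2 hy)
  refine mem_thickening_iff.mpr ⟨z, hz, ?_⟩
  calc dist x z ≤ dist x y + dist y z := dist_triangle _ _ _
    _ < c := by linarith

theorem exists_indec {X : Type*} [MetricSpace X] [CompactSpace X] {S : Type*} (L W : S → Set X)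
    (hL : ∀ s, Ctm (L s)) (hLW : ∀ s, L s ⊆ W s) (hW : ∀ s, IsClosed (W s)) (s₀ : S)
    (h0 : (L s₀).Nontrivial)
    (step : ∀ s, ∀ ε > 0, ∃ s' : S, Step ε (L s) (W s) (L s') (W s')) :
    ∃ Y : Set X, Ctm Y ∧ Y.Nontrivial ∧ Indec Y := by
  obtain ⟨p, hp, q, hq, hpq⟩ := h0
  have hpq0 : 0 < dist p q := dist_pos.mpr hpq
  have hstep : ∀ t : S × {ε : ℝ // 0 < ε}, ∃ u : S × {ε : ℝ // 0 < ε}, ∃ η,
      ItQ L W t.1 t.2 u.1 η ∧ (u.2 : ℝ) ≤ (t.2 : ℝ) / 2 ∧ (u.2 : ℝ) ≤ η / 8 := by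
    rintro ⟨s, ε, hε⟩
    obtain ⟨s', hs'⟩ := step s ε hε
    obtain ⟨η, hη⟩ := it_q hε hs'
    have hη0 : 0 < η := hη.1
    exact ⟨(s', ⟨min (ε / 2) (η / 8), lt_min (by linarith) (by linarith)⟩), η, hη,
      min_le_left _ _, min_le_right _ _⟩
  choose F G hFQ hF1 hF2 using hstep
  let st : ℕ → S × {ε : ℝ // 0 < ε} := fun n =>
    Nat.rec (s₀, ⟨dist p q / 12, by positivity⟩) (fun _ t => F t) n
  have hst : ∀ n, st (n + 1) = F (st n) := fun n => rfl
  set s : ℕ → S := fun n => (st n).1 with hs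
  set ε : ℕ → ℝ := fun n => ((st n).2 : ℝ) with hεdef
  set η : ℕ → ℝ := fun n => G (st n) with hηdef
  have hε0 : ∀ n, 0 < ε n := fun n => (st n).2.2
  have hQ : ∀ n, ItQ L W (s n) (ε n) (s (n + 1)) (η n) := fun n => hFQ (st n)
  have hε1 : ∀ n, ε (n + 1) ≤ ε n / 2 := fun n => hF1 (st n)
  have hε2 : ∀ n, ε (n + 1) ≤ η n / 8 := fun n => hF2 (st n)
  have hεanti : Antitone ε := antitone_nat_of_succ_le fun n => by
    have := hε1 n
    have := hε0 n
    linarith
  have hεlim : Tendsto ε atTop (𝓝 0) := by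
    have h1 : ∀ n, ε n ≤ ε 0 * (1 / 2) ^ n := by
      intro n
      induction n with
      | zero => simp
      | succ n ih =>
        have := hε1 n
        rw [pow_succ]
        linarith
    have h2 : Tendsto (fun n : ℕ => ε 0 * (1 / 2 : ℝ) ^ n) atTop (𝓝 0) := by
      have := (tendsto_pow_atTop_nhds_zero_of_lt_one (r := (1 / 2 : ℝ)) (by norm_num)
        (by norm_num)).const_mul (ε 0)
      rwa [mul_zero] at this
    exact squeeze_zero (fun n => (hε0 n).le) h1 h2
  -- (i)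
  have hWW : ∀ i j, i ≤ j → W (s j) ⊆ thickening (3 * ε i - 2 * ε j) (W (s i)) := by
    intro i j hij
    induction j, hij using Nat.le_induction with
    | base => exact self_subset_thickening (by have := hε0 i; linarith) _
    | succ j _ ih =>
      refine it_thick (hQ j).2.1 ih ?_
      have := hε1 j
      linarith
  have hWW' : ∀ i j, i ≤ j → W (s j) ⊆ thickening (3 * ε i) (W (s i)) := fun i j hij =>
    (hWW i j hij).trans (thickening_mono (by have := hε0 j; linarith) _)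
  -- (ii)
  have hLL1 : ∀ k, L (s k) ⊆ thickening (2 * ε k) (L (s (k + 1))) := by
    intro k
    have hη0 := (hQ k).1
    have h1 := (hQ k).2.2 (L (s (k + 1))) (L (s (k + 1))) (L (s (k + 1))) (hL _)
      ((hLW _).trans (self_subset_cthickening _)) (self_subset_thickening hη0 _) (hL _) (hL _)
      (union_self _)
    exact h1.elim id id
  have hLL : ∀ i j, i ≤ j → L (s i) ⊆ thickening (5 * ε i - 4 * ε j) (L (s j)) := by
    intro i j hij
    induction j, hij using Nat.le_induction with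
    | base => exact self_subset_thickening (by have := hε0 i; linarith) _
    | succ j _ ih =>
      refine it_thick ih (hLL1 j) ?_
      have := hε1 j
      linarith
  have hLL' : ∀ i j, i ≤ j → L (s i) ⊆ thickening (5 * ε i) (L (s j)) := fun i j hij =>
    (hLL i j hij).trans (thickening_mono (by have := hε0 j; linarith) _)
  -- (iii)
  obtain ⟨Y, φ, hY, hφ, hlim⟩ := exists_limit (fun k => L (s k)) fun k => hL (s k)
  have hLY : ∀ k, L (s k) ⊆ thickening (6 * ε k) Y := by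
    intro k
    obtain ⟨n, hn1, hn2⟩ := ((hlim (ε k) (hε0 k)).and (eventually_ge_atTop k)).exists
    have h1 : k ≤ φ n := hn2.trans (hφ.id_le n)
    exact it_thick (hLL' k (φ n) h1) hn1.1 (by linarith)
  have hYW : ∀ k, Y ⊆ cthickening (η k) (W (s (k + 1))) := by
    intro k
    obtain ⟨n, hn1, hn2⟩ := ((hlim (ε (k + 1)) (hε0 (k + 1))).and
      (eventually_ge_atTop (k + 1))).exists
    have h1 : k + 1 ≤ φ n := hn2.trans (hφ.id_le n)
    have h2 : Y ⊆ thickening (4 * ε (k + 1)) (W (s (k + 1))) :=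
      it_thick hn1.2 ((hLW _).trans (hWW' (k + 1) (φ n) h1)) (by linarith)
    refine h2.trans ((thickening_mono ?_ _).trans (thickening_subset_cthickening _ _))
    have h3 := hε2 k
    have h4 := (hQ k).1
    linarith
  have hLYη : ∀ k, L (s (k + 1)) ⊆ thickening (η k) Y := by
    intro k
    refine (hLY (k + 1)).trans (thickening_mono ?_ _)
    have h3 := hε2 k
    have h4 := (hQ k).1
    linarith
  -- (v)
  have hfin : ∀ E : Set X, Ctm E → E ⊆ Y →
      (∃ᶠ k in atTop, L (s k) ⊆ thickening (2 * ε k) E) → E = Y := by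
    intro E hE hEY hfr
    apply Subset.antisymm hEY
    intro y hy
    rw [← hE.1.closure_eq, Metric.mem_closure_iff]
    intro δ hδ
    have h1 : ∀ᶠ n in atTop, 5 * ε (φ n) < δ / 3 := by
      have h2 : ∀ᶠ k in atTop, ε k < δ / 15 := hεlim.eventually (gt_mem_nhds (by linarith))
      exact (hφ.tendsto_atTop.eventually h2).mono fun n hn => by linarith
    obtain ⟨n, hn1, hn2⟩ := ((hlim (δ / 3) (by linarith)).and h1).exists
    obtain ⟨j, hj1, hj2⟩ := (hfr.and_eventually (eventually_ge_atTop (φ n))).exists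
    have h3 : ε j ≤ ε (φ n) := hεanti hj2
    have h4 := hε0 (φ n)
    have h5 : Y ⊆ thickening δ E :=
      it_thick (it_thick hn1.2 (hLL' (φ n) j hj2) le_rfl) hj1 (by linarith)
    obtain ⟨b, hb, hyb⟩ := mem_thickening_iff.mp (h5 hy)
    exact ⟨b, hb, hyb⟩
  refine ⟨Y, hY, ?_, ?_⟩
  · obtain ⟨p', hp', hpp⟩ := mem_thickening_iff.mp (hLY 0 hp)
    obtain ⟨q', hq', hqq⟩ := mem_thickening_iff.mp (hLY 0 hq)
    refine ⟨p', hp', q', hq', fun heq => ?_⟩
    subst heq
    have h1 : ε 0 = dist p q / 12 := rfl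
    have h2 : dist p q ≤ dist p p' + dist q p' := dist_triangle_right _ _ _
    linarith
  · intro E F hE hF hEF
    have hk : ∀ k, L (s k) ⊆ thickening (2 * ε k) E ∨ L (s k) ⊆ thickening (2 * ε k) F :=
      fun k => (hQ k).2.2 Y E F hY (hYW k) (hLYη k) hE hF hEF
    have hfr : ∃ᶠ k in atTop, (L (s k) ⊆ thickening (2 * ε k) E ∨
        L (s k) ⊆ thickening (2 * ε k) F) := Frequently.of_forall hk
    rcases frequently_or_distrib.mp hfr with h | h
    · exact Or.inl (hfin E hE (hEF ▸ subset_union_left) h)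
    · exact Or.inr (hfin F hF (hEF ▸ subset_union_right) h)

end Pool.Agent.HDC
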