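import Mathlib
import Pool.Agent.HDC.Defs

/-!
# HDC module IRREX: irreducible subcontinua exist

PROOF. Zorn's lemma for the family `𝒦` of all continua `L ⊆ K` meeting `A` and `H`, ordered by
reverse inclusion (`zorn_superset_nonempty` or `zorn_superset`). For a nonempty chain `c` in `𝒦` the
intersection `⋂₀ c` is closed; it meets `A` and `H` by compactness (Cantor's intersection theorem
`IsCompact.nonempty_sInter_of_directedOn_nonempty_isCompact_isClosed` or
similar, for the sets `L ∩ A`), and it is connected: if `⋂₀ c = E ∪ F`, `E, F` disjoint nonempty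
closed sets, separate them by disjoint open sets `V₁ ⊇ E`, `V₂ ⊇ F`; by compactness some `L ∈ c` is
contained in `V₁ ∪ V₂` and meets both, contradiction. (Alternatively: let `d(L)` measure the
Hausdorff distance and use the lemma `exists_limit` of HYPER.) About 80 lines.
-/

set_option autoImplicit false

open Set Topology Filter Metric

namespace Pool.Agent.HDC

private theorem ix_sInter {X : Type*} [MetricSpace X] [CompactSpace X] {c : Set (Set X)}
    (hc : IsChain (· ⊆ ·) c) (hne : c.Nonempty) (hcl : ∀ L ∈ c, Ctm L) :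
    IsPreconnected (⋂₀ c) := by
  have hscl : IsClosed (⋂₀ c) := isClosed_sInter fun L hL => (hcl L hL).1
  rw [isPreconnected_iff_subset_of_disjoint_closed]
  intro u v hu hv huv hd
  by_contra hcon
  rw [not_or] at hcon
  obtain ⟨hnu, hnv⟩ := hcon
  obtain ⟨a, ha, hau⟩ := not_subset.mp hnu
  obtain ⟨b, hb, hbv⟩ := not_subset.mp hnv
  have hav : a ∈ v := (huv ha).resolve_left hau
  have hbu : b ∈ u := (huv hb).resolve_right hbv
  have hdisj : Disjoint (⋂₀ c ∩ u) (⋂₀ c ∩ v) := by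
    rw [Set.disjoint_left]
    rintro z ⟨hz, hzu⟩ ⟨_, hzv⟩
    have : z ∈ ⋂₀ c ∩ (u ∩ v) := ⟨hz, hzu, hzv⟩
    rw [hd] at this
    exact this
  obtain ⟨V₁, V₂, hV₁, hV₂, hs₁, hs₂, hVV⟩ :=
    normal_separation (hscl.inter hu) (hscl.inter hv) hdisj
  have : Nonempty c := hne.to_subtype
  obtain ⟨L, hL⟩ : ∃ L : c, (V₁ ∪ V₂)ᶜ ∩ (L : Set X) = ∅ := by
    refine IsCompact.elim_directed_family_closed
      (hV₁.union hV₂).isClosed_compl.isCompact (fun L : c => (L : Set X))
      (fun L => (hcl L L.2).1) ?_ ?_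
    · apply eq_empty_of_forall_notMem
      rintro z ⟨hz1, hz2⟩
      have hz : z ∈ ⋂₀ c := by
        rw [mem_sInter]
        intro L hL
        exact mem_iInter.mp hz2 ⟨L, hL⟩
      apply hz1
      rcases huv hz with h | h
      · exact Or.inl (hs₁ ⟨hz, h⟩)
      · exact Or.inr (hs₂ ⟨hz, h⟩)
    · intro L M
      rcases hc.total L.2 M.2 with h | h
      · exact ⟨L, Subset.rfl, h⟩
      · exact ⟨M, h, Subset.rfl⟩
  have hLV : (L : Set X) ⊆ V₁ ∪ V₂ := by
    intro z hz
    by_contra hzV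
    have : z ∈ (V₁ ∪ V₂)ᶜ ∩ (L : Set X) := ⟨hzV, hz⟩
    rw [hL] at this
    exact this
  have hsL : ⋂₀ c ⊆ (L : Set X) := sInter_subset_of_mem L.2
  rcases (hcl L L.2).2.isPreconnected.subset_or_subset hV₁ hV₂ hVV hLV with h | h
  · exact Set.disjoint_left.mp hVV (h (hsL ha)) (hs₂ ⟨ha, hav⟩)
  · exact Set.disjoint_left.mp hVV (hs₁ ⟨hb, hbu⟩) (h (hsL hb))

private theorem ix_meet {X : Type*} [MetricSpace X] [CompactSpace X] {c : Set (Set X)}
    (hc : IsChain (· ⊆ ·) c) (hne : c.Nonempty) (hcl : ∀ L ∈ c, IsClosed L) {A : Set X}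
    (hA : IsClosed A) (h : ∀ L ∈ c, (L ∩ A).Nonempty) : (⋂₀ c ∩ A).Nonempty := by
  by_contra hcon
  rw [not_nonempty_iff_eq_empty] at hcon
  have : Nonempty c := hne.to_subtype
  obtain ⟨L, hL⟩ : ∃ L : c, A ∩ (L : Set X) = ∅ := by
    refine IsCompact.elim_directed_family_closed hA.isCompact (fun L : c => (L : Set X))
      (fun L => hcl L L.2) ?_ ?_
    · rw [← sInter_eq_iInter, inter_comm]
      exact hcon
    · intro L M
      rcases hc.total L.2 M.2 with h | h
      · exact ⟨L, Subset.rfl, h⟩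
      · exact ⟨M, h, Subset.rfl⟩
  have h1 := h L L.2
  rw [inter_comm, hL] at h1
  exact not_nonempty_empty h1

theorem exists_irr {X : Type*} [MetricSpace X] [CompactSpace X] {K A H : Set X} (hK : Ctm K)
    (hA : IsClosed A) (hH : IsClosed H) (h1 : (K ∩ A).Nonempty) (h2 : (K ∩ H).Nonempty) :
    ∃ L ⊆ K, Irr L A H := by
  obtain ⟨L, hLK, hmin⟩ := zorn_superset_nonempty
    {L : Set X | Ctm L ∧ (L ∩ A).Nonempty ∧ (L ∩ H).Nonempty} (by
      intro c hcS hc hne
      have hcl : ∀ L ∈ c, Ctm L := fun L hL => (hcS hL).1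
      have hmA : (⋂₀ c ∩ A).Nonempty :=
        ix_meet hc hne (fun L hL => (hcl L hL).1) hA (fun L hL => (hcS hL).2.1)
      have hmH : (⋂₀ c ∩ H).Nonempty :=
        ix_meet hc hne (fun L hL => (hcl L hL).1) hH (fun L hL => (hcS hL).2.2)
      refine ⟨⋂₀ c, ⟨⟨isClosed_sInter fun L hL => (hcl L hL).1,
        hmA.mono inter_subset_left, ix_sInter hc hne hcl⟩, hmA, hmH⟩, fun L hL => ?_⟩
      exact sInter_subset_of_mem hL) K ⟨hK, h1, h2⟩
  refine ⟨L, hLK, hmin.prop.1, hmin.prop.2.1, hmin.prop.2.2, ?_⟩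
  intro M hM hML hMA hMH
  exact Subset.antisymm hML (hmin.le_of_le ⟨hM, hMA, hMH⟩ hML)

end Pool.Agent.HDC
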