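import Mathlib
import Pool.Agent.HDC.Defs
import Pool.Agent.Helper43.Gordh

/-!
# HDC module LOCCUT: a local cut point forces a circle

Uses `Pool.Agent.Helper43.CutFam.exists_good`, `LocTwo`, `LocTwo.homeo`, `noTriod_of_locTwo`,
`circle_of_noTriod`, `range_not_countable`. A very similar argument is written out in
`Pool/Agent/Helper43/SepPair.lean`, theorem `exists_locTwo`, and in `Gordh.lean`.

PROOF. By homogeneity every `y : X` has an open connected `U y ∋ y` such that `U y \ {y}` is not
preconnected (image of the given `U`, `y` under a homeomorphism). `U y \ {y}` is open and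
not preconnected, so it is the disjoint union of two nonempty open sets `G y`, `G' y`. The point `y`
is in the closure of `G y`: otherwise `G y` would be clopen in `U y` (`U y \ G y` is open: it is
`G' y ∪ {y}` and `y` has a neighbourhood in `U y` missing `G y`), contradicting
connectedness. The same for `G' y`.
Let `𝓑` be a countable basis, `D` a countable dense set. For `y : X` choose `B ∈ 𝓑` with
`y ∈ B`, `closure B ⊆ U y` (regularity, `IsTopologicalBasis.exists_closure_subset`), and `d ∈ D`
in the open set `connectedComponentIn B y`. So `V := connectedComponentIn B d` is open (local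
connectedness), connected, contains `y`, `closure V ⊆ U y`. The open sets `V ∩ G y`, `V ∩ G' y` are
nonempty; choose `a, b ∈ D` in them. Hence `X` is the union over the countably many `(B, d, a, b)` of
the sets
`E = {y | y ∈ V, closure V ⊆ U y, a ∈ G y, b ∈ G' y, a ∈ V, b ∈ V}` with
`V = connectedComponentIn B d`. `X` is uncountable
(`range_not_countable` for a path between two points), so some `E` is uncountable. With
`C = closure V` (closed, connected) we have `CutFam C E a b G G'`. `CutFam.exists_good` gives `y ∈ E`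
such that for every `W ∈ 𝓝 y` there are `u, v ∈ E` with `y ∈ G' u`, `y ∈ G v`,
`C ∩ G' u ∩ G v ⊆ W`. Then `LocTwo y` with `N = C ∈ 𝓝 y`: if `T ⊆ C` is preconnected, `y ∈ T`,
`u, v ∉ T`, then `T ⊆ C \ {u} ⊆ G u ∪ G' u`, so `T ⊆ G' u`; similarly `T ⊆ G v`; so `T ⊆ W`.
(`u ≠ y` since `u ∉ G' u`.) By homogeneity (`LocTwo.homeo`) every point is `LocTwo`;
`noTriod_of_locTwo` and `circle_of_noTriod` finish. About 130 lines.
-/

set_option autoImplicit false

open Set Topology Filter Metric

namespace Pool.Agent.HDC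

private theorem lc_split {X : Type*} [MetricSpace X] {U : Set X} {y : X} (hUo : IsOpen U)
    (hUc : IsConnected U) (hy : y ∈ U) (hn : ¬ IsPreconnected (U \ {y})) :
    ∃ G G' : Set X, IsOpen G ∧ IsOpen G' ∧ Disjoint G G' ∧ U \ {y} = G ∪ G' ∧
      y ∈ closure G ∧ y ∈ closure G' := by
  have key : ∀ G G' : Set X, IsOpen G → IsOpen G' → Disjoint G G' → U \ {y} = G ∪ G' →
      G.Nonempty → y ∈ closure G := by
    intro G G' hG hG' hd hU hne
    by_contra hcl
    have hW : IsOpen ((closure G)ᶜ) := isClosed_closure.isOpen_compl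
    obtain ⟨z, hz⟩ := hne
    have hzU : z ∈ U := by
      have : z ∈ U \ {y} := by rw [hU]; exact Or.inl hz
      exact this.1
    obtain ⟨w, -, hwG, hw⟩ := hUc.isPreconnected G (G' ∪ (closure G)ᶜ) hG (hG'.union hW) (by
      intro w hw
      by_cases hwy : w = y
      · rw [hwy]; exact Or.inr (Or.inr hcl)
      · have : w ∈ G ∪ G' := by rw [← hU]; exact ⟨hw, hwy⟩
        rcases this with h | h
        · exact Or.inl h
        · exact Or.inr (Or.inl h)) ⟨z, hzU, hz⟩ ⟨y, hy, Or.inr hcl⟩
    rcases hw with h | h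
    · exact disjoint_left.mp hd hwG h
    · exact h (subset_closure hwG)
  unfold IsPreconnected at hn
  push Not at hn
  obtain ⟨u, v, hu, hv, huv, hune, hvne, hemp⟩ := hn
  have hopen : IsOpen (U \ {y}) := hUo.sdiff isClosed_singleton
  have hG : IsOpen ((U \ {y}) ∩ u) := hopen.inter hu
  have hG' : IsOpen ((U \ {y}) ∩ v) := hopen.inter hv
  have hd : Disjoint ((U \ {y}) ∩ u) ((U \ {y}) ∩ v) := by
    rw [disjoint_left]
    rintro x ⟨hx1, hx2⟩ ⟨_, hx3⟩
    have : x ∈ (U \ {y}) ∩ (u ∩ v) := ⟨hx1, hx2, hx3⟩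
    rw [hemp] at this
    exact this
  have hcov : U \ {y} = (U \ {y}) ∩ u ∪ (U \ {y}) ∩ v := by
    rw [← inter_union_distrib_left]
    exact (inter_eq_left.2 huv).symm
  exact ⟨_, _, hG, hG', hd, hcov, key _ _ hG hG' hd hcov hune,
    key _ _ hG' hG hd.symm (by rw [union_comm]; exact hcov) hvne⟩

theorem circle_of_localCut {X : Type*} [MetricSpace X] [CompactSpace X] [PathConnectedSpace X]
    [LocallyPathConnectedSpace X] [Nontrivial X] (hom : Hom X)
    (hcut : ∃ U : Set X, IsOpen U ∧ IsConnected U ∧ ∃ y ∈ U, ¬ IsPreconnected (U \ {y})) :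
    Nonempty (X ≃ₜ Circle) := by
  classical
  obtain ⟨a₀, b₀, hab₀⟩ := exists_pair_ne X
  have hall : ∀ y : X, ∃ U G G' : Set X, IsOpen U ∧ y ∈ U ∧ IsOpen G ∧ IsOpen G' ∧
      Disjoint G G' ∧ U \ {y} = G ∪ G' ∧ y ∈ closure G ∧ y ∈ closure G' := by
    intro y
    obtain ⟨U, hUo, hUc, x, hx, hn⟩ := hcut
    obtain ⟨h, rfl⟩ := hom x y
    obtain ⟨G, G', hG⟩ := lc_split (h.isOpenMap U hUo) (hUc.image h h.continuous.continuousOn)
      (mem_image_of_mem h hx) (by
        intro hp
        apply hn
        have h1 : h ⁻¹' (h '' U \ {h x}) = U \ {x} := by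
          ext z
          simp [h.injective.eq_iff]
        rw [← h1]
        exact h.isPreconnected_preimage.2 hp)
    exact ⟨h '' U, G, G', h.isOpenMap U hUo, mem_image_of_mem h hx, hG⟩
  choose U G G' hUo hyU hGo hGo' hd hcov hyG hyG' using hall
  have hunc : ¬ (univ : Set X).Countable := by
    intro hc
    obtain ⟨γ⟩ := PathConnectedSpace.joined a₀ b₀
    exact Helper43.range_not_countable γ.continuous_extend (by simpa using hab₀)
      (hc.mono (subset_univ _))
  set 𝓑 := TopologicalSpace.countableBasis X with h𝓑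
  have hbasis := TopologicalSpace.isBasis_countableBasis X
  obtain ⟨D, hDc, hDd⟩ := TopologicalSpace.exists_countable_dense X
  set E : Set X → X → X → X → Set X := fun B d a b =>
    {y | y ∈ connectedComponentIn B d ∧ closure (connectedComponentIn B d) ⊆ U y ∧
      a ∈ G y ∧ b ∈ G' y ∧ a ∈ connectedComponentIn B d ∧ b ∈ connectedComponentIn B d} with hE
  have hcover : (univ : Set X) ⊆ ⋃ B ∈ 𝓑, ⋃ d ∈ D, ⋃ a ∈ D, ⋃ b ∈ D, E B d a b := by
    intro y _
    obtain ⟨B, hB, hyB, hBc⟩ := hbasis.exists_closure_subset ((hUo y).mem_nhds (hyU y))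
    have hBo : IsOpen B := hbasis.isOpen hB
    have hKo : IsOpen (connectedComponentIn B y) := hBo.connectedComponentIn
    have hKy : y ∈ connectedComponentIn B y := mem_connectedComponentIn hyB
    obtain ⟨d, hdK, hdD⟩ := hDd.inter_open_nonempty _ hKo ⟨y, hKy⟩
    have hKd : connectedComponentIn B y = connectedComponentIn B d := connectedComponentIn_eq hdK
    have hpick : ∀ G : Set X, IsOpen G → y ∈ closure G →
        ∃ a ∈ D, a ∈ G ∧ a ∈ connectedComponentIn B y := by
      intro G hG hyG
      obtain ⟨z, hz1, hz2⟩ := mem_closure_iff.mp hyG _ hKo hKy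
      obtain ⟨a, ha, haD⟩ := hDd.inter_open_nonempty _ (hKo.inter hG) ⟨z, hz1, hz2⟩
      exact ⟨a, haD, ha.2, ha.1⟩
    obtain ⟨a, haD, haG, haK⟩ := hpick _ (hGo y) (hyG y)
    obtain ⟨b, hbD, hbG, hbK⟩ := hpick _ (hGo' y) (hyG' y)
    rw [mem_iUnion₂]
    refine ⟨B, hB, ?_⟩
    rw [mem_iUnion₂]
    refine ⟨d, hdD, ?_⟩
    rw [mem_iUnion₂]
    refine ⟨a, haD, ?_⟩
    rw [mem_iUnion₂]
    refine ⟨b, hbD, ?_⟩
    rw [hE]
    refine ⟨?_, ?_, haG, hbG, ?_, ?_⟩
    · rw [← hKd]; exact hKy
    · rw [← hKd]; exact (closure_mono (connectedComponentIn_subset _ _)).trans hBc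
    · rw [← hKd]; exact haK
    · rw [← hKd]; exact hbK
  obtain ⟨B, hB, d, -, a, -, b, -, hEunc⟩ :
      ∃ B ∈ 𝓑, ∃ d ∈ D, ∃ a ∈ D, ∃ b ∈ D, ¬ (E B d a b).Countable := by
    by_contra hcon
    push Not at hcon
    apply hunc
    apply Countable.mono hcover
    refine (TopologicalSpace.countable_countableBasis X).biUnion fun B hB => ?_
    refine hDc.biUnion fun d hd => hDc.biUnion fun a ha => hDc.biUnion fun b hb => ?_
    exact hcon B hB d hd a ha b hb
  have hBo : IsOpen B := hbasis.isOpen hB
  set V : Set X := connectedComponentIn B d with hV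
  have hVo : IsOpen V := hBo.connectedComponentIn
  set C : Set X := closure V with hC
  obtain ⟨y₀, hy₀⟩ : (E B d a b).Nonempty := by
    by_contra h
    rw [not_nonempty_iff_eq_empty] at h
    rw [h] at hEunc
    exact hEunc countable_empty
  have hnotmem : ∀ y, y ∉ G y ∧ y ∉ G' y := by
    intro y
    have h1 : y ∉ G y ∪ G' y := by
      rw [← hcov y]
      exact fun h => h.2 rfl
    exact ⟨fun h => h1 (Or.inl h), fun h => h1 (Or.inr h)⟩
  have hfam : Helper43.CutFam C (E B d a b) a b G G' :=
    { conn := isPreconnected_connectedComponentIn.closure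
      sub := fun y hy => subset_closure hy.1
      ha := subset_closure hy₀.2.2.2.2.1
      hb := subset_closure hy₀.2.2.2.2.2
      openU := fun y _ => hGo y
      openV := fun y _ => hGo' y
      disj := fun y _ => hd y
      cov := by
        intro y hy x hx
        rw [← hcov y]
        exact ⟨hy.2.1 hx.1, hx.2⟩
      notU := fun y _ => (hnotmem y).1
      notV := fun y _ => (hnotmem y).2
      aU := fun y hy => hy.2.2.1
      bV := fun y hy => hy.2.2.2.1 }
  have hloc : ∃ y : X, Helper43.LocTwo y := by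
    obtain ⟨y, hy, hgood⟩ := hfam.exists_good isClosed_closure hEunc
    refine ⟨y, C, mem_of_superset (hVo.mem_nhds hy.1) subset_closure, ?_⟩
    intro W hW
    obtain ⟨u, hu, v, hv, hyu, hyv, huv⟩ := hgood W hW
    refine ⟨u, v, ?_, ?_, ?_⟩
    · rintro rfl
      exact (hnotmem u).2 hyu
    · rintro rfl
      exact (hnotmem v).1 hyv
    intro T hTC hTp hyT huT hvT
    have h1 : T ⊆ G' u := by
      apply hTp.subset_right_of_subset_union (hfam.openU u hu) (hfam.openV u hu) (hfam.disj u hu) _
        ⟨y, hyT, hyu⟩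
      intro x hx
      apply hfam.cov u hu
      exact ⟨hTC hx, fun h => huT (by rw [← (h : x = u)]; exact hx)⟩
    have h2 : T ⊆ G v := by
      apply hTp.subset_left_of_subset_union (hfam.openU v hv) (hfam.openV v hv) (hfam.disj v hv) _
        ⟨y, hyT, hyv⟩
      intro x hx
      apply hfam.cov v hv
      exact ⟨hTC hx, fun h => hvT (by rw [← (h : x = v)]; exact hx)⟩
    intro x hx
    exact huv ⟨⟨hTC hx, h1 hx⟩, h2 hx⟩
  obtain ⟨x, hx⟩ := hloc
  have hall : ∀ y : X, Helper43.LocTwo y := by
    intro y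
    obtain ⟨h, rfl⟩ := hom x y
    exact hx.homeo h
  exact Helper43.circle_of_noTriod hom (Helper43.noTriod_of_locTwo hall) hab₀

end Pool.Agent.HDC
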