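import Mathlib

/-!
# HDC module MM (Mathlib only): compact locally connected metric spaces are locally path connected

(Mazurkiewicz-Moore.)

PROOF. Put `ε n = 2^{-n}`.
(1) For every `n` there is `δ n > 0` with: `dist x y < δ n` implies that there is a connected set
    `C ∋ x, y` with `diam C < ε n` (say `C ⊆ ball x (ε n)`): cover `X` by connected open sets of
    diameter `< ε n`, Lebesgue number. We may take `δ n ≤ ε n` and `δ` decreasing.
(2) In a connected set `C` any two points are joined by a `δ`-chain of points of `C` for every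
    `δ > 0` (the set of points of `C` reachable by `δ`-chains in `C` is relatively clopen).
(3) Let `dist x y < δ N`. Construct for `n ≥ N` natural numbers `M n > 0`, `M N = 1`,
    `M (n+1) = M n * k n`, and `f n : ℕ → X` with `f n 0 = x`, `f n (M n) = y`,
    `dist (f n i) (f n (i+1)) < δ n` for `i < M n`,
    `f (n+1) (k n * i + j)` for `j ≤ k n` a `δ (n+1)`-chain inside a connected set `C_i` of diameter
    `< ε n` containing `f n i` and `f n (i+1)`, starting at `f n i` and ending at `f n (i+1)`.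
    (For each of the finitely many `i < M n` take the chain of (2); give all chains the same length
    `k n ≥ 1` by repeating the last point.)
    So `dist (f (n+1) (k n * i + j)) (f n i) < ε n` for `j ≤ k n`.
(4) Define `g n : ℝ → X`, `g n t = f n ⌊M n * t⌋₊` for `t ∈ [0,1]`. Then
    `dist (g (n+1) t) (g n t) ≤ ε n` (note `⌊⌊k a⌋/k⌋ = ⌊a⌋`: `Nat.floor_div_natCast` or similar), so
    `g n` converges uniformly to `g`, `dist (g t) (g n t) ≤ 2 ε n`; `g` is
    continuous on `[0,1]`: if `|s - t| < 1 / M n` then the floors differ by at most one, so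
    `dist (g n s) (g n t) < δ n`, `dist (g s) (g t) ≤ 4 ε n + δ n ≤ 5 ε n`. `g 0 = x`,
    `g 1 = y`, and `g t ∈ closedBall x (2 ε N)` for all `t` (`g N t ∈ {x, y}` -
    use radius `4 ε N` to be safe).
(5) So `dist x y < δ N` implies that `x` and `y` are joined by a path in `closedBall x (4 ε N)`.
    Hence `X` is locally path connected: for `U ∈ 𝓝 x` choose `N` with
    `closedBall x (4 ε N) ⊆ U`; `V = {y | JoinedIn U x y} = pathComponentIn U x` contains
    `ball x (δ N)`, is path connected and contained in `U`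
    (lemma `LocallyPathConnectedSpace.of_bases` or
    `locallyPathConnectedSpace_iff_pathComponentIn_mem_nhds`).
About 200 lines.
-/

set_option autoImplicit false

open Set Topology Filter Metric

namespace Pool.Agent.HDC

section

variable {X : Type*} [MetricSpace X]

private theorem mm_one [CompactSpace X] [LocallyConnectedSpace X] {ε : ℝ} (hε : 0 < ε) :
    ∃ δ > 0, δ ≤ ε ∧ ∀ x y : X, dist x y < δ →
      ∃ C : Set X, IsPreconnected C ∧ x ∈ C ∧ y ∈ C ∧ ∀ z ∈ C, dist z x < ε := by
  have h1 : ∀ p : X, ∃ V : Set X, IsOpen V ∧ p ∈ V ∧ IsPreconnected V ∧ V ⊆ ball p (ε / 2) := by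
    intro p
    obtain ⟨V, hV, hVo, hpV, hVc⟩ := locallyConnectedSpace_iff_subsets_isOpen_isConnected.mp
      (inferInstance : LocallyConnectedSpace X) p (ball p (ε / 2)) (ball_mem_nhds p (by linarith))
    exact ⟨V, hVo, hpV, hVc.isPreconnected, hV⟩
  choose V hVo hpV hVc hVb using h1
  obtain ⟨δ, hδ, hδV⟩ := lebesgue_number_lemma_of_metric (s := (univ : Set X)) (c := V)
    isCompact_univ hVo (fun x _ => mem_iUnion.mpr ⟨x, hpV x⟩)
  refine ⟨min δ ε, lt_min hδ hε, min_le_right _ _, fun x y hxy => ?_⟩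
  obtain ⟨p, hp⟩ := hδV x (mem_univ x)
  have hx : x ∈ V p := hp (mem_ball_self hδ)
  have hy : y ∈ V p := hp (by rw [mem_ball, dist_comm]; exact hxy.trans_le (min_le_left _ _))
  refine ⟨V p, hVc p, hx, hy, fun z hz => ?_⟩
  have h2 := mem_ball.mp (hVb p hz)
  have h3 := mem_ball.mp (hVb p hx)
  calc dist z x ≤ dist z p + dist x p := dist_triangle_right _ _ _
    _ < ε := by linarith

/-- chains of length `n` -/
private def MmC (C : Set X) (δ : ℝ) (x y : X) (n : ℕ) (c : ℕ → X) : Prop :=
  c 0 = x ∧ c n = y ∧ (∀ i ≤ n, c i ∈ C) ∧ ∀ i < n, dist (c i) (c (i + 1)) < δ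

private theorem mm_snoc {C : Set X} {δ : ℝ} {x y z : X} {n : ℕ} {c : ℕ → X}
    (h : MmC C δ x y n c) (hz : z ∈ C) (hd : dist y z < δ) :
    MmC C δ x z (n + 1) (fun i => if i ≤ n then c i else z) := by
  obtain ⟨h1, h2, h3, h4⟩ := h
  refine ⟨?_, ?_, fun i hi => ?_, fun i hi => ?_⟩
  · simp only [if_pos (Nat.zero_le n)]; exact h1
  · simp only [if_neg (show ¬ n + 1 ≤ n by omega)]
  · by_cases h : i ≤ n
    · simp only [if_pos h]; exact h3 i h
    · simp only [if_neg h]; exact hz
  · by_cases h : i + 1 ≤ n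
    · simp only [if_pos h, if_pos (show i ≤ n by omega)]; exact h4 i (by omega)
    · have hin : i = n := by omega
      subst hin
      simp only [if_neg h, if_pos le_rfl, h2]
      exact hd

private theorem mm_chain {C : Set X} (hC : IsPreconnected C) {δ : ℝ} (hδ : 0 < δ) {x y : X}
    (hx : x ∈ C) (hy : y ∈ C) : ∃ n c, MmC C δ x y n c := by
  by_contra hcon
  set R : Set X := {z | z ∈ C ∧ ∃ n c, MmC C δ x z n c} with hR
  set U : Set X := ⋃ z ∈ R, ball z δ with hU
  set W : Set X := ⋃ z ∈ C \ R, ball z δ with hW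
  have hUo : IsOpen U := isOpen_biUnion fun z _ => isOpen_ball
  have hWo : IsOpen W := isOpen_biUnion fun z _ => isOpen_ball
  have hxR : x ∈ R := ⟨hx, 0, fun _ => x, rfl, rfl, fun i _ => hx, fun i hi =>
    absurd hi (Nat.not_lt_zero i)⟩
  have hcov : C ⊆ U ∪ W := by
    intro z hz
    by_cases h : z ∈ R
    · exact Or.inl (mem_biUnion h (mem_ball_self hδ))
    · exact Or.inr (mem_biUnion (show z ∈ C \ R from ⟨hz, h⟩) (mem_ball_self hδ))
  have hyR : y ∉ R := fun h => hcon h.2
  obtain ⟨w, hwC, hwU, hwW⟩ := hC U W hUo hWo hcov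
    ⟨x, hx, mem_biUnion hxR (mem_ball_self hδ)⟩
    ⟨y, hy, mem_biUnion (show y ∈ C \ R from ⟨hy, hyR⟩) (mem_ball_self hδ)⟩
  obtain ⟨z, hz, hwz⟩ := mem_iUnion₂.mp hwU
  obtain ⟨z', hz', hwz'⟩ := mem_iUnion₂.mp hwW
  obtain ⟨hzC, n, c, hc⟩ := hz
  have h1 := mm_snoc hc hwC (by rw [dist_comm]; exact mem_ball.mp hwz)
  have h2 := mm_snoc h1 hz'.1 (mem_ball.mp hwz')
  exact hz'.2 ⟨hz'.1, _, _, h2⟩

private theorem mm_bound [CompactSpace X] {δ : ℝ} (hδ : 0 < δ) :
    ∃ k : ℕ, 1 ≤ k ∧ ∀ (C : Set X) (x y : X), IsPreconnected C → x ∈ C → y ∈ C →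
      ∃ c : ℕ → X, c 0 = x ∧ c k = y ∧ (∀ i, c i ∈ C) ∧ ∀ i, dist (c i) (c (i + 1)) < δ := by
  classical
  obtain ⟨t, -, ht, htcov⟩ := finite_cover_balls_of_compact (isCompact_univ (X := X))
    (show 0 < δ / 2 by linarith)
  set T := ht.toFinset with hT
  refine ⟨2 * T.card + 1, by omega, fun C x y hC hx hy => ?_⟩
  have hex := mm_chain hC hδ hx hy
  obtain ⟨c, hc⟩ := Nat.find_spec hex
  have hmin : ∀ m < Nat.find hex, ¬ ∃ c, MmC C δ x y m c := fun m hm => Nat.find_min hex hm
  set n := Nat.find hex with hn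
  clear_value n
  obtain ⟨h1, h2, h3, h4⟩ := hc
  have hnk : n < 2 * T.card + 1 := by
    by_contra hcon
    push Not at hcon
    have hcen : ∀ z : X, ∃ p ∈ T, dist z p < δ / 2 := by
      intro z
      obtain ⟨p, hp, hz⟩ := mem_iUnion₂.mp (htcov (mem_univ z))
      exact ⟨p, ht.mem_toFinset.mpr hp, mem_ball.mp hz⟩
    choose φ hφT hφd using hcen
    obtain ⟨a, b, hab, hφab⟩ : ∃ a b : Fin (T.card + 1), a < b ∧
        φ (c (2 * a)) = φ (c (2 * b)) := by
      have hcard : Fintype.card T < Fintype.card (Fin (T.card + 1)) := by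
        rw [Fintype.card_coe, Fintype.card_fin]
        omega
      obtain ⟨a, b, hne, hab⟩ := Fintype.exists_ne_map_eq_of_card_lt
        (fun i : Fin (T.card + 1) => (⟨φ (c (2 * i)), hφT _⟩ : T)) hcard
      have hab' : φ (c (2 * a)) = φ (c (2 * b)) := congrArg Subtype.val hab
      rcases lt_or_gt_of_ne hne with h | h
      · exact ⟨a, b, h, hab'⟩
      · exact ⟨b, a, h, hab'.symm⟩
    have hab' : (a : ℕ) < b := hab
    have hb : (b : ℕ) ≤ T.card := by have := b.2; omega
    have hdist : dist (c (2 * a)) (c (2 * b)) < δ := by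
      have h5 := hφd (c (2 * a))
      have h6 := hφd (c (2 * b))
      rw [← hφab] at h6
      calc dist (c (2 * a)) (c (2 * b))
          ≤ dist (c (2 * a)) (φ (c (2 * a))) + dist (c (2 * b)) (φ (c (2 * a))) :=
            dist_triangle_right _ _ _
        _ < δ := by linarith
    obtain ⟨m, hm⟩ : ∃ m, 2 * (b : ℕ) = 2 * a + 1 + m := ⟨2 * b - 2 * a - 1, by omega⟩
    refine hmin (n - m) (by omega) ⟨fun i => if i ≤ 2 * a then c i else c (i + m), ?_, ?_,
      fun i hi => ?_, fun i hi => ?_⟩
    · simp only [if_pos (Nat.zero_le _)]; exact h1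
    · simp only [if_neg (show ¬ n - m ≤ 2 * a by omega)]
      rw [show n - m + m = n by omega]
      exact h2
    · by_cases h : i ≤ 2 * a
      · simp only [if_pos h]; exact h3 i (by omega)
      · simp only [if_neg h]; exact h3 (i + m) (by omega)
    · by_cases h : i + 1 ≤ 2 * a
      · simp only [if_pos h, if_pos (show i ≤ 2 * a by omega)]; exact h4 i (by omega)
      · by_cases h' : i ≤ 2 * a
        · have hi2 : i = 2 * a := by omega
          simp only [if_neg h, if_pos h']
          rw [hi2, show 2 * (a : ℕ) + 1 + m = 2 * b by omega]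
          exact hdist
        · simp only [if_neg h, if_neg h']
          have := h4 (i + m) (by omega)
          rw [show i + 1 + m = i + m + 1 by omega]
          exact this
  refine ⟨fun i => if i ≤ n then c i else y, ?_, ?_, fun i => ?_, fun i => ?_⟩
  · simp only [if_pos (Nat.zero_le n)]; exact h1
  · simp only [if_neg (show ¬ 2 * T.card + 1 ≤ n by omega)]
  · by_cases h : i ≤ n
    · simp only [if_pos h]; exact h3 i h
    · simp only [if_neg h]; exact hy
  · by_cases h : i + 1 ≤ n
    · simp only [if_pos h, if_pos (show i ≤ n by omega)]; exact h4 i (by omega)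
    · by_cases h' : i ≤ n
      · have hin : i = n := by omega
        simp only [if_neg h, if_pos h']
        rw [hin, h2, dist_self]
        exact hδ
      · simp only [if_neg h, if_neg h', dist_self]
        exact hδ

/-- the construction of the path -/
private theorem mm_path [CompactSpace X] {ε δ : ℕ → ℝ} {k : ℕ → ℕ} (hk : ∀ n, 1 ≤ k n)
    (hε : ∀ n, 0 < ε n) (hε2 : ∀ n, ε (n + 1) ≤ ε n / 2) (hδε : ∀ n, δ n ≤ ε n)
    (hδ : ∀ n, 0 < δ n)
    (hR : ∀ n (x y : X), dist x y < δ n → ∃ c : ℕ → X, c 0 = x ∧ c (k n) = y ∧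
      (∀ i, dist (c i) x < ε n) ∧ ∀ i, dist (c i) (c (i + 1)) < δ (n + 1))
    {x y : X} (hxy : dist x y < δ 0) :
    ∃ γ : ℝ → X, ContinuousOn γ (Icc 0 1) ∧ γ 0 = x ∧ γ 1 = y ∧
      ∀ t ∈ Icc (0 : ℝ) 1, dist (γ t) x ≤ 3 * ε 0 := by
  classical
  have hR' : ∀ n (x y : X), ∃ c : ℕ → X, dist x y < δ n → (c 0 = x ∧ c (k n) = y ∧
      (∀ i, dist (c i) x < ε n) ∧ ∀ i, dist (c i) (c (i + 1)) < δ (n + 1)) := by
    intro n x y
    by_cases h : dist x y < δ n
    · obtain ⟨c, hc⟩ := hR n x y h
      exact ⟨c, fun _ => hc⟩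
    · exact ⟨fun _ => x, fun h' => absurd h' h⟩
  choose R hR using hR'
  let f : ℕ → ℕ → X := fun n => Nat.rec (fun i => if i = 0 then x else y)
    (fun n g m => R n (g (m / k n)) (g (m / k n + 1)) (m % k n)) n
  have hf0 : ∀ i, f 0 i = if i = 0 then x else y := fun i => rfl
  have hfs : ∀ n m, f (n + 1) m = R n (f n (m / k n)) (f n (m / k n + 1)) (m % k n) :=
    fun n m => rfl
  have hfd : ∀ n i, dist (f n i) (f n (i + 1)) < δ n := by
    intro n
    induction n with
    | zero =>
      intro i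
      rw [hf0, hf0, if_neg (show i + 1 ≠ 0 by omega)]
      by_cases h : i = 0
      · rw [if_pos h]; exact hxy
      · rw [if_neg h, dist_self]; exact hδ 0
    | succ n ih =>
      intro m
      obtain ⟨r0, rk, _, rd⟩ := hR n _ _ (ih (m / k n))
      rw [hfs, hfs]
      have hkn := hk n
      by_cases h : m % k n + 1 < k n
      · have h1 : (m + 1) / k n = m / k n := by
          rw [Nat.add_div (by omega), Nat.mod_eq_of_lt (show 1 < k n by omega),
            Nat.div_eq_of_lt (show 1 < k n by omega), if_neg (by omega), add_zero, add_zero]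
        have h2 : (m + 1) % k n = m % k n + 1 := by
          rw [Nat.add_mod, Nat.mod_eq_of_lt (show 1 < k n by omega), Nat.mod_eq_of_lt h]
        rw [h1, h2]
        exact rd _
      · have hlt : m % k n < k n := Nat.mod_lt _ (by omega)
        have h3 : m % k n + 1 = k n := by omega
        have h4 : m + 1 = k n * (m / k n + 1) := by
          have := Nat.div_add_mod m (k n)
          rw [mul_add, mul_one]
          omega
        have h1 : (m + 1) / k n = m / k n + 1 := by
          rw [h4, Nat.mul_div_cancel_left _ (by omega)]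
        have h2 : (m + 1) % k n = 0 := by
          rw [h4, Nat.mul_mod_right]
        rw [h1, h2]
        obtain ⟨r0', _, _, _⟩ := hR n _ _ (ih (m / k n + 1))
        have hh := rd (m % k n)
        rw [h3, rk] at hh
        rw [r0']
        exact hh
  have hfe : ∀ n m, dist (f (n + 1) m) (f n (m / k n)) < ε n := by
    intro n m
    rw [hfs]
    exact (hR n _ _ (hfd n _)).2.2.1 _
  obtain ⟨M, hM0, hMs⟩ : ∃ M : ℕ → ℕ, M 0 = 1 ∧ ∀ n, M (n + 1) = M n * k n :=
    ⟨fun n => Nat.rec 1 (fun n m => m * k n) n, rfl, fun n => rfl⟩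
  have hMpos : ∀ n, 0 < M n := by
    intro n
    induction n with
    | zero => rw [hM0]; exact one_pos
    | succ n ih => rw [hMs]; exact Nat.mul_pos ih (hk n)
  have hfx : ∀ n, f n 0 = x := by
    intro n
    induction n with
    | zero => rw [hf0, if_pos rfl]
    | succ n ih =>
      rw [hfs, Nat.zero_div, Nat.zero_mod, (hR n _ _ (hfd n _)).1, ih]
  have hfy : ∀ n, f n (M n) = y := by
    intro n
    induction n with
    | zero => rw [hf0, hM0, if_neg one_ne_zero]
    | succ n ih =>
      have hkn := hk n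
      rw [hfs, hMs, Nat.mul_div_cancel _ (by omega), Nat.mul_mod_left,
        (hR n _ _ (hfd n _)).1, ih]
  set g : ℕ → ℝ → X := fun n t => f n ⌊(M n : ℝ) * t⌋₊ with hg
  have hge : ∀ n t, dist (g (n + 1) t) (g n t) < ε n := by
    intro n t
    have hkn : (k n : ℝ) ≠ 0 := by
      have := hk n
      exact_mod_cast (show k n ≠ 0 by omega)
    have h1 : ⌊(M (n + 1) : ℝ) * t⌋₊ / k n = ⌊(M n : ℝ) * t⌋₊ := by
      rw [← Nat.floor_div_natCast, hMs]
      congr 1
      push_cast
      field_simp
    have h2 := hfe n ⌊(M (n + 1) : ℝ) * t⌋₊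
    rw [h1] at h2
    exact h2
  have hεn : ∀ n, ε n ≤ ε 0 * (1 / 2) ^ n := by
    intro n
    induction n with
    | zero => simp
    | succ n ih =>
      have := hε2 n
      rw [pow_succ]
      linarith
  have hεlim : Tendsto ε atTop (𝓝 0) := by
    have h2 : Tendsto (fun n : ℕ => ε 0 * (1 / 2 : ℝ) ^ n) atTop (𝓝 0) := by
      have := (tendsto_pow_atTop_nhds_zero_of_lt_one (r := (1 / 2 : ℝ)) (by norm_num)
        (by norm_num)).const_mul (ε 0)
      rwa [mul_zero] at this
    exact squeeze_zero (fun n => (hε n).le) hεn h2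
  have hgd : ∀ m n t, n ≤ m → dist (g m t) (g n t) ≤ 2 * ε n - 2 * ε m := by
    intro m n t hnm
    induction m, hnm using Nat.le_induction with
    | base => rw [dist_self]; linarith
    | succ m _ ih =>
      have h1 := hge m t
      have h2 := hε2 m
      calc dist (g (m + 1) t) (g n t) ≤ dist (g (m + 1) t) (g m t) + dist (g m t) (g n t) :=
            dist_triangle _ _ _
        _ ≤ 2 * ε n - 2 * ε (m + 1) := by linarith
  have hcau : ∀ t, CauchySeq fun n => g n t := by
    intro t
    refine cauchySeq_of_le_tendsto_0 (fun n => 4 * ε n) (fun a b N ha hb => ?_) ?_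
    · have h1 := hgd a N t ha
      have h2 := hgd b N t hb
      have h3 := hε a
      have h4 := hε b
      calc dist (g a t) (g b t) ≤ dist (g a t) (g N t) + dist (g b t) (g N t) :=
            dist_triangle_right _ _ _
        _ ≤ 4 * ε N := by linarith
    · have := hεlim.const_mul 4
      rwa [mul_zero] at this
  have hlim : ∀ t, ∃ z, Tendsto (fun n => g n t) atTop (𝓝 z) := fun t =>
    cauchySeq_tendsto_of_complete (hcau t)
  choose γ hγ using hlim
  have hγd : ∀ n t, dist (γ t) (g n t) ≤ 2 * ε n := by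
    intro n t
    refine le_of_tendsto ((hγ t).dist tendsto_const_nhds) ?_
    filter_upwards [eventually_ge_atTop n] with m hm
    have h1 := hgd m n t hm
    have h2 := hε m
    linarith
  have hgg : ∀ (n : ℕ) (s t : ℝ), 0 ≤ s → 0 ≤ t → |s - t| < 1 / (M n : ℝ) →
      dist (g n s) (g n t) ≤ δ n := by
    intro n s t hs ht hst
    have hMn : (0 : ℝ) < M n := by exact_mod_cast hMpos n
    have h1 : |(M n : ℝ) * s - M n * t| < 1 := by
      rw [← mul_sub, abs_mul, abs_of_pos hMn, mul_comm, ← lt_div_iff₀ hMn]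
      exact hst
    have h2 : ∀ a b : ℝ, 0 ≤ a → 0 ≤ b → a ≤ b → b - a < 1 →
        ⌊b⌋₊ = ⌊a⌋₊ ∨ ⌊b⌋₊ = ⌊a⌋₊ + 1 := by
      intro a b ha hb hab hba
      have h3 : ⌊a⌋₊ ≤ ⌊b⌋₊ := Nat.floor_mono hab
      have h4 : ⌊b⌋₊ < ⌊a⌋₊ + 2 := by
        rw [Nat.floor_lt hb]
        have := Nat.lt_floor_add_one a
        push_cast
        linarith
      omega
    rw [abs_lt] at h1
    rcases le_total s t with h | h
    · have h5 := h2 (M n * s) (M n * t) (by positivity) (by positivity)
        (mul_le_mul_of_nonneg_left h hMn.le) (by linarith)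
      rcases h5 with h5 | h5
      · have : g n s = g n t := by rw [hg]; simp only [h5]
        rw [this, dist_self]
        exact (hδ n).le
      · have : g n t = f n (⌊(M n : ℝ) * s⌋₊ + 1) := by rw [hg]; simp only [h5]
        rw [this]
        exact (hfd n _).le
    · have h5 := h2 (M n * t) (M n * s) (by positivity) (by positivity)
        (mul_le_mul_of_nonneg_left h hMn.le) (by linarith)
      rcases h5 with h5 | h5
      · have : g n s = g n t := by rw [hg]; simp only [h5]
        rw [this, dist_self]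
        exact (hδ n).le
      · have : g n s = f n (⌊(M n : ℝ) * t⌋₊ + 1) := by rw [hg]; simp only [h5]
        rw [this, dist_comm]
        exact (hfd n _).le
  refine ⟨γ, ?_, ?_, ?_, ?_⟩
  · rw [Metric.continuousOn_iff]
    intro t ht η hη
    obtain ⟨n, hn⟩ := (hεlim.eventually (gt_mem_nhds (show (0 : ℝ) < η / 5 by linarith))).exists
    have hMn : (0 : ℝ) < M n := by exact_mod_cast hMpos n
    refine ⟨1 / (M n : ℝ), by positivity, fun s hs hst => ?_⟩
    have h1 := hgg n s t hs.1 ht.1 (by rw [← Real.dist_eq]; exact hst)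
    have h2 := hγd n s
    have h3 := hγd n t
    have h4 := hδε n
    calc dist (γ s) (γ t) ≤ dist (γ s) (g n s) + dist (g n s) (g n t) + dist (g n t) (γ t) :=
          dist_triangle4 _ _ _ _
      _ < η := by rw [dist_comm (g n t)]; linarith
  · refine tendsto_nhds_unique (hγ 0) ?_
    have : (fun n => g n 0) = fun _ => x := by
      funext n
      rw [hg]
      simp only [mul_zero, Nat.floor_zero]
      exact hfx n
    rw [this]
    exact tendsto_const_nhds
  · refine tendsto_nhds_unique (hγ 1) ?_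
    have : (fun n => g n 1) = fun _ => y := by
      funext n
      rw [hg]
      simp only [mul_one, Nat.floor_natCast]
      exact hfy n
    rw [this]
    exact tendsto_const_nhds
  · intro t _
    have h1 := hγd 0 t
    have h2 : dist (g 0 t) x ≤ ε 0 := by
      change dist (f 0 _) x ≤ ε 0
      rw [hf0]
      split_ifs
      · rw [dist_self]; exact (hε 0).le
      · rw [dist_comm]; exact hxy.le.trans (hδε 0)
    calc dist (γ t) x ≤ dist (γ t) (g 0 t) + dist (g 0 t) x := dist_triangle _ _ _
      _ ≤ 3 * ε 0 := by linarith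

private theorem mm_joined [CompactSpace X] [LocallyConnectedSpace X] {ε : ℝ} (hε : 0 < ε) :
    ∃ δ > 0, ∀ x y : X, dist x y < δ → JoinedIn (closedBall x (3 * ε)) x y := by
  have hε' : ∀ n : ℕ, 0 < ε / 2 ^ n := fun n => by positivity
  choose δ hδ hδε hC using fun n : ℕ => mm_one (X := X) (hε' n)
  choose k hk hkc using fun n : ℕ => mm_bound (X := X) (hδ (n + 1))
  refine ⟨δ 0, hδ 0, fun x y hxy => ?_⟩
  obtain ⟨γ, hγ, h0, h1, hb⟩ := mm_path (X := X) (ε := fun n => ε / 2 ^ n) (δ := δ) (k := k) hk hε'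
    (fun n => by rw [pow_succ]; exact le_of_eq (by field_simp)) hδε hδ (fun n x y hxy => by
      obtain ⟨C, hCc, hxC, hyC, hCd⟩ := hC n x y hxy
      obtain ⟨c, c1, c2, c3, c4⟩ := hkc n C x y hCc hxC hyC
      exact ⟨c, c1, c2, fun i => hCd _ (c3 i), c4⟩) hxy
  refine JoinedIn.ofLine hγ h0 h1 ?_
  rintro _ ⟨t, ht, rfl⟩
  rw [mem_closedBall]
  have := hb t ht
  simpa using this

end

theorem locPathConnected_of_locallyConnected (X : Type*) [MetricSpace X] [CompactSpace X]
    [LocallyConnectedSpace X] : LocallyPathConnectedSpace X := by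
  rw [locallyPathConnectedSpace_iff_pathComponentIn_mem_nhds]
  intro x U hU hxU
  obtain ⟨ε, hε, hεU⟩ := nhds_basis_closedBall.mem_iff.mp (hU.mem_nhds hxU)
  obtain ⟨δ, hδ, h⟩ := mm_joined (X := X) (show 0 < ε / 3 by linarith)
  refine Filter.mem_of_superset (ball_mem_nhds x hδ) fun y hy => ?_
  rw [mem_ball, dist_comm] at hy
  refine (h x y hy).mono ?_
  rw [show 3 * (ε / 3) = ε by ring]
  exact hεU

end Pool.Agent.HDC
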