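import Mathlib
import Pool.Agent.HDC.MM
import Pool.Agent.HDC.LocCut
import Pool.Agent.HDC.StepA
import Pool.Agent.HDC.Iter

/-!
# HDC: the case of a locally connected space
-/

set_option autoImplicit false

open Set Topology Filter Metric

namespace Pool.Agent.HDC

open Pool.Agent.Helper43 in
/-- A homogeneous compact connected locally connected metric space with more than one point is a
circle or contains a nondegenerate indecomposable continuum. -/
theorem circle_of_locallyConnected {X : Type*} [MetricSpace X] [CompactSpace X]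
    [ConnectedSpace X] [Nontrivial X] [LocallyConnectedSpace X] (hom : Hom X)
    (hnd : ¬ ∃ Y : Set X, Ctm Y ∧ Y.Nontrivial ∧ Indec Y) : Nonempty (X ≃ₜ Circle) := by
  haveI : LocallyPathConnectedSpace X := locPathConnected_of_locallyConnected X
  haveI : PathConnectedSpace X := pathConnectedSpace_iff_connectedSpace.2 inferInstance
  by_cases hcut : ∃ U : Set X, IsOpen U ∧ IsConnected U ∧ ∃ y ∈ U, ¬ IsPreconnected (U \ {y})
  · exact circle_of_localCut hom hcut
  exfalso
  push Not at hcut
  obtain ⟨a, b, hab⟩ := exists_pair_ne X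
  obtain ⟨A, hA⟩ := exists_isArc hab
  apply hnd
  let S := {A : Set X // ∃ a b : X, IsArc A a b}
  refine exists_indec (S := S) (fun s => s.1) (fun s => s.1) (fun s => ?_) (fun s => subset_rfl)
    (fun s => ?_) ⟨A, a, b, hA⟩ ⟨a, hA.left_mem, b, hA.right_mem, hA.ne⟩ (fun s ε hε => ?_)
  · obtain ⟨A, a, b, hA⟩ := s
    exact ⟨hA.isClosed, ⟨a, hA.left_mem⟩, hA.isPreconnected⟩
  · obtain ⟨A, a, b, hA⟩ := s
    exact hA.isClosed
  · obtain ⟨A, a, b, hA⟩ := s
    obtain ⟨A', a', b', hA', hs⟩ := arc_step hcut hA hε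
    exact ⟨⟨A', a', b', hA'⟩, hs⟩

end Pool.Agent.HDC
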