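import Mathlib
import Pool.Agent.HDC.Defs

/-!
# HDC module DICHO: a homogeneous compact metric space is locally connected or has no small
connected set with interior points

PROOF. For `r > 0` let `D r` be the union of the interiors of all connected sets `C` with
`diam C < r`. `D r` is open. Suppose the second alternative fails: `D r ≠ ∅` for all `r > 0`.
`D r` is dense: let `O ≠ ∅` be open. By homogeneity and compactness `X = g₁ O ∪ ... ∪ g_m O` for
finitely many homeomorphisms. By uniform continuity choose `r' > 0` such that `g_i⁻¹` maps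
every set of diameter `< r'` to a set of diameter `< r`. Choose `x ∈ D r'`, i.e. `x ∈ int C`,
`C` connected, `diam C < r'`; `x ∈ g_i O` for some `i`; then `g_i⁻¹ x ∈ O` lies in the interior of
the connected set `g_i⁻¹ C` of diameter `< r`. By Baire there is a point
`x ∈ ⋂_n D (1/(n+1))`. So `x` has connected neighbourhoods of arbitrarily small diameter. Every
`y : X` is `h x` for a homeomorphism `h`, and by (uniform) continuity of `h` also `y` has
arbitrarily small connected neighbourhoods.
`locallyConnectedSpace_iff_connected_subsets` gives local connectedness.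
About 80 lines. (All sets are bounded since `X` is compact.)
-/

set_option autoImplicit false

open Set Topology Filter Metric

namespace Pool.Agent.HDC

private theorem dc_dist {X : Type*} [MetricSpace X] [CompactSpace X] {C : Set X} {a b : X}
    (ha : a ∈ C) (hb : b ∈ C) : dist a b ≤ diam C :=
  dist_le_diam_of_mem (isCompact_univ.isBounded.subset (subset_univ _)) ha hb

private theorem dc_dense {X : Type*} [MetricSpace X] [CompactSpace X] [Nonempty X] (hom : Hom X)
    (h : ∀ r > 0, ∃ C : Set X, IsConnected C ∧ diam C < r ∧ (interior C).Nonempty) {r : ℝ}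
    (hr : 0 < r) : Dense {x : X | ∃ C : Set X, IsConnected C ∧ diam C < r ∧ x ∈ interior C} := by
  classical
  rw [dense_iff_inter_open]
  rintro O hO ⟨o, ho⟩
  choose g hg using fun x : X => hom o x
  obtain ⟨t, ht⟩ := isCompact_univ.elim_finite_subcover (fun x : X => g x '' O)
    (fun x => (g x).isOpenMap O hO) (fun x _ => mem_iUnion.mpr ⟨x, o, ho, hg x⟩)
  have htne : t.Nonempty := by
    obtain ⟨x⟩ := ‹Nonempty X›
    obtain ⟨y, hy⟩ := mem_iUnion.mp (ht (mem_univ x))
    obtain ⟨hyt, _⟩ := mem_iUnion.mp hy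
    exact ⟨y, hyt⟩
  have huc : ∀ x : X, ∃ δ > 0, ∀ a b : X, dist a b < δ → dist ((g x).symm a) ((g x).symm b) < r / 2 :=
    fun x => by
      obtain ⟨δ, hδ, h1⟩ := Metric.uniformContinuous_iff.mp
        (CompactSpace.uniformContinuous_of_continuous (g x).symm.continuous) (r / 2) (by linarith)
      exact ⟨δ, hδ, fun a b hab => h1 hab⟩
  choose δ hδ hδg using huc
  obtain ⟨C, hC, hCd, c, hc⟩ := h (t.inf' htne δ) ((Finset.lt_inf'_iff htne).mpr fun x _ => hδ x)
  obtain ⟨x, hx⟩ := mem_iUnion.mp (ht (mem_univ c))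
  obtain ⟨hxt, hx⟩ := mem_iUnion.mp hx
  obtain ⟨z, hz, hzc⟩ := hx
  have hzc' : (g x).symm c = z := by rw [← hzc]; exact (g x).symm_apply_apply z
  refine ⟨z, hz, (g x).symm '' C, hC.image _ (g x).symm.continuous.continuousOn, ?_, ?_⟩
  · have h1 : diam ((g x).symm '' C) ≤ r / 2 := by
      refine diam_le_of_forall_dist_le (by linarith) ?_
      rintro _ ⟨a, ha, rfl⟩ _ ⟨b, hb, rfl⟩
      refine (hδg x a b ?_).le
      exact (dc_dist ha hb).trans_lt (hCd.trans_le (Finset.inf'_le δ hxt))
    linarith
  · rw [← (g x).symm.image_interior]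
    exact ⟨c, hc, hzc'⟩

theorem dichotomy {X : Type*} [MetricSpace X] [CompactSpace X] [Nonempty X] (hom : Hom X) :
    LocallyConnectedSpace X ∨
      ∃ r > 0, ∀ C : Set X, IsConnected C → diam C < r → interior C = ∅ := by
  by_cases hcase : ∃ r > 0, ∀ C : Set X, IsConnected C → diam C < r → interior C = ∅
  · exact Or.inr hcase
  · left
    have h : ∀ r > 0, ∃ C : Set X, IsConnected C ∧ diam C < r ∧ (interior C).Nonempty := by
      intro r hr
      by_contra hcon
      apply hcase
      refine ⟨r, hr, fun C hC hCd => ?_⟩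
      by_contra hne
      exact hcon ⟨C, hC, hCd, nonempty_iff_ne_empty.mpr hne⟩
    have hopen : ∀ r : ℝ, IsOpen {x : X | ∃ C : Set X, IsConnected C ∧ diam C < r ∧
        x ∈ interior C} := by
      intro r
      rw [isOpen_iff_mem_nhds]
      rintro x ⟨C, hC, hCd, hx⟩
      filter_upwards [isOpen_interior.mem_nhds hx] with y hy
      exact ⟨C, hC, hCd, hy⟩
    have hd : Dense (⋂ n : ℕ, {x : X | ∃ C : Set X, IsConnected C ∧
        diam C < 1 / ((n : ℝ) + 1) ∧ x ∈ interior C}) :=
      dense_iInter_of_isOpen (fun n => hopen _) fun n => dc_dense hom h Nat.one_div_pos_of_nat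
    obtain ⟨x, hx⟩ := hd.nonempty
    rw [locallyConnectedSpace_iff_connected_subsets]
    intro y U hU
    obtain ⟨g, hg⟩ := hom x y
    have hU' : g ⁻¹' U ∈ 𝓝 x := by
      apply g.continuous.continuousAt
      rw [hg]
      exact hU
    obtain ⟨s, hs, hsU⟩ := Metric.mem_nhds_iff.mp hU'
    obtain ⟨n, hn⟩ := exists_nat_one_div_lt hs
    obtain ⟨C, hC, hCd, hxC⟩ := mem_iInter.mp hx n
    refine ⟨g '' C, ?_, (hC.image g g.continuous.continuousOn).isPreconnected, ?_⟩
    · have h1 : IsOpen (g '' interior C) := g.isOpenMap _ isOpen_interior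
      refine Filter.mem_of_superset (h1.mem_nhds ⟨x, hxC, hg⟩) (image_mono interior_subset)
    · rintro _ ⟨z, hz, rfl⟩
      apply hsU
      rw [mem_ball]
      exact (dc_dist hz (interior_subset hxC)).trans_lt (hCd.trans hn)

end Pool.Agent.HDC
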