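import Mathlib
import Pool.Agent.HDC.Defs
import Pool.Agent.HDC.Hyper

/-!
# HDC module HUBCORE: the hub continuum from a nonmeagre class

PROOF. For `n : ℕ` let `T n` be the set of `K : Fin n → NonemptyCompacts X` such that every `K i` is
connected with `diam (K i) ≤ r`, `⋃ i, K i` is connected and `x ∈ ⋃ i, K i`. The space
`Fin n → NonemptyCompacts X` is compact metric, and `T n` is closed in it (limits of connected
compact sets are connected, `diam` is continuous / lower bounds pass to the limit, the union map is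
continuous: `K_m i → K i` for all `i` implies `⋃ K_m i → ⋃ K i`; a limit of sets containing `x`
contains `x`). For a closed `C ⊆ T n` put `E C = ⋃_{K ∈ C} ⋃ i, K i ⊆ X`; `E C` is closed
(if `y_m ∈ K_m i_m`, `y_m → y`, pass to a subsequence with `i_m` constant and `K_m → K ∈ C`; then
`y ∈ K i`).
`Cls r x = ⋃_n E (T n)` is not meagre, so for some `n` the closed set `E (T n)` has nonempty
interior (a closed set with empty interior is nowhere dense; countable unions).
Claim: some `K⁰ ∈ T n` is such that for every `ε > 0` the set `E (T n ∩ closedBall K⁰ ε)` has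
nonempty interior. Otherwise every `K ∈ T n` has an `ε_K > 0` with `E (T n ∩ closedBall K ε_K)` of
empty interior; by compactness finitely many balls `ball K ε_K` cover `T n`, so `E (T n)` is a finite
union of closed sets with empty interior and has empty interior: contradiction.
Put `A = ⋃ i, K⁰ i` and, for given `ε`, `O = interior (E (T n ∩ closedBall K⁰ (ε/2)))`: for `y ∈ O`
there is `K ∈ T n`, at distance `≤ ε/2` from `K⁰`, with `y ∈ B := ⋃ i, K i`, and
`B ⊆ thickening ε A`. About 150 lines. (It is equally possible to argue with sequences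
and the lemma `exists_limit` of HYPER, applied to each coordinate.)
-/

set_option autoImplicit false

open Set Topology Filter Metric

namespace Pool.Agent.HDC

private theorem hc_lim {X : Type*} [MetricSpace X] {A : Set X} (hA : IsClosed A) {y : ℕ → X}
    {z : X} (hy : Tendsto y atTop (𝓝 z)) (h : ∀ ε > 0, ∀ᶠ n in atTop, y n ∈ thickening ε A) :
    z ∈ A := by
  rw [← hA.closure_eq, Metric.mem_closure_iff]
  intro ε hε
  obtain ⟨n, hn1, hn2⟩ := ((h (ε / 2) (by linarith)).and
    (Metric.tendsto_nhds.mp hy (ε / 2) (by linarith))).exists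
  obtain ⟨b, hb, hbn⟩ := mem_thickening_iff.mp hn1
  refine ⟨b, hb, ?_⟩
  calc dist z b ≤ dist z (y n) + dist (y n) b := dist_triangle _ _ _
    _ < ε := by rw [dist_comm z]; linarith

/-- a limit of connected sets is connected -/
private theorem hc_conn {X : Type*} [MetricSpace X] [CompactSpace X] {K : ℕ → Set X}
    (hK : ∀ n, IsConnected (K n)) {K' : Set X} (hc : IsClosed K')
    (h : ∀ ε > 0, ∀ᶠ n in atTop, K n ⊆ thickening ε K' ∧ K' ⊆ thickening ε (K n)) :
    IsPreconnected K' := by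
  rw [isPreconnected_iff_subset_of_disjoint_closed]
  intro u v hu hv huv hd
  by_contra hcon
  rw [not_or] at hcon
  obtain ⟨hnu, hnv⟩ := hcon
  obtain ⟨a, ha, hau⟩ := not_subset.mp hnu
  obtain ⟨b, hb, hbv⟩ := not_subset.mp hnv
  have hav : a ∈ v := (huv ha).resolve_left hau
  have hbu : b ∈ u := (huv hb).resolve_right hbv
  have hdisj : Disjoint (K' ∩ u) (K' ∩ v) := by
    rw [Set.disjoint_left]
    rintro z ⟨hz, hzu⟩ ⟨_, hzv⟩
    have : z ∈ K' ∩ (u ∩ v) := ⟨hz, hzu, hzv⟩
    rw [hd] at this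
    exact this
  obtain ⟨ε, hε, hεd⟩ := hdisj.exists_thickenings (hc.inter hu).isCompact (hc.inter hv)
  obtain ⟨n, hn1, hn2⟩ := (h ε hε).exists
  have hcov : K n ⊆ thickening ε (K' ∩ u) ∪ thickening ε (K' ∩ v) := by
    intro z hz
    obtain ⟨w, hw, hzw⟩ := mem_thickening_iff.mp (hn1 hz)
    rcases huv hw with h1 | h1
    · exact Or.inl (mem_thickening_iff.mpr ⟨w, ⟨hw, h1⟩, hzw⟩)
    · exact Or.inr (mem_thickening_iff.mpr ⟨w, ⟨hw, h1⟩, hzw⟩)
  obtain ⟨a', ha', haa⟩ := mem_thickening_iff.mp (hn2 ha)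
  obtain ⟨b', hb', hbb⟩ := mem_thickening_iff.mp (hn2 hb)
  have ha2 : a' ∈ thickening ε (K' ∩ v) :=
    mem_thickening_iff.mpr ⟨a, ⟨ha, hav⟩, by rw [dist_comm]; exact haa⟩
  have hb2 : b' ∈ thickening ε (K' ∩ u) :=
    mem_thickening_iff.mpr ⟨b, ⟨hb, hbu⟩, by rw [dist_comm]; exact hbb⟩
  rcases (hK n).isPreconnected.subset_or_subset isOpen_thickening isOpen_thickening hεd hcov
    with h1 | h1
  · exact Set.disjoint_left.mp hεd (h1 ha') ha2
  · exact Set.disjoint_left.mp hεd hb2 (h1 hb')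

open TopologicalSpace in
private theorem hc_dist {X : Type*} [MetricSpace X] {P Q : NonemptyCompacts X} {ε : ℝ}
    (h : dist P Q < ε) : (P : Set X) ⊆ thickening ε (Q : Set X) := by
  intro z hz
  have hn : hausdorffDist (P : Set X) (Q : Set X) < ε := h
  obtain ⟨w, hw, hzw⟩ := exists_dist_lt_of_hausdorffDist_lt hz hn
    (hausdorffEDist_ne_top_of_nonempty_of_bounded P.nonempty Q.nonempty P.isCompact.isBounded
      Q.isCompact.isBounded)
  exact mem_thickening_iff.mpr ⟨w, hw, hzw⟩

open TopologicalSpace in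
/-- the families of connected sets of diameter at most `r` whose union is connected and contains
`x` -/
private def hcT {X : Type*} [MetricSpace X] (r : ℝ) (x : X) (n : ℕ) :
    Set (Fin n → NonemptyCompacts X) :=
  {K | (∀ i, IsConnected (K i : Set X) ∧ diam (K i : Set X) ≤ r) ∧
    IsConnected (⋃ i, (K i : Set X)) ∧ x ∈ ⋃ i, (K i : Set X)}

open TopologicalSpace in
/-- the points covered by the members of a set of families -/
private def hcE {X : Type*} [MetricSpace X] {n : ℕ} (C : Set (Fin n → NonemptyCompacts X)) :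
    Set X := {y | ∃ K ∈ C, ∃ i, y ∈ (K i : Set X)}

open TopologicalSpace in
private theorem hcT_closed {X : Type*} [MetricSpace X] [CompactSpace X] (r : ℝ) (x : X)
    (n : ℕ) : IsClosed (hcT r x n) := by
  apply IsSeqClosed.isClosed
  intro u K hu hK
  have hi : ∀ i, ∀ ε > 0, ∀ᶠ m in atTop, (u m i : Set X) ⊆ thickening ε (K i : Set X) ∧
      (K i : Set X) ⊆ thickening ε (u m i : Set X) := by
    intro i ε hε
    filter_upwards [Metric.tendsto_nhds.mp (tendsto_pi_nhds.mp hK i) ε hε] with m hm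
    refine ⟨hc_dist hm, hc_dist ?_⟩
    rw [dist_comm]
    exact hm
  have hU : ∀ ε > 0, ∀ᶠ m in atTop,
      (⋃ i, (u m i : Set X)) ⊆ thickening ε (⋃ i, (K i : Set X)) ∧
      (⋃ i, (K i : Set X)) ⊆ thickening ε (⋃ i, (u m i : Set X)) := by
    intro ε hε
    filter_upwards [eventually_all.mpr fun i => hi i ε hε] with m hm
    constructor
    · refine iUnion_subset fun i => (hm i).1.trans ?_
      exact thickening_subset_of_subset ε (subset_iUnion (fun i => (K i : Set X)) i)
    · refine iUnion_subset fun i => (hm i).2.trans ?_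
      exact thickening_subset_of_subset ε (subset_iUnion (fun i => (u m i : Set X)) i)
  have hUc : IsClosed (⋃ i, (K i : Set X)) :=
    isClosed_iUnion_of_finite fun i => (K i).isCompact.isClosed
  have hx : x ∈ ⋃ i, (K i : Set X) := by
    refine hc_lim hUc (tendsto_const_nhds (x := x)) fun ε hε => ?_
    exact (hU ε hε).mono fun m hm => hm.1 (hu m).2.2
  refine ⟨fun i => ⟨⟨(K i).nonempty, hc_conn (fun m => ((hu m).1 i).1)
    (K i).isCompact.isClosed (hi i)⟩, ?_⟩, ⟨⟨x, hx⟩, hc_conn (fun m => (hu m).2.1) hUc hU⟩, hx⟩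
  have hr : 0 ≤ r := by
    have := ((hu 0).1 i).2
    exact le_trans diam_nonneg this
  refine diam_le_of_forall_dist_le hr fun a ha b hb => ?_
  refine le_of_forall_pos_le_add fun ε hε => ?_
  obtain ⟨m, hm⟩ := (hi i (ε / 2) (by linarith)).exists
  obtain ⟨a', ha', haa⟩ := mem_thickening_iff.mp (hm.2 ha)
  obtain ⟨b', hb', hbb⟩ := mem_thickening_iff.mp (hm.2 hb)
  have h1 : dist a' b' ≤ r := le_trans (dist_le_diam_of_mem
    (isCompact_univ.isBounded.subset (subset_univ _)) ha' hb') ((hu m).1 i).2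
  calc dist a b ≤ dist a a' + dist a' b' + dist b' b := dist_triangle4 _ _ _ _
    _ ≤ r + ε := by rw [dist_comm b' b]; linarith

open TopologicalSpace in
private theorem hcE_closed {X : Type*} [MetricSpace X] [CompactSpace X] {n : ℕ}
    {C : Set (Fin n → NonemptyCompacts X)} (hC : IsClosed C) : IsClosed (hcE C) := by
  apply IsSeqClosed.isClosed
  intro y z hy hz
  choose K hK i hi using hy
  obtain ⟨L, -, φ, hφ, hlim⟩ := hC.isCompact.tendsto_subseq hK
  obtain ⟨j, ψ, hψ, hlim2⟩ := CompactSpace.tendsto_subseq fun m => i (φ m)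
  have hev : ∀ᶠ m in atTop, i (φ (ψ m)) = j := by
    have := hlim2.eventually (show ∀ᶠ k in 𝓝 j, k = j by
      rw [nhds_discrete]
      exact eventually_pure.mpr rfl)
    exact this
  have hlim3 : Tendsto (fun m => K (φ (ψ m))) atTop (𝓝 L) := hlim.comp hψ.tendsto_atTop
  have hLC : L ∈ C := hC.mem_of_tendsto hlim3 (Eventually.of_forall fun m => hK _)
  refine ⟨L, hLC, j, ?_⟩
  refine hc_lim (L j).isCompact.isClosed (hz.comp (hφ.tendsto_atTop.comp hψ.tendsto_atTop))
    fun ε hε => ?_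
  filter_upwards [hev, Metric.tendsto_nhds.mp (tendsto_pi_nhds.mp hlim3 j) ε hε] with m h1 h2
  have h3 := hi (φ (ψ m))
  rw [h1] at h3
  exact hc_dist h2 h3

open TopologicalSpace in
private theorem hc_cls {X : Type*} [MetricSpace X] [CompactSpace X] (r : ℝ) (x : X) :
    Cls r x ⊆ ⋃ n, hcE (hcT r x n) := by
  rintro y ⟨B, ⟨n, K, hK, rfl⟩, hBc, hxB, hyB⟩
  rw [mem_iUnion]
  refine ⟨n, fun i => ⟨⟨K i, (hK i).1.1.isCompact⟩, (hK i).1.2.nonempty⟩,
    ⟨fun i => ⟨(hK i).1.2, (hK i).2⟩, hBc, hxB⟩, ?_⟩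
  obtain ⟨i, hi⟩ := mem_iUnion.mp hyB
  exact ⟨i, hi⟩

theorem hub_core {X : Type*} [MetricSpace X] [CompactSpace X] {r : ℝ} {x : X}
    (hx : ¬ IsMeagre (Cls r x)) :
    ∃ A : Set X, x ∈ A ∧ IsConnected A ∧ FinLe r A ∧ ∀ ε > 0, ∃ O : Set X, IsOpen O ∧ O.Nonempty ∧
      ∀ y ∈ O, ∃ B : Set X, FinLe r B ∧ IsConnected B ∧ x ∈ B ∧ y ∈ B ∧ B ⊆ thickening ε A := by
  obtain ⟨n, K, hK, hKε⟩ : ∃ n, ∃ K ∈ hcT r x n, ∀ ε > 0,
      (interior (hcE (hcT r x n ∩ closedBall K ε))).Nonempty := by
    by_contra hcon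
    push Not at hcon
    apply hx
    refine IsMeagre.mono (hc_cls r x) ?_
    apply isMeagre_iUnion
    intro n
    refine IsCompact.induction_on (hcT_closed r x n).isCompact
      (p := fun S => IsMeagre (hcE S)) ?_ ?_ ?_ ?_
    · have : hcE (∅ : Set (Fin n → TopologicalSpace.NonemptyCompacts X)) = ∅ := by
        apply eq_empty_of_forall_notMem
        rintro y ⟨K, hK, _⟩
        exact hK
      rw [this]
      exact IsMeagre.empty
    · intro S T hST hT
      refine IsMeagre.mono ?_ hT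
      rintro y ⟨K, hK, i, hi⟩
      exact ⟨K, hST hK, i, hi⟩
    · intro S T hS hT
      have : hcE (S ∪ T) = hcE S ∪ hcE T := by
        ext y
        constructor
        · rintro ⟨K, hK | hK, i, hi⟩
          · exact Or.inl ⟨K, hK, i, hi⟩
          · exact Or.inr ⟨K, hK, i, hi⟩
        · rintro (⟨K, hK, i, hi⟩ | ⟨K, hK, i, hi⟩)
          · exact ⟨K, Or.inl hK, i, hi⟩
          · exact ⟨K, Or.inr hK, i, hi⟩
      rw [this]
      exact hS.union hT
    · intro K hK
      obtain ⟨ε, hε, hint⟩ := hcon n K hK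
      refine ⟨hcT r x n ∩ closedBall K ε, inter_mem_nhdsWithin _ (closedBall_mem_nhds K hε), ?_⟩
      have hcl : IsClosed (hcE (hcT r x n ∩ closedBall K ε)) :=
        hcE_closed ((hcT_closed r x n).inter isClosed_closedBall)
      apply IsNowhereDense.isMeagre
      unfold IsNowhereDense
      rw [hcl.closure_eq]
      exact hint
  refine ⟨⋃ i, (K i : Set X), hK.2.2, hK.2.1,
    ⟨n, fun i => (K i : Set X), fun i => ⟨⟨(K i).isCompact.isClosed, (hK.1 i).1⟩, (hK.1 i).2⟩,
      rfl⟩, fun ε hε => ⟨_, isOpen_interior, hKε (ε / 2) (by linarith), ?_⟩⟩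
  intro y hy
  obtain ⟨L, ⟨hL, hLK⟩, j, hj⟩ := interior_subset hy
  refine ⟨⋃ i, (L i : Set X), ⟨n, fun i => (L i : Set X),
    fun i => ⟨⟨(L i).isCompact.isClosed, (hL.1 i).1⟩, (hL.1 i).2⟩, rfl⟩, hL.2.1, hL.2.2,
    mem_iUnion.mpr ⟨j, hj⟩, ?_⟩
  refine iUnion_subset fun i => ?_
  have h1 : dist (L i) (K i) < ε := by
    have h2 := dist_le_pi_dist L K i
    have h3 : dist L K ≤ ε / 2 := hLK
    linarith
  exact (hc_dist h1).trans (thickening_subset_of_subset ε (subset_iUnion (fun i => (K i : Set X)) i))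

end Pool.Agent.HDC
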