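import Mathlib
import Pool.Agent.HDC.Basic
import Pool.Agent.HDC.HubCore

/-!
# HDC module HUBEX: the hub property (uses the stub `hub_core`)

PROOF. Take `A` from `hub_core`, `σ = (r' - r)/8`. Let `Sm g σ`, `ε > 0`. By uniform continuity of
`g` there is `ε₁ > 0` with `dist a b < ε₁ → dist (g a) (g b) < ε`. Take `O` from `hub_core` for
`ε₁/2`, a point `z ∈ O` and `ρ > 0` with `ball z ρ ⊆ O`. By uniform continuity of `g⁻¹` choose
`δ > 0` such that `Sm h δ` implies `Sm k τ` for `k = g⁻¹ ∘ h ∘ g`, `τ = min ρ (min (ε₁/2) σ)`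
(write `k = (g.trans h).trans g.symm`). Given `h`, both `z` and `k z` lie in `O`: there are
`B ∋ x, z` and `B' ∋ x, k z` as in `hub_core`. Let `T₀ = k '' B ∪ B'`: connected (both contain
`k z`), closed, contains `x` and `k x`, `T₀ ⊆ thickening ε₁ A` (as `k '' B ⊆ thickening τ B`).
Put `T = g '' T₀`. Then `T` is a continuum, `g x ∈ T ∩ g '' A`,
`g (k x) = h (g x) ∈ T ∩ h '' (g '' A)`, `T ⊆ g '' (thickening ε₁ A) ⊆ thickening ε (g '' A)`, and
`T` is a finite union of continua of diameter `< r'`: the pieces of `g '' B'` have diameter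
`≤ r + 2 σ`, those of `g '' (k '' B)` have diameter `≤ r + 4 σ = r + (r' - r)/2` (see
`Sm.diam_image_le`; `FinLe`/`FinLt` images and unions as in `Basic.lean`). `A` itself is `FinLt r'`
by `FinLe.finLt` and closed by `FinLe.isClosed`. About 100 lines.
-/

set_option autoImplicit false

open Set Topology Filter Metric

namespace Pool.Agent.HDC

private theorem hx_image {X : Type*} [MetricSpace X] [CompactSpace X] {r s : ℝ} {B : Set X}
    (hB : FinLe r B) {m : X ≃ₜ X} (hm : Sm m s) (hs : 0 < s) : FinLe (r + 2 * s) (m '' B) := by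
  obtain ⟨n, K, hK, rfl⟩ := hB
  refine ⟨n, fun i => m '' K i, fun i => ⟨(hK i).1.image m, ?_⟩, image_iUnion⟩
  have h1 := hm.diam_image_le hs (K i)
  have h2 := (hK i).2
  linarith

theorem hub_exists {X : Type*} [MetricSpace X] [CompactSpace X] {r r' : ℝ} (hr : 0 ≤ r)
    (hrr : r < r') {x : X} (hx : ¬ IsMeagre (Cls r x)) :
    ∃ A : Set X, Ctm A ∧ FinLt r' A ∧ ∃ σ > 0, ∀ g : X ≃ₜ X, Sm g σ → Hub (FinLt r') (g '' A) := by
  obtain ⟨A, hxA, hAc, hAr, hA⟩ := hub_core hx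
  have hσ : 0 < (r' - r) / 8 := by linarith
  refine ⟨A, ⟨hAr.isClosed, hAc⟩, hAr.finLt hrr, (r' - r) / 8, hσ, ?_⟩
  intro g hg ε hε
  obtain ⟨ε₁, hε₁, hgu⟩ := Metric.uniformContinuous_iff.mp
    (CompactSpace.uniformContinuous_of_continuous g.continuous) ε hε
  obtain ⟨O, hOo, ⟨z, hz⟩, hO⟩ := hA (ε₁ / 2) (by linarith)
  obtain ⟨ρ, hρ, hball⟩ := Metric.isOpen_iff.mp hOo z hz
  set τ := min ρ (min (ε₁ / 2) ((r' - r) / 8)) with hτ
  have hτ0 : 0 < τ := lt_min hρ (lt_min (by linarith) hσ)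
  have hτ1 : τ ≤ ρ := min_le_left _ _
  have hτ2 : τ ≤ ε₁ / 2 := (min_le_right _ _).trans (min_le_left _ _)
  have hτ3 : τ ≤ (r' - r) / 8 := (min_le_right _ _).trans (min_le_right _ _)
  obtain ⟨δ, hδ, hgs⟩ := Metric.uniformContinuous_iff.mp
    (CompactSpace.uniformContinuous_of_continuous g.symm.continuous) τ hτ0
  refine ⟨δ, hδ, fun h hh => ?_⟩
  set k : X ≃ₜ X := (g.trans h).trans g.symm with hk
  have hkv : ∀ v, k v = g.symm (h (g v)) := fun v => rfl
  have hkS : Sm k τ := by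
    intro v
    have h1 : dist (g.symm (h (g v))) (g.symm (g v)) < τ := hgs (hh (g v))
    rw [g.symm_apply_apply] at h1
    exact h1
  have hkz : k z ∈ O := hball (mem_ball.mpr ((hkS z).trans_le hτ1))
  obtain ⟨B, hBr, hBc, hxB, hzB, hBA⟩ := hO z hz
  obtain ⟨B', hBr', hBc', hxB', hzB', hBA'⟩ := hO (k z) hkz
  have hconn : IsConnected (k '' B ∪ B') := by
    refine IsConnected.union ⟨k z, ⟨z, hzB, rfl⟩, hzB'⟩
      (hBc.image k k.continuous.continuousOn) hBc'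
  have hfin : FinLt r' (g '' (k '' B ∪ B')) := by
    rw [image_union]
    refine FinLt.union ?_ ?_
    · refine (hx_image (hx_image hBr hkS hτ0) hg hσ).finLt ?_
      linarith
    · refine (hx_image hBr' hg hσ).finLt ?_
      linarith
  refine ⟨g '' (k '' B ∪ B'), hfin, ⟨hfin.isClosed, hconn.image g g.continuous.continuousOn⟩,
    ?_, ⟨g x, ⟨x, Or.inr hxB', rfl⟩, ⟨x, hxA, rfl⟩⟩, ⟨h (g x), ⟨k x, Or.inl ⟨x, hxB, rfl⟩, ?_⟩,
      ⟨g x, ⟨x, hxA, rfl⟩, rfl⟩⟩⟩
  · rintro _ ⟨u, hu, rfl⟩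
    have h2 : ∃ a ∈ A, dist u a < ε₁ := by
      rcases hu with ⟨v, hv, rfl⟩ | hu
      · obtain ⟨a, ha, hva⟩ := mem_thickening_iff.mp (hBA hv)
        refine ⟨a, ha, ?_⟩
        have h3 := hkS v
        calc dist (k v) a ≤ dist (k v) v + dist v a := dist_triangle _ _ _
          _ < ε₁ := by linarith
      · obtain ⟨a, ha, hva⟩ := mem_thickening_iff.mp (hBA' hu)
        exact ⟨a, ha, by linarith⟩
    obtain ⟨a, ha, hua⟩ := h2
    exact mem_thickening_iff.mpr ⟨g a, ⟨a, ha, rfl⟩, hgu hua⟩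
  · rw [hkv, g.apply_symm_apply]

end Pool.Agent.HDC
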