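import Mathlib
import Pool.Agent.HDC.Effros

/-!
# HDC module MOVABLE: finite unions of small continua can be moved off themselves

(Imports the stub EFFROS; use `effros` freely, and the lemmas `Sm.mono`, `Sm.symm`, `Sm.trans`,
`Sm.diam_image_le`, `Ctm.image` of `Basic.lean`.)

PROOF of `exists_disjoint_pair`. Suppose `g '' K` meets `L` for every `g` with `Sm g δ`; we may
assume `δ ≤ r/4`. Let `M = L ∪ ⋃_{Sm g δ} g '' K`. It is connected (all `g '' K` are connected and
meet the connected set `L`). It has interior points: let `x ∈ K`; by `effros` (for `δ`) there is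
`η > 0` such that every `y` with `dist x y < η` is `g x` for some `g` with `Sm g δ`; so
`ball x η ⊆ M`. Finally `diam M < 8 r ≤ r₀`: every point of `g '' K` has distance
`≤ diam (g '' K) ≤ 2 r + 2 δ ≤ 5 r / 2` from a point of `L`, and `diam L < r`, so `diam M ≤ 6 r`.
This contradicts `hC`.

PROOF of `movable`. Let `B = ⋃_{i < n} K i`. We may assume `δ ≤ r/4`. For a finite set
`s` of pairs `(i,j)` show by induction (`Finset.induction`) that there is `h` with `Sm h (δ')`,
`δ' < δ` (for instance: there are `δ' < δ` and `h` with `Sm h δ'`) and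
`Disjoint (h '' K i) (K j)` for all `(i,j) ∈ s`. Start: identity. Step: given `h` for `s` and a new
pair `(i,j)`: the compact sets `h '' K a`, `K b`, `(a,b) ∈ s`, are disjoint, so there is `τ > 0` with
`Disjoint ((h.trans g) '' K a) (K b)` for all `(a,b) ∈ s` and `Sm g τ`; take also
`τ < (δ - δ')/2`. Apply `exists_disjoint_pair` with `K := h '' K i`
(diameter `< r + 2 δ ≤ 2 r`), `L := K j` and `δ := τ` to get `g`; replace `h` by `h.trans g`.
With `s = univ` we get `Disjoint (h '' B) B`. About 150 lines in total.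
-/

set_option autoImplicit false

open Set Topology Filter Metric

namespace Pool.Agent.HDC

theorem exists_disjoint_pair {X : Type*} [MetricSpace X] [CompactSpace X] (hom : Hom X) {r₀ r : ℝ}
    (hC : ∀ C : Set X, IsConnected C → diam C < r₀ → interior C = ∅)
    (hr : 0 < r) (hrr : 8 * r ≤ r₀) {K L : Set X} (hK : Ctm K) (hKd : diam K < 2 * r)
    (hL : Ctm L) (hLd : diam L < r) {δ : ℝ} (hδ : 0 < δ) :
    ∃ g : X ≃ₜ X, Sm g δ ∧ Disjoint (g '' K) L := by
  by_contra hcon
  set δ' := min δ (r / 4) with hδ'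
  have hδ'0 : 0 < δ' := lt_min hδ (by linarith)
  have hδ'r : δ' ≤ r / 4 := min_le_right _ _
  have hmeet : ∀ g : X ≃ₜ X, Sm g δ' → ∃ l ∈ L, l ∈ g '' K := by
    intro g hg
    by_contra h
    apply hcon
    refine ⟨g, hg.mono (min_le_left _ _), ?_⟩
    rw [Set.disjoint_left]
    intro y hy hyL
    exact h ⟨y, hyL, hy⟩
  have hb : ∀ (C : Set X) (a b : X), a ∈ C → b ∈ C → dist a b ≤ diam C := fun C a b ha hb =>
    dist_le_diam_of_mem (isCompact_univ.isBounded.subset (subset_univ _)) ha hb
  set M : Set X := L ∪ ⋃ g : {g : X ≃ₜ X // Sm g δ'}, g.1 '' K with hM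
  obtain ⟨l, hl⟩ := hL.nonempty
  have hconn : IsConnected M := by
    refine ⟨⟨l, Or.inl hl⟩, isPreconnected_of_forall l ?_⟩
    rintro y (hy | hy)
    · exact ⟨L, subset_union_left, hl, hy, hL.2.isPreconnected⟩
    · obtain ⟨g, hg⟩ := mem_iUnion.mp hy
      obtain ⟨l', hl', hl'g⟩ := hmeet g.1 g.2
      refine ⟨L ∪ g.1 '' K, ?_, Or.inl hl, Or.inr hg, ?_⟩
      · exact union_subset_union_right _ (subset_iUnion (fun g : {g : X ≃ₜ X // Sm g δ'} =>
          g.1 '' K) g)
      · exact (IsConnected.union ⟨l', hl', hl'g⟩ hL.2 (hK.image g.1).2).isPreconnected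
  have hnear : ∀ y ∈ M, ∃ z ∈ L, dist y z ≤ 5 * r / 2 := by
    rintro y (hy | hy)
    · exact ⟨y, hy, by rw [dist_self]; positivity⟩
    · obtain ⟨g, hg⟩ := mem_iUnion.mp hy
      obtain ⟨l', hl', hl'g⟩ := hmeet g.1 g.2
      refine ⟨l', hl', ?_⟩
      have h1 := hb _ _ _ hg hl'g
      have h2 := g.2.diam_image_le hδ'0 K
      linarith
  have hdiam : diam M < r₀ := by
    have h1 : diam M ≤ 6 * r := by
      refine diam_le_of_forall_dist_le (by linarith) fun y hy y' hy' => ?_
      obtain ⟨z, hz, hyz⟩ := hnear y hy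
      obtain ⟨z', hz', hyz'⟩ := hnear y' hy'
      have h2 := hb _ _ _ hz hz'
      calc dist y y' ≤ dist y z + dist z z' + dist z' y' := dist_triangle4 _ _ _ _
        _ ≤ 6 * r := by rw [dist_comm z' y']; linarith
    linarith
  have hint := hC M hconn hdiam
  obtain ⟨x, hx⟩ := hK.nonempty
  obtain ⟨η, hη, hηx⟩ := effros hom hδ'0
  have hxM : x ∈ interior M := by
    rw [mem_interior]
    refine ⟨ball x η, ?_, isOpen_ball, mem_ball_self hη⟩
    intro y hy
    rw [mem_ball, dist_comm] at hy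
    obtain ⟨g, hg, hgx⟩ := hηx x y hy
    exact Or.inr (mem_iUnion.mpr ⟨⟨g, hg⟩, x, hx, hgx⟩)
  rw [hint] at hxM
  exact hxM

private theorem mv_min {ι : Type*} (s : Finset ι) (Q : ι → ℝ → Prop)
    (hQ : ∀ i a b, a ≤ b → Q i b → Q i a) (h : ∀ i ∈ s, ∃ τ > 0, Q i τ) :
    ∃ τ > 0, ∀ i ∈ s, Q i τ := by
  classical
  induction s using Finset.induction_on with
  | empty => exact ⟨1, one_pos, fun i hi => absurd hi (Finset.notMem_empty i)⟩
  | insert i s _ ih =>
    obtain ⟨τ, hτ, h1⟩ := ih fun j hj => h j (Finset.mem_insert_of_mem hj)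
    obtain ⟨τ', hτ', h2⟩ := h i (Finset.mem_insert_self i s)
    refine ⟨min τ τ', lt_min hτ hτ', fun j hj => ?_⟩
    rcases Finset.mem_insert.mp hj with rfl | hj
    · exact hQ _ _ _ (min_le_right _ _) h2
    · exact hQ _ _ _ (min_le_left _ _) (h1 j hj)

theorem movable {X : Type*} [MetricSpace X] [CompactSpace X] (hom : Hom X) {r₀ r : ℝ}
    (hC : ∀ C : Set X, IsConnected C → diam C < r₀ → interior C = ∅)
    (hr : 0 < r) (hrr : 8 * r ≤ r₀) {B : Set X} (hB : FinLt r B) {δ : ℝ} (hδ : 0 < δ) :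
    ∃ h : X ≃ₜ X, Sm h δ ∧ Disjoint (h '' B) B := by
  classical
  obtain ⟨n, K, hK, rfl⟩ := hB
  have key : ∀ s : Finset (Fin n × Fin n), ∀ δ > 0, ∃ h : X ≃ₜ X, Sm h δ ∧
      ∀ p ∈ s, Disjoint (h '' K p.1) (K p.2) := by
    intro s
    induction s using Finset.induction_on with
    | empty =>
      intro δ hδ
      exact ⟨Homeomorph.refl X, Sm.refl hδ, fun p hp => absurd hp (Finset.notMem_empty p)⟩
    | insert q s _ ih =>
      intro δ hδ
      obtain ⟨h, hh, hs⟩ := ih (min (δ / 2) (r / 4)) (lt_min (by linarith) (by linarith))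
      obtain ⟨τ, hτ, hτs⟩ := mv_min s (fun p τ => ∀ g : X ≃ₜ X, Sm g τ →
          Disjoint (g '' (h '' K p.1)) (K p.2))
        (fun p a b hab hb g hg => hb g (hg.mono hab)) (by
          intro p hp
          obtain ⟨ε, hε, hd⟩ := (hs p hp).exists_thickenings ((hK p.1).1.image h).1.isCompact
            (hK p.2).1.1
          exact ⟨ε, hε, fun g hg => hd.mono (hg.image_subset _) (self_subset_thickening hε _)⟩)
      have hd1 : diam (h '' K q.1) < 2 * r := by
        have h1 := hh.diam_image_le (lt_min (by linarith) (by linarith)) (K q.1)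
        have h2 := (hK q.1).2
        have h3 : min (δ / 2) (r / 4) ≤ r / 4 := min_le_right _ _
        linarith
      obtain ⟨g, hg, hgd⟩ := exists_disjoint_pair hom hC hr hrr ((hK q.1).1.image h) hd1
        (hK q.2).1 (hK q.2).2 (δ := min τ (δ / 2)) (lt_min hτ (by linarith))
      refine ⟨h.trans g, (hh.trans hg).mono ?_, ?_⟩
      · have h3 : min (δ / 2) (r / 4) ≤ δ / 2 := min_le_left _ _
        have h4 : min τ (δ / 2) ≤ δ / 2 := min_le_right _ _
        linarith
      · intro p hp
        have himg : ∀ A : Set X, (h.trans g) '' A = g '' (h '' A) := by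
          intro A
          rw [image_image]
          rfl
        rw [himg]
        rcases Finset.mem_insert.mp hp with rfl | hp
        · exact hgd
        · exact hτs p hp g (hg.mono (min_le_left _ _))
  obtain ⟨h, hh, hs⟩ := key Finset.univ δ hδ
  refine ⟨h, hh, ?_⟩
  rw [image_iUnion, disjoint_iUnion_left]
  intro i
  rw [disjoint_iUnion_right]
  intro j
  exact hs (i, j) (Finset.mem_univ _)

end Pool.Agent.HDC
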