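import Mathlib
import Pool.Agent.HDC.Basic
import Pool.Agent.HDC.Bump
import Pool.Agent.HDC.IrrEx
import Pool.Agent.HDC.FullStab

/-!
# HDC module STEPN: the doubling step with a movable class of sets and a hub

(uses the stubs `bumping`, `exists_irr`, `full_stable`)

PROOF. Write `H = g '' A`; `A`, `H`, `L` are closed, `A ∩ H = ∅`.
1. `Irr.full` and `full_stable`: there is `ε₁ > 0` with
   `Full (ε/2) L (cthickening ε₁ L) (cthickening ε₁ A) (cthickening ε₁ H)`. Choose `ε₂ > 0` with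
   `3 ε₂ ≤ ε₁`, `2 ε₂ ≤ ε`, and `Disjoint A (cthickening (3 ε₂) H)` (possible: `A`, `H` disjoint
   compact).
2. `hhub` with `ε₂` gives `δ₁`; `hQm B hB` gives `δ₂`; `mov` gives `h` with
   `Sm h (min (min δ₁ δ₂) (min ε₂ σ))` and `Disjoint (h '' B) B`. Let `T` be given by the hub
   property for this `h`.
3. `Z := H ∪ T ∪ h '' H` (a continuum, `⊆ thickening (2 ε₂) H`), `P₁ := A ∪ L`, `P₂ := h '' P₁`,
   `D₁ := A`, `D₂ := h '' A`. `P₁ ⊆ B`, `P₂ ⊆ h '' B`, so they are disjoint and `A ∩ h '' A = ∅`.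
4. `M := L ∪ Z ∪ h '' L` is a continuum (`L` meets `H`, `h '' L` meets `h '' H`), it meets `A` and
   `h '' A`. `exists_irr` gives `L' ⊆ M` with `Irr L' A (h '' A)`. `B' := B ∪ T ∪ h '' B`.
5. `A ∪ L' ∪ h '' A ⊆ P₁ ∪ Z ∪ P₂`. Clear. `⊆ thickening ε (A ∪ L ∪ H)`: `P₁ ⊆ A ∪ L`,
   `Z ⊆ thickening (2 ε₂) H`, `P₂ ⊆ thickening ε₂ P₁` (`Sm.image_subset`).
6. `L'` meets `P₁ ∩ D₁ = A` and `P₂ ∩ D₂ = h '' A` (`Irr`).
7. `Full (ε/2) L P₁ D₁ (cthickening (3 ε₂) H)` [this implies `Full ε L P₁ D₁ Z`]: let `K ⊆ A ∪ L` be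
   a continuum meeting `A` and a point `z ∈ K ∩ cthickening (3 ε₂) H`. `z ∉ A`. `bumping` with
   `G = Aᶜ`: a continuum `C ∋ z`, `C ⊆ closure (K \ A) ⊆ L`, `C` meets `A`. As
   `C ⊆ L ⊆ cthickening ε₁ L`, meets `A` and `cthickening ε₁ H` (at `z`), step 1 gives
   `L ⊆ thickening (ε/2) C ⊆ thickening (ε/2) K`.
8. `Full ε L P₂ D₂ Z`: let `K ⊆ h '' (A ∪ L)` meet `h '' A` and `Z`. `K₁ := h.symm '' K` is a
   continuum in `A ∪ L`, meets `A` and `h.symm '' Z ⊆ thickening (3 ε₂) H`. By 7,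
   `L ⊆ thickening (ε/2) K₁`, and `K₁ ⊆ thickening ε₂ K` (`Sm.symm`, `Sm.image_subset`),
   `ε₂ ≤ ε/2`; so `L ⊆ thickening ε K`.
About 180 lines.
-/

set_option autoImplicit false

open Set Topology Filter Metric

namespace Pool.Agent.HDC

theorem step_nonlc {X : Type*} [MetricSpace X] [CompactSpace X] {Q : Set X → Prop}
    (hQc : ∀ B, Q B → IsClosed B) (hQu : ∀ B B', Q B → Q B' → Q (B ∪ B'))
    (hQm : ∀ B, Q B → ∃ δ > 0, ∀ h : X ≃ₜ X, Sm h δ → Q (h '' B))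
    (mov : ∀ B, Q B → ∀ δ > 0, ∃ h : X ≃ₜ X, Sm h δ ∧ Disjoint (h '' B) B)
    {A : Set X} (hA : Ctm A) {σ : ℝ} (hσ : 0 < σ) {g : X ≃ₜ X} (hhub : Hub Q (g '' A))
    {L B : Set X} (hd : Disjoint A (g '' A)) (hL : Irr L A (g '' A)) (hB : Q B)
    (hLB : A ∪ L ∪ g '' A ⊆ B) {ε : ℝ} (hε : 0 < ε) :
    ∃ (h : X ≃ₜ X) (L' B' : Set X), Sm h σ ∧ Disjoint A (h '' A) ∧ Irr L' A (h '' A) ∧ Q B' ∧
      A ∪ L' ∪ h '' A ⊆ B' ∧ Step ε L (A ∪ L ∪ g '' A) L' (A ∪ L' ∪ h '' A) := by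
  set H : Set X := g '' A with hH
  have hHc : Ctm H := hA.image g
  -- step 1
  obtain ⟨ε₁, hε₁, hfull⟩ := full_stable hL.1.1 hA.1 hHc.1 (ρ := ε / 4) (ρ' := ε / 2)
    (by linarith) (by linarith) (hL.full (by linarith))
  obtain ⟨ε₃, hε₃, hd₃⟩ := hd.exists_cthickenings hA.1.isCompact hHc.1
  set ε₂ := min (min (ε₁ / 3) (ε / 2)) (ε₃ / 3) with hε₂
  have hε₂0 : 0 < ε₂ := lt_min (lt_min (by linarith) (by linarith)) (by linarith)
  have h21 : ε₂ ≤ ε₁ / 3 := (min_le_left _ _).trans (min_le_left _ _)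
  have h2ε : ε₂ ≤ ε / 2 := (min_le_left _ _).trans (min_le_right _ _)
  have h23 : ε₂ ≤ ε₃ / 3 := min_le_right _ _
  have hdA : Disjoint A (cthickening (3 * ε₂) H) :=
    hd₃.mono (self_subset_cthickening A) (cthickening_mono (by linarith) H)
  -- step 2
  obtain ⟨δ₁, hδ₁, hT⟩ := hhub ε₂ hε₂0
  obtain ⟨δ₂, hδ₂, hQh⟩ := hQm B hB
  obtain ⟨h, hh, hdB⟩ := mov B hB (min (min δ₁ δ₂) (min ε₂ σ))
    (lt_min (lt_min hδ₁ hδ₂) (lt_min hε₂0 hσ))
  have hh1 : Sm h δ₁ := hh.mono ((min_le_left _ _).trans (min_le_left _ _))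
  have hh2 : Sm h δ₂ := hh.mono ((min_le_left _ _).trans (min_le_right _ _))
  have hh3 : Sm h ε₂ := hh.mono ((min_le_right _ _).trans (min_le_left _ _))
  have hh4 : Sm h σ := hh.mono ((min_le_right _ _).trans (min_le_right _ _))
  obtain ⟨T, hQT, hTc, hTH, hTm1, hTm2⟩ := hT h hh1
  have hAB : A ⊆ B := fun x hx => hLB (Or.inl (Or.inl hx))
  have hLB' : L ⊆ B := fun x hx => hLB (Or.inl (Or.inr hx))
  have hHB : H ⊆ B := fun x hx => hLB (Or.inr hx)
  -- step 3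
  set Z : Set X := H ∪ T ∪ h '' H with hZ
  have hZc : Ctm Z := by
    refine (hHc.union hTc ?_).union (hHc.image h) ?_
    · rw [inter_comm]
      exact hTm1
    · exact hTm2.mono (inter_subset_inter_left _ subset_union_right)
  have hZH : Z ⊆ thickening (2 * ε₂) H := by
    rintro x ((hx | hx) | hx)
    · exact self_subset_thickening (by linarith) H hx
    · exact thickening_mono (by linarith) H (hTH hx)
    · exact thickening_mono (by linarith) H (hh3.image_subset H hx)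
  set P₁ : Set X := A ∪ L with hP₁
  set P₂ : Set X := h '' P₁ with hP₂
  have hP₁c : IsClosed P₁ := hA.1.union hL.1.1
  have hP₂c : IsClosed P₂ := h.isClosed_image.2 hP₁c
  have hP₁B : P₁ ⊆ B := union_subset hAB hLB'
  have hdP : Disjoint P₁ P₂ := (hdB.mono (image_mono hP₁B) hP₁B).symm
  have hdAA : Disjoint A (h '' A) := (hdB.mono (image_mono hAB) hAB).symm
  -- step 4
  set M : Set X := L ∪ Z ∪ h '' L with hM
  have hMc : Ctm M := by
    refine (hL.1.union hZc ?_).union (hL.1.image h) ?_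
    · exact hL.2.2.1.mono (inter_subset_inter_right _ fun x hx => Or.inl (Or.inl hx))
    · obtain ⟨x, hxL, hxH⟩ := hL.2.2.1
      exact ⟨h x, Or.inr (Or.inr ⟨x, hxH, rfl⟩), ⟨x, hxL, rfl⟩⟩
  have hMA : (M ∩ A).Nonempty := hL.2.1.mono (inter_subset_inter_left _ fun x hx =>
    Or.inl (Or.inl hx))
  have hMA' : (M ∩ h '' A).Nonempty := by
    obtain ⟨x, hxL, hxA⟩ := hL.2.1
    exact ⟨h x, Or.inr ⟨x, hxL, rfl⟩, ⟨x, hxA, rfl⟩⟩
  obtain ⟨L', hL'M, hL'⟩ := exists_irr hMc hA.1 (hA.image h).1 hMA hMA'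
  have hcov : A ∪ L' ∪ h '' A ⊆ P₁ ∪ Z ∪ P₂ := by
    rintro x ((hx | hx) | hx)
    · exact Or.inl (Or.inl (Or.inl hx))
    · rcases hL'M hx with (hx | hx) | hx
      · exact Or.inl (Or.inl (Or.inr hx))
      · exact Or.inl (Or.inr hx)
      · exact Or.inr (image_mono subset_union_right hx)
    · exact Or.inr (image_mono subset_union_left hx)
  have hWε : P₁ ∪ Z ∪ P₂ ⊆ thickening ε (A ∪ L ∪ H) := by
    rintro x ((hx | hx) | hx)
    · exact self_subset_thickening hε _ (Or.inl hx)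
    · exact thickening_mono (by linarith) _
        (thickening_subset_of_subset _ subset_union_right (hZH hx))
    · exact thickening_mono (by linarith) _
        (thickening_subset_of_subset _ subset_union_left (hh3.image_subset P₁ hx))
  -- step 7
  have h7 : Full (ε / 2) L P₁ A (cthickening (3 * ε₂) H) := by
    rintro K hK hKP ⟨a, haK, haA⟩ ⟨z, hzK, hzH⟩
    have hzA : z ∉ A := fun hc => Set.disjoint_left.mp hdA hc hzH
    obtain ⟨C, hC, hzC, hCK, hCcl, c, hcC, hcA⟩ := bumping hK hA.1.isOpen_compl hzK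
      (show z ∈ Aᶜ from hzA) (fun hc => hc haK haA)
    have hCL : C ⊆ L := by
      refine hCcl.trans (closure_minimal ?_ hL.1.1)
      rintro y ⟨hyK, hyA⟩
      exact (hKP hyK).resolve_left hyA
    have hcA' : c ∈ A := by
      by_contra hcc
      exact hcA hcc
    refine (hfull C hC (hCL.trans (self_subset_cthickening L)) ⟨c, hcC,
      self_subset_cthickening A hcA'⟩ ⟨z, hzC, cthickening_mono (by linarith) H hzH⟩).trans ?_
    exact thickening_subset_of_subset _ hCK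
  have h7' : Full ε L P₁ A Z := h7.mono (by linarith) Subset.rfl Subset.rfl
    (hZH.trans ((thickening_mono (by linarith) H).trans (thickening_subset_cthickening _ _)))
  -- step 8
  have h8 : Full ε L P₂ (h '' A) Z := by
    rintro K hK hKP ⟨a, haK, haA⟩ ⟨z, hzK, hzZ⟩
    have h1 : L ⊆ thickening (ε / 2) (h.symm '' K) := by
      refine h7 (h.symm '' K) (hK.image h.symm) ?_ ?_ ?_
      · rintro _ ⟨y, hy, rfl⟩
        obtain ⟨w, hw, rfl⟩ := hKP hy
        rw [h.symm_apply_apply]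
        exact hw
      · obtain ⟨w, hw, rfl⟩ := haA
        exact ⟨w, ⟨h w, haK, h.symm_apply_apply w⟩, hw⟩
      · refine ⟨h.symm z, ⟨z, hzK, rfl⟩, ?_⟩
        obtain ⟨w, hw, hzw⟩ := mem_thickening_iff.mp (hZH hzZ)
        refine mem_cthickening_of_dist_le _ w _ _ hw ?_
        have h2 := hh3.symm z
        calc dist (h.symm z) w ≤ dist (h.symm z) z + dist z w := dist_triangle _ _ _
          _ ≤ 3 * ε₂ := by linarith
    intro x hx
    obtain ⟨y, hy, hxy⟩ := mem_thickening_iff.mp (h1 hx)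
    obtain ⟨w, hw, hyw⟩ := mem_thickening_iff.mp (hh3.symm.image_subset K hy)
    refine mem_thickening_iff.mpr ⟨w, hw, ?_⟩
    calc dist x w ≤ dist x y + dist y w := dist_triangle _ _ _
      _ < ε := by linarith
  refine ⟨h, L', B ∪ T ∪ h '' B, hh4, hdAA, hL', hQu _ _ (hQu _ _ hB hQT) (hQh h hh2), ?_,
    P₁, P₂, Z, A, h '' A, hP₁c, hP₂c, hZc.1, hA.1, (hA.image h).1, hcov, hcov.trans hWε, hdP,
    ?_, ?_, h7', h8⟩
  · refine hcov.trans ?_
    rintro x ((hx | hx) | hx)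
    · exact Or.inl (Or.inl (hP₁B hx))
    · rcases hx with (hx | hx) | hx
      · exact Or.inl (Or.inl (hHB hx))
      · exact Or.inl (Or.inr hx)
      · exact Or.inr (image_mono hHB hx)
    · exact Or.inr (image_mono hP₁B hx)
  · obtain ⟨x, hxL, hxA⟩ := hL'.2.1
    exact ⟨x, hxL, Or.inl hxA, hxA⟩
  · obtain ⟨x, hxL, hxA⟩ := hL'.2.2.1
    exact ⟨x, hxL, image_mono subset_union_left hxA, hxA⟩

end Pool.Agent.HDC
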