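import Mathlib
import Pool.Agent.HDC.Dicho
import Pool.Agent.HDC.Movable
import Pool.Agent.HDC.HubEx
import Pool.Agent.HDC.StepN
import Pool.Agent.HDC.Iter

/-!
# HDC: the case of a space that is not locally connected
-/

set_option autoImplicit false

open Set Topology Filter Metric

namespace Pool.Agent.HDC

/-- A movable class of sets containing a hub gives an indecomposable continuum. -/
theorem indec_of_hub {X : Type*} [MetricSpace X] [CompactSpace X] {Q : Set X → Prop}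
    (hQc : ∀ B, Q B → IsClosed B) (hQu : ∀ B B', Q B → Q B' → Q (B ∪ B'))
    (hQm : ∀ B, Q B → ∃ δ > 0, ∀ h : X ≃ₜ X, Sm h δ → Q (h '' B))
    (mov : ∀ B, Q B → ∀ δ > 0, ∃ h : X ≃ₜ X, Sm h δ ∧ Disjoint (h '' B) B)
    {A : Set X} (hA : Ctm A) (hQA : Q A) {σ : ℝ} (hσ : 0 < σ)
    (hub : ∀ g : X ≃ₜ X, Sm g σ → Hub Q (g '' A)) :
    ∃ Y : Set X, Ctm Y ∧ Y.Nontrivial ∧ Indec Y := by
  -- the states
  let S := {s : (X ≃ₜ X) × Set X × Set X // Sm s.1 σ ∧ Disjoint A (s.1 '' A) ∧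
    Irr s.2.1 A (s.1 '' A) ∧ Q s.2.2 ∧ A ∪ s.2.1 ∪ s.1 '' A ⊆ s.2.2}
  -- the initial state
  have hubA : Hub Q A := by
    have := hub (Homeomorph.refl X) (Sm.refl hσ)
    simpa using this
  obtain ⟨δ₁, hδ₁, hT₁⟩ := hubA 1 one_pos
  obtain ⟨δ₂, hδ₂, hQ₂⟩ := hQm A hQA
  obtain ⟨h, hh, hdis⟩ := mov A hQA (min (min δ₁ δ₂) σ) (lt_min (lt_min hδ₁ hδ₂) hσ)
  obtain ⟨T, hQT, hT, -, hTA, hThA⟩ := hT₁ h (hh.mono ((min_le_left _ _).trans (min_le_left _ _)))
  have hQhA : Q (h '' A) := hQ₂ h (hh.mono ((min_le_left _ _).trans (min_le_right _ _)))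
  obtain ⟨L₀, hL₀T, hL₀⟩ := exists_irr hT hA.1 (hA.image h).1 hTA hThA
  let s₀ : S := ⟨⟨h, L₀, A ∪ T ∪ h '' A⟩, hh.mono (min_le_right _ _), hdis.symm, hL₀,
    hQu _ _ (hQu _ _ hQA hQT) hQhA,
    union_subset_union (union_subset_union subset_rfl hL₀T) subset_rfl⟩
  have hne : L₀.Nontrivial := by
    obtain ⟨a, haL, haA⟩ := hL₀.2.1
    obtain ⟨b, hbL, hbA⟩ := hL₀.2.2.1
    refine ⟨a, haL, b, hbL, ?_⟩
    rintro rfl
    exact disjoint_left.1 hdis hbA haA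
  refine exists_indec (S := S) (fun s => s.1.2.1) (fun s => A ∪ s.1.2.1 ∪ s.1.1 '' A)
    (fun s => s.2.2.2.1.1) (fun s => ?_) (fun s => ?_) s₀ hne (fun s ε hε => ?_)
  · exact (subset_union_right).trans subset_union_left
  · exact (hA.1.union s.2.2.2.1.1.1).union (hA.image s.1.1).1
  · obtain ⟨g', L', B', h1, h2, h3, h4, h5, h6⟩ := step_nonlc hQc hQu hQm mov hA hσ
      (hub s.1.1 s.2.1) s.2.2.1 s.2.2.2.1 s.2.2.2.2.1 s.2.2.2.2.2 hε
    exact ⟨⟨⟨g', L', B'⟩, h1, h2, h3, h4, h5⟩, h6⟩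

/-- A compact homogeneous metric space in which, for every `r > 0`, some class `Cls r x` is not
meagre is locally connected or contains an indecomposable continuum. -/
theorem indec_of_not_locallyConnected {X : Type*} [MetricSpace X] [CompactSpace X] [Nonempty X]
    (hom : Hom X) (hnm : ∀ r > 0, ∃ x : X, ¬ IsMeagre (Cls r x))
    (hlc : ¬ LocallyConnectedSpace X) : ∃ Y : Set X, Ctm Y ∧ Y.Nontrivial ∧ Indec Y := by
  rcases dichotomy hom with h | ⟨r₀, hr₀, hC⟩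
  · exact absurd h hlc
  have hr : (0:ℝ) < r₀ / 8 := by linarith
  obtain ⟨x, hx⟩ := hnm (r₀ / 16) (by linarith)
  obtain ⟨A, hA, hQA, σ, hσ, hub⟩ := hub_exists (r := r₀ / 16) (r' := r₀ / 8) (by linarith)
    (by linarith) hx
  exact indec_of_hub (Q := FinLt (r₀ / 8)) (fun B hB => hB.isClosed)
    (fun B B' hB hB' => hB.union hB') (fun B hB => hB.exists_small)
    (fun B hB δ hδ => movable hom hC hr (by linarith) hB hδ) hA hQA hσ hub

end Pool.Agent.HDC
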