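import Mathlib
import Pool.Agent.HDC.Defs

/-!
# HDC module PATHCLS: path components are contained in the classes `Cls r x`

PROOF. Let `γ` be a path from `x` to `y`. By uniform continuity there is `n ≥ 1` such that
`dist (γ s) (γ t) ≤ r` for `|s - t| ≤ 1/n`. `B = range γ` is connected, contains `x` and `y`, and is
the union of the `n` continua `γ '' Icc (i/n) ((i+1)/n)`, `i < n`, of diameter `≤ r`. About 60 lines.
-/

set_option autoImplicit false

open Set Topology Filter Metric

namespace Pool.Agent.HDC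

theorem pathComponent_subset_cls {X : Type*} [MetricSpace X] {r : ℝ} (hr : 0 < r) (x : X) :
    pathComponent x ⊆ Cls r x := by
  intro y hy
  obtain ⟨γ⟩ : Joined x y := hy
  have huc : UniformContinuous (γ : unitInterval → X) :=
    CompactSpace.uniformContinuous_of_continuous γ.continuous
  rw [Metric.uniformContinuous_iff] at huc
  obtain ⟨δ, hδ, hδγ⟩ := huc r hr
  obtain ⟨n, hn⟩ := exists_nat_one_div_lt hδ
  set K : Fin (n + 1) → Set X := fun i =>
    (γ : unitInterval → X) '' {t : unitInterval | (i:ℝ) / (n + 1) ≤ t ∧ (t:ℝ) ≤ ((i:ℝ) + 1) / (n + 1)}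
    with hK
  have hn1 : (0:ℝ) < (n:ℝ) + 1 := by positivity
  have hcov : range γ = ⋃ i, K i := by
    apply Subset.antisymm
    · rintro _ ⟨t, rfl⟩
      rw [mem_iUnion]
      by_cases ht : (t:ℝ) = 1
      · refine ⟨Fin.last n, t, ⟨?_, ?_⟩, rfl⟩
        · rw [ht, div_le_one hn1]; simp
        · rw [ht]; simp [div_self hn1.ne']
      · have ht1 : (t:ℝ) < 1 := lt_of_le_of_ne t.2.2 ht
        have h0 : 0 ≤ (t:ℝ) * (n + 1) := mul_nonneg t.2.1 hn1.le
        refine ⟨⟨⌊(t:ℝ) * (n + 1)⌋₊, ?_⟩, t, ⟨?_, ?_⟩, rfl⟩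
        · rw [Nat.floor_lt h0]
          push_cast
          nlinarith
        · rw [div_le_iff₀ hn1]
          exact Nat.floor_le h0
        · rw [le_div_iff₀ hn1]
          exact (Nat.lt_floor_add_one _).le
    · intro z hz
      obtain ⟨i, t, -, rfl⟩ := mem_iUnion.1 hz
      exact mem_range_self t
  refine ⟨range γ, ⟨n + 1, K, fun i => ⟨⟨?_, ?_⟩, ?_⟩, hcov⟩, isConnected_range γ.continuous,
    ⟨0, γ.source⟩, ⟨1, γ.target⟩⟩
  · apply IsCompact.isClosed
    apply IsCompact.image _ γ.continuous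
    apply IsClosed.isCompact
    exact (isClosed_le continuous_const continuous_subtype_val).inter
      (isClosed_le continuous_subtype_val continuous_const)
  · apply IsConnected.image _ _ γ.continuous.continuousOn
    have hle : (i:ℝ) / (n + 1) ≤ ((i:ℝ) + 1) / (n + 1) := by gcongr; linarith
    have h0 : 0 ≤ (i:ℝ) / (n + 1) := by positivity
    have h1 : ((i:ℝ) + 1) / (n + 1) ≤ 1 := by
      rw [div_le_one hn1]
      have : (i:ℕ) + 1 ≤ n + 1 := i.2
      exact_mod_cast this
    have hset : {t : unitInterval | (i:ℝ) / (n + 1) ≤ t ∧ (t:ℝ) ≤ ((i:ℝ) + 1) / (n + 1)}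
        = Icc (⟨(i:ℝ) / (n + 1), h0, hle.trans h1⟩ : unitInterval)
          ⟨((i:ℝ) + 1) / (n + 1), h0.trans hle, h1⟩ := by
      ext t
      simp only [mem_ofPred_eq, mem_Icc, ← Subtype.coe_le_coe]
    rw [hset]
    exact isConnected_Icc (by rw [← Subtype.coe_le_coe]; exact hle)
  · apply diam_le_of_forall_dist_le hr.le
    rintro _ ⟨s, hs, rfl⟩ _ ⟨t, ht, rfl⟩
    apply (hδγ _).le
    rw [Subtype.dist_eq, Real.dist_eq]
    have h2 : ((i:ℝ) + 1) / (n + 1) = (i:ℝ) / (n + 1) + 1 / (n + 1) := by ring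
    have hs1 := hs.1
    have hs2 := hs.2
    have ht1 := ht.1
    have ht2 := ht.2
    rw [h2] at hs2 ht2
    have : |(s:ℝ) - t| ≤ 1 / (n + 1) := by
      rw [abs_le]; constructor <;> linarith
    exact this.trans_lt hn

end Pool.Agent.HDC
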