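import Mathlib
import Pool.Agent.HDC.MainN
import Pool.Agent.HDC.MainL
import Pool.Agent.HDC.PathCls

/-!
# HDC: the main theorem
-/

set_option autoImplicit false

open Set Topology Filter Metric

namespace Pool.Agent.HDC

/-- Let `X` be a nondegenerate homogeneous hereditarily decomposable continuum. Then `X` is a circle,
or `X` is not path connected, all its path components are meagre, and for some `r > 0` all classes
`Cls r x` (points joined to `x` by connected finite unions of subcontinua of diameter at most `r`)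
are meagre. -/
theorem main {X : Type*} [MetricSpace X] [CompactSpace X] [ConnectedSpace X] [Nontrivial X]
    (hom : ∀ x y : X, ∃ h : X ≃ₜ X, h x = y)
    (hd : ∀ K : Set X, IsClosed K → IsConnected K → K.Nontrivial →
      ∃ A B : Set X, IsClosed A ∧ IsConnected A ∧ IsClosed B ∧ IsConnected B ∧
        A ⊂ K ∧ B ⊂ K ∧ A ∪ B = K) :
    Nonempty (X ≃ₜ Circle) ∨ (¬ PathConnectedSpace X ∧ (∀ x : X, IsMeagre (pathComponent x)) ∧
      ∃ r > 0, ∀ x : X, IsMeagre (Cls r x)) := by
  have hnd : ¬ ∃ Y : Set X, Ctm Y ∧ Y.Nontrivial ∧ Indec Y := by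
    rintro ⟨Y, hY, hYn, hYi⟩
    obtain ⟨A, B, hA, hA', hB, hB', hAY, hBY, hAB⟩ := hd Y hY.1 hY.2 hYn
    rcases hYi A B ⟨hA, hA'⟩ ⟨hB, hB'⟩ hAB with h | h
    · exact hAY.ne h
    · exact hBY.ne h
  by_cases hnm : ∀ r > 0, ∃ x : X, ¬ IsMeagre (Cls r x)
  · left
    haveI : LocallyConnectedSpace X := by
      by_contra hlc
      exact hnd (indec_of_not_locallyConnected hom hnm hlc)
    exact circle_of_locallyConnected hom hnd
  · right
    push Not at hnm
    obtain ⟨r, hr, hx⟩ := hnm
    have hpc : ∀ x : X, IsMeagre (pathComponent x) :=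
      fun x => (hx x).mono (pathComponent_subset_cls hr x)
    refine ⟨?_, hpc, r, hr, hx⟩
    intro hP
    obtain ⟨x⟩ : Nonempty X := inferInstance
    have h1 : pathComponent x = univ := by
      rw [eq_univ_iff_forall]
      exact fun y => PathConnectedSpace.joined x y
    have h2 := hpc x
    rw [h1] at h2
    exact not_isMeagre_of_isOpen isOpen_univ univ_nonempty h2

end Pool.Agent.HDC
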